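import Mathlib

set_option autoImplicit false

namespace Pool.Agent.H69.AMU

/-- The value of the `j`-coloured unknot at the Kauffman variable `A`:
`Δ 0 = 1`, `Δ 1 = -A^2 - A^(-2)`, `Δ (j+2) = Δ 1 * Δ (j+1) - Δ j`. -/
noncomputable def unknot (A : ℂ) : ℕ → ℂ
  | 0 => 1
  | 1 => -A ^ 2 - (A ^ 2)⁻¹
  | (j + 2) => (-A ^ 2 - (A ^ 2)⁻¹) * unknot A (j + 1) - unknot A j

/-- Fusion paths: the standard basis (admissible colourings of the comb-shaped tree) of the space
`V(S^2; 1, ..., 1, c)` with `n` points coloured `1` and one point coloured `c`, all labels being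
at most `L`. -/
@[ext]
structure FusionPath (n c L : ℕ) where
  /-- the labels of the inner edges -/
  label : Fin (n + 1) → Fin (L + 1)
  start : (label 0 : ℕ) = 0
  finish : (label (Fin.last n) : ℕ) = c
  step : ∀ i : Fin n, (label i.succ : ℕ) = label i.castSucc + 1 ∨
    (label i.castSucc : ℕ) = label i.succ + 1

noncomputable instance (n c L : ℕ) : Fintype (FusionPath n c L) :=
  Fintype.ofInjective FusionPath.label fun _ _ h => FusionPath.ext h

noncomputable instance (n c L : ℕ) : DecidableEq (FusionPath n c L) := Classical.decEq _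

namespace FusionPath

variable {n c L : ℕ}

/-- The label of a path at position `k` (constant after position `n`). -/
def lab (p : FusionPath n c L) (k : ℕ) : ℕ := p.label ⟨min k n, by omega⟩

lemma lab_le (p : FusionPath n c L) (k : ℕ) : p.lab k ≤ L := by
  have := (p.label ⟨min k n, by omega⟩).2
  unfold lab
  omega

lemma lab_of_le (p : FusionPath n c L) {k : ℕ} (hk : k ≤ n) : p.lab k = p.label ⟨k, by omega⟩ := by
  unfold lab
  have : (⟨min k n, by omega⟩ : Fin (n + 1)) = ⟨k, by omega⟩ := by
    ext; simp [hk]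
  rw [this]

lemma lab_zero (p : FusionPath n c L) : p.lab 0 = 0 := by
  rw [lab_of_le p (Nat.zero_le n)]
  exact p.start

lemma lab_ge (p : FusionPath n c L) {k : ℕ} (hk : n ≤ k) : p.lab k = c := by
  unfold lab
  have : (⟨min k n, by omega⟩ : Fin (n + 1)) = Fin.last n := by
    ext; simp [hk]
  rw [this]
  exact p.finish

lemma lab_step (p : FusionPath n c L) {k : ℕ} (hk : k < n) :
    p.lab (k + 1) = p.lab k + 1 ∨ p.lab k = p.lab (k + 1) + 1 := by
  rw [lab_of_le p (by omega : k ≤ n), lab_of_le p (by omega : k + 1 ≤ n)]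
  exact p.step ⟨k, hk⟩

lemma ext_lab {p q : FusionPath n c L} (h : ∀ k, p.lab k = q.lab k) : p = q := by
  apply FusionPath.ext
  funext i
  apply Fin.ext
  have := h i
  rw [lab_of_le p (by omega : (i : ℕ) ≤ n), lab_of_le q (by omega : (i : ℕ) ≤ n)] at this
  exact this

lemma lab_le_pos (p : FusionPath n c L) (k : ℕ) (hk : k ≤ n) : p.lab k ≤ k := by
  induction k with
  | zero => rw [lab_zero]
  | succ k ih =>
    have := ih (by omega)
    rcases p.lab_step (by omega : k < n) with h | h <;> omega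

/-- Two paths agree away from position `m`. -/
def AgreeOff (m : ℕ) (p q : FusionPath n c L) : Prop := ∀ k, k ≠ m → p.lab k = q.lab k

lemma AgreeOff.symm {m : ℕ} {p q : FusionPath n c L} (h : AgreeOff m p q) : AgreeOff m q p :=
  fun k hk => (h k hk).symm

lemma AgreeOff.trans {m : ℕ} {p q s : FusionPath n c L} (h : AgreeOff m p q)
    (h' : AgreeOff m q s) : AgreeOff m p s :=
  fun k hk => (h k hk).trans (h' k hk)

lemma AgreeOff.refl (m : ℕ) (p : FusionPath n c L) : AgreeOff m p p := fun _ _ => rfl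

lemma AgreeOff.eq {m : ℕ} {p q : FusionPath n c L} (h : AgreeOff m p q)
    (h' : p.lab m = q.lab m) : p = q := by
  apply ext_lab
  intro k
  by_cases hk : k = m
  · subst hk; exact h'
  · exact h k hk

/-- Changing the label at an interior position. -/
def modify (p : FusionPath n c L) (m b : ℕ) (hm : m + 1 < n) (hb : b ≤ L)
    (h1 : b = p.lab m + 1 ∨ p.lab m = b + 1) (h2 : p.lab (m + 2) = b + 1 ∨ b = p.lab (m + 2) + 1) :
    FusionPath n c L where
  label := fun i => if (i : ℕ) = m + 1 then ⟨b, by omega⟩ else p.label i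
  start := by
    have e : ((0 : Fin (n + 1)) : ℕ) ≠ m + 1 := by simp
    rw [if_neg e]
    exact p.start
  finish := by
    have e : ((Fin.last n : Fin (n + 1)) : ℕ) ≠ m + 1 := by simp; omega
    rw [if_neg e]
    exact p.finish
  step := by
    intro i
    by_cases hi : (i : ℕ) = m
    · have e1 : ((i.succ : Fin (n + 1)) : ℕ) = m + 1 := by simp [hi]
      have e2 : ((i.castSucc : Fin (n + 1)) : ℕ) ≠ m + 1 := by simp [hi]
      rw [if_pos e1, if_neg e2]
      have e3 : ((p.label i.castSucc : Fin (L + 1)) : ℕ) = p.lab m := by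
        rw [lab_of_le p (by omega : m ≤ n)]
        congr 2
        exact Fin.ext hi
      rw [e3]
      exact h1
    · by_cases hi' : (i : ℕ) = m + 1
      · have e1 : ((i.succ : Fin (n + 1)) : ℕ) ≠ m + 1 := by simp [hi']
        have e2 : ((i.castSucc : Fin (n + 1)) : ℕ) = m + 1 := by simp [hi']
        rw [if_neg e1, if_pos e2]
        have e3 : ((p.label i.succ : Fin (L + 1)) : ℕ) = p.lab (m + 2) := by
          rw [lab_of_le p (by omega : m + 2 ≤ n)]
          congr 2
          apply Fin.ext
          simp [hi']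
        rw [e3]
        exact h2
      · have e1 : ((i.succ : Fin (n + 1)) : ℕ) ≠ m + 1 := by simp; omega
        have e2 : ((i.castSucc : Fin (n + 1)) : ℕ) ≠ m + 1 := by simpa using hi'
        rw [if_neg e1, if_neg e2]
        exact p.step i

lemma lab_modify_self (p : FusionPath n c L) (m b : ℕ) (hm : m + 1 < n) (hb : b ≤ L)
    (h1 : b = p.lab m + 1 ∨ p.lab m = b + 1) (h2 : p.lab (m + 2) = b + 1 ∨ b = p.lab (m + 2) + 1) :
    (p.modify m b hm hb h1 h2).lab (m + 1) = b := by
  rw [lab_of_le _ (by omega : m + 1 ≤ n)]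
  simp [modify]

lemma agreeOff_modify (p : FusionPath n c L) (m b : ℕ) (hm : m + 1 < n) (hb : b ≤ L)
    (h1 : b = p.lab m + 1 ∨ p.lab m = b + 1) (h2 : p.lab (m + 2) = b + 1 ∨ b = p.lab (m + 2) + 1) :
    AgreeOff (m + 1) (p.modify m b hm hb h1 h2) p := by
  intro k hk
  by_cases hkn : k ≤ n
  · rw [lab_of_le _ hkn, lab_of_le _ hkn]
    simp [modify, hk]
  · rw [lab_ge _ (by omega), lab_ge _ (by omega)]

/-- Sum over all paths which agree with a given one off an interior position. -/
lemma sum_agreeOff (p : FusionPath n c L) (m : ℕ) (hm : m + 1 < n) (ha : p.lab m = p.lab (m + 2))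
    (F : ℕ → ℂ) [∀ q : FusionPath n c L, Decidable (AgreeOff (m + 1) q p)] :
    ∑ q : FusionPath n c L, (if AgreeOff (m + 1) q p then F (q.lab (m + 1)) else 0)
      = ∑ b ∈ Finset.range (L + 1),
        (if (b = p.lab m + 1 ∨ p.lab m = b + 1) then F b else 0) := by
  classical
  rw [← Finset.sum_filter, ← Finset.sum_filter]
  refine Finset.sum_bij' (fun q _ => q.lab (m + 1))
    (fun b hb => if h : b ≤ L ∧ (b = p.lab m + 1 ∨ p.lab m = b + 1) then
      p.modify m b hm h.1 h.2 (by rw [← ha]; omega) else p) ?_ ?_ ?_ ?_ ?_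
  · intro q hq
    rw [Finset.mem_filter] at hq ⊢
    refine ⟨Finset.mem_range.2 (by have := q.lab_le (m + 1); omega), ?_⟩
    have h1 := q.lab_step (by omega : m < n)
    have h2 := hq.2 m (by omega)
    rw [h2] at h1
    omega
  · intro b hb
    rw [Finset.mem_filter, Finset.mem_range] at hb
    have h : b ≤ L ∧ (b = p.lab m + 1 ∨ p.lab m = b + 1) := ⟨by omega, hb.2⟩
    rw [Finset.mem_filter]
    refine ⟨Finset.mem_univ _, ?_⟩
    rw [dif_pos h]
    exact agreeOff_modify _ _ _ _ _ _ _
  · intro q hq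
    rw [Finset.mem_filter] at hq
    have h1 := q.lab_step (by omega : m < n)
    have h2 := hq.2 m (by omega)
    rw [h2] at h1
    have h : q.lab (m + 1) ≤ L ∧ (q.lab (m + 1) = p.lab m + 1 ∨ p.lab m = q.lab (m + 1) + 1) :=
      ⟨q.lab_le _, by omega⟩
    rw [dif_pos h]
    apply AgreeOff.eq (m := m + 1)
    · exact (agreeOff_modify _ _ _ _ _ _ _).trans hq.2.symm
    · exact lab_modify_self _ _ _ _ _ _ _
  · intro b hb
    rw [Finset.mem_filter, Finset.mem_range] at hb
    have h : b ≤ L ∧ (b = p.lab m + 1 ∨ p.lab m = b + 1) := ⟨by omega, hb.2⟩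
    rw [dif_pos h]
    exact lab_modify_self _ _ _ _ _ _ _
  · intro q _
    rfl

end FusionPath

end Pool.Agent.H69.AMU
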