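import Mathlib
import Pool.Agent.H69.AMU.Path

set_option autoImplicit false

namespace Pool.Agent.H69.AMU

open FusionPath Matrix

/-- The Kauffman variable `A` is admissible for paths of length `n` with labels at most `L`:
the relevant unknot values do not vanish, and either the fusion rules are truncated at `L`
(as for a root of unity) or no path reaches beyond `L`. -/
def Admissible (n L : ℕ) (A : ℂ) : Prop :=
  A ≠ 0 ∧ (∀ j ≤ L, unknot A j ≠ 0) ∧ (unknot A (L + 1) = 0 ∨ n ≤ L)

open Classical in
/-- The action of the `g`-th cup-cap element of the Temperley-Lieb algebra on fusion paths. -/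
noncomputable def cupcap (n c L : ℕ) (A : ℂ) (g : ℕ) :
    Matrix (FusionPath n c L) (FusionPath n c L) ℂ :=
  fun p' p => if AgreeOff (g + 1) p' p ∧ p.lab g = p.lab (g + 2) then
    unknot A (p'.lab (g + 1)) / unknot A (p.lab g) else 0

variable {n c L : ℕ} {A : ℂ}

lemma cupcap_apply_pos {g : ℕ} {p' p : FusionPath n c L} (h : AgreeOff (g + 1) p' p)
    (h' : p.lab g = p.lab (g + 2)) :
    cupcap n c L A g p' p = unknot A (p'.lab (g + 1)) / unknot A (p.lab g) := by
  rw [cupcap, if_pos ⟨h, h'⟩]

lemma cupcap_apply_neg {g : ℕ} {p' p : FusionPath n c L}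
    (h : ¬ (AgreeOff (g + 1) p' p ∧ p.lab g = p.lab (g + 2))) :
    cupcap n c L A g p' p = 0 := by
  rw [cupcap, if_neg h]

lemma sum_range_neighbors (f : ℕ → ℂ) (a L : ℕ) (ha : a ≤ L) :
    ∑ b ∈ Finset.range (L + 1), (if (b = a + 1 ∨ a = b + 1) then f b else 0)
      = (if a + 1 ≤ L then f (a + 1) else 0) + (if 1 ≤ a then f (a - 1) else 0) := by
  have h1 : ∀ b, (if (b = a + 1 ∨ a = b + 1) then f b else 0)
      = (if b = a + 1 then f b else 0) + (if a = b + 1 then f b else 0) := by
    intro b
    by_cases h : b = a + 1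
    · have h' : a ≠ b + 1 := by omega
      rw [if_pos (Or.inl h), if_pos h, if_neg h', add_zero]
    · by_cases h' : a = b + 1
      · rw [if_pos (Or.inr h'), if_neg h, if_pos h', zero_add]
      · rw [if_neg (by tauto), if_neg h, if_neg h', add_zero]
  simp_rw [h1]
  rw [Finset.sum_add_distrib]
  congr 1
  · rw [Finset.sum_ite_eq' (Finset.range (L + 1)) (a + 1) f]
    simp only [Finset.mem_range]
    congr 1
    simp only [eq_iff_iff]
    omega
  · by_cases h : 1 ≤ a
    · rw [if_pos h]
      rw [Finset.sum_eq_single (a - 1)]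
      · rw [if_pos (by omega)]
      · intro b _ hb
        rw [if_neg (by omega)]
      · intro hb
        exact absurd (Finset.mem_range.2 (by omega)) hb
    · rw [if_neg h]
      apply Finset.sum_eq_zero
      intro b _
      rw [if_neg (by omega)]

lemma neighbor_sum (hA : Admissible n L A) (a : ℕ) (ha : a ≤ L) (ha' : a < n) :
    ∑ b ∈ Finset.range (L + 1), (if (b = a + 1 ∨ a = b + 1) then unknot A b else 0)
      = unknot A 1 * unknot A a := by
  rw [sum_range_neighbors _ _ _ ha]
  have htop : (if a + 1 ≤ L then unknot A (a + 1) else 0) = unknot A (a + 1) := by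
    by_cases h : a + 1 ≤ L
    · rw [if_pos h]
    · rw [if_neg h]
      have haL : a = L := by omega
      rcases hA.2.2 with h' | h'
      · rw [haL, h']
      · omega
  rw [htop]
  rcases a with _ | a
  · simp [unknot]
  · simp only [le_add_iff_nonneg_left, zero_le, if_true, Nat.add_sub_cancel]
    rw [unknot]
    simp only [unknot]
    ring

/-- `U_g ^ 2 = δ U_g`. -/
lemma cupcap_sq (hA : Admissible n L A) {g : ℕ} (hg : g + 1 < n) :
    cupcap n c L A g * cupcap n c L A g = unknot A 1 • cupcap n c L A g := by
  classical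
  ext p' p
  rw [Matrix.mul_apply, Matrix.smul_apply, smul_eq_mul]
  by_cases hp : p.lab g = p.lab (g + 2)
  · by_cases hpp : AgreeOff (g + 1) p' p
    · have h0 : unknot A (p.lab g) ≠ 0 := hA.2.1 _ (p.lab_le g)
      have h1 : ∀ q : FusionPath n c L, cupcap n c L A g p' q * cupcap n c L A g q p
          = (unknot A (p'.lab (g + 1)) / unknot A (p.lab g) / unknot A (p.lab g)) *
            (if AgreeOff (g + 1) q p then unknot A (q.lab (g + 1)) else 0) := by
        intro q
        by_cases hq : AgreeOff (g + 1) q p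
        · have hq1 : AgreeOff (g + 1) p' q := hpp.trans hq.symm
          have e1 : q.lab g = p.lab g := hq g (by omega)
          have e2 : q.lab (g + 2) = p.lab (g + 2) := hq (g + 2) (by omega)
          rw [cupcap_apply_pos hq1 (by rw [e1, e2, hp]), cupcap_apply_pos hq hp, if_pos hq, e1]
          ring
        · rw [cupcap_apply_neg (p' := q) (p := p) (fun h => hq h.1), if_neg hq]
          ring
      simp_rw [h1]
      rw [← Finset.mul_sum, sum_agreeOff p g hg hp (fun b => unknot A b),
        neighbor_sum hA _ (p.lab_le g) (by have := p.lab_le_pos g (by omega); omega),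
        cupcap_apply_pos hpp hp]
      field_simp
    · rw [cupcap_apply_neg (fun h => hpp h.1), mul_zero]
      apply Finset.sum_eq_zero
      intro q _
      by_cases hq : AgreeOff (g + 1) q p
      · rw [cupcap_apply_neg (p' := p') (p := q) (fun h => hpp (h.1.trans hq)), zero_mul]
      · rw [cupcap_apply_neg (p' := q) (p := p) (fun h => hq h.1), mul_zero]
  · rw [cupcap_apply_neg (fun h => hp h.2), mul_zero]
    apply Finset.sum_eq_zero
    intro q _
    rw [cupcap_apply_neg (p' := q) (p := p) (fun h => hp h.2), mul_zero]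

/-- `U_g U_{g+1} U_g = U_g`. -/
lemma cupcap_braid (hA : Admissible n L A) {g : ℕ} (hg : g + 2 < n) :
    cupcap n c L A g * cupcap n c L A (g + 1) * cupcap n c L A g = cupcap n c L A g := by
  ext p' p
  rw [Matrix.mul_apply]
  by_cases hp : p.lab g = p.lab (g + 2)
  · have hs : p.lab (g + 3) = p.lab (g + 2) + 1 ∨ p.lab (g + 2) = p.lab (g + 3) + 1 :=
      p.lab_step (by omega : g + 2 < n)
    let q0 : FusionPath n c L := p.modify g (p.lab (g + 3)) (by omega) (p.lab_le _)
      (by rw [hp]; omega) (by omega)
    have hq0 : AgreeOff (g + 1) q0 p := agreeOff_modify _ _ _ _ _ _ _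
    have hq0l : q0.lab (g + 1) = p.lab (g + 3) := lab_modify_self _ _ _ _ _ _ _
    have e0 : q0.lab g = p.lab g := hq0 g (by omega)
    have e2 : q0.lab (g + 2) = p.lab (g + 2) := hq0 (g + 2) (by omega)
    have e3 : q0.lab (g + 3) = p.lab (g + 3) := hq0 (g + 3) (by omega)
    rw [Finset.sum_eq_single q0]
    · rw [Matrix.mul_apply, Finset.sum_eq_single q0]
      · have h1 : cupcap n c L A (g + 1) q0 q0
            = unknot A (q0.lab (g + 2)) / unknot A (q0.lab (g + 1)) :=
          cupcap_apply_pos (AgreeOff.refl _ _) (by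
            show q0.lab (g + 1) = q0.lab (g + 3)
            rw [hq0l, e3])
        rw [h1, cupcap_apply_pos hq0 hp, e2, ← hp]
        have hn1 : unknot A (q0.lab (g + 1)) ≠ 0 := hA.2.1 _ (q0.lab_le _)
        have hn0 : unknot A (p.lab g) ≠ 0 := hA.2.1 _ (p.lab_le _)
        have h2 : cupcap n c L A g p' q0 = cupcap n c L A g p' p := by
          by_cases hpp : AgreeOff (g + 1) p' p
          · rw [cupcap_apply_pos (hpp.trans hq0.symm) (by rw [e0, e2, hp]), cupcap_apply_pos hpp hp,
              e0]
          · rw [cupcap_apply_neg (fun h => hpp (h.1.trans hq0)), cupcap_apply_neg (fun h => hpp h.1)]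
        rw [h2]
        field_simp
      · intro q' _ hq'
        by_cases h1 : AgreeOff (g + 2) q' q0
        · rw [cupcap_apply_neg (p' := p') (p := q'), zero_mul]
          rintro ⟨_, h2⟩
          apply hq'
          apply AgreeOff.eq h1
          rw [← h2, h1 g (by omega), e0, e2, hp]
        · rw [cupcap_apply_neg (p' := q') (p := q0) (fun h => h1 h.1), mul_zero]
      · intro h
        exact absurd (Finset.mem_univ _) h
    · intro q _ hq
      by_cases h1 : AgreeOff (g + 1) q p
      · have h2 : (cupcap n c L A g * cupcap n c L A (g + 1)) p' q = 0 := by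
          rw [Matrix.mul_apply]
          apply Finset.sum_eq_zero
          intro q' _
          rw [cupcap_apply_neg (p' := q') (p := q), mul_zero]
          rintro ⟨_, h3⟩
          apply hq
          apply AgreeOff.eq (h1.trans hq0.symm)
          have h4 : q.lab (g + 3) = p.lab (g + 3) := h1 (g + 3) (by omega)
          rw [hq0l, ← h4]
          exact h3
        rw [h2, zero_mul]
      · rw [cupcap_apply_neg (p' := q) (p := p) (fun h => h1 h.1), mul_zero]
    · intro h
      exact absurd (Finset.mem_univ _) h
  · rw [cupcap_apply_neg (fun h => hp h.2)]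
    apply Finset.sum_eq_zero
    intro q _
    rw [cupcap_apply_neg (p' := q) (p := p) (fun h => hp h.2), mul_zero]

/-- `U_{g+1} U_g U_{g+1} = U_{g+1}`. -/
lemma cupcap_braid' (hA : Admissible n L A) {g : ℕ} (hg : g + 2 < n) :
    cupcap n c L A (g + 1) * cupcap n c L A g * cupcap n c L A (g + 1)
      = cupcap n c L A (g + 1) := by
  ext p' p
  rw [Matrix.mul_apply]
  by_cases hp : p.lab (g + 1) = p.lab (g + 3)
  · have hs := p.lab_step (by omega : g < n)
    let q0 : FusionPath n c L := p.modify (g + 1) (p.lab g) (by omega) (p.lab_le _)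
      (by omega) (by show p.lab (g + 3) = p.lab g + 1 ∨ p.lab g = p.lab (g + 3) + 1; omega)
    have hq0 : AgreeOff (g + 2) q0 p := agreeOff_modify _ _ _ _ _ _ _
    have hq0l : q0.lab (g + 2) = p.lab g := lab_modify_self _ _ _ _ _ _ _
    have e0 : q0.lab g = p.lab g := hq0 g (by omega)
    have e1 : q0.lab (g + 1) = p.lab (g + 1) := hq0 (g + 1) (by omega)
    have e3 : q0.lab (g + 3) = p.lab (g + 3) := hq0 (g + 3) (by omega)
    rw [Finset.sum_eq_single q0]
    · rw [Matrix.mul_apply, Finset.sum_eq_single q0]
      · have h1 : cupcap n c L A g q0 q0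
            = unknot A (q0.lab (g + 1)) / unknot A (q0.lab g) :=
          cupcap_apply_pos (AgreeOff.refl _ _) (by rw [hq0l, e0])
        have h3 : cupcap n c L A (g + 1) q0 p
            = unknot A (q0.lab (g + 2)) / unknot A (p.lab (g + 1)) :=
          cupcap_apply_pos hq0 hp
        rw [h1, h3, e0, e1, hq0l]
        have hn1 : unknot A (p.lab (g + 1)) ≠ 0 := hA.2.1 _ (p.lab_le _)
        have hn0 : unknot A (p.lab g) ≠ 0 := hA.2.1 _ (p.lab_le _)
        have h2 : cupcap n c L A (g + 1) p' q0 = cupcap n c L A (g + 1) p' p := by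
          by_cases hpp : AgreeOff (g + 2) p' p
          · have h4 : cupcap n c L A (g + 1) p' q0
                = unknot A (p'.lab (g + 2)) / unknot A (q0.lab (g + 1)) :=
              cupcap_apply_pos (hpp.trans hq0.symm) (by
                show q0.lab (g + 1) = q0.lab (g + 3)
                rw [e1, e3, hp])
            have h5 : cupcap n c L A (g + 1) p' p
                = unknot A (p'.lab (g + 2)) / unknot A (p.lab (g + 1)) :=
              cupcap_apply_pos hpp hp
            rw [h4, h5, e1]
          · rw [cupcap_apply_neg (fun h => hpp (h.1.trans hq0)), cupcap_apply_neg (fun h => hpp h.1)]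
        rw [h2]
        field_simp
      · intro q' _ hq'
        by_cases h1 : AgreeOff (g + 1) q' q0
        · rw [cupcap_apply_neg (p' := p') (p := q'), zero_mul]
          rintro ⟨_, h2⟩
          have h2' : q'.lab (g + 1) = q'.lab (g + 3) := h2
          apply hq'
          apply AgreeOff.eq h1
          rw [h2', h1 (g + 3) (by omega), e3, e1, hp]
        · rw [cupcap_apply_neg (p' := q') (p := q0) (fun h => h1 h.1), mul_zero]
      · intro h
        exact absurd (Finset.mem_univ _) h
    · intro q _ hq
      by_cases h1 : AgreeOff (g + 2) q p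
      · have h2 : (cupcap n c L A (g + 1) * cupcap n c L A g) p' q = 0 := by
          rw [Matrix.mul_apply]
          apply Finset.sum_eq_zero
          intro q' _
          rw [cupcap_apply_neg (p' := q') (p := q), mul_zero]
          rintro ⟨_, h3⟩
          apply hq
          apply AgreeOff.eq (h1.trans hq0.symm)
          have h4 : q.lab g = p.lab g := h1 g (by omega)
          rw [hq0l, ← h4]
          exact h3.symm
        rw [h2, zero_mul]
      · rw [cupcap_apply_neg (p' := q) (p := p) (fun h => h1 h.1), mul_zero]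
    · intro h
      exact absurd (Finset.mem_univ _) h
  · have h0 : ∀ q, cupcap n c L A (g + 1) q p = 0 := fun q => cupcap_apply_neg (fun h => hp h.2)
    rw [h0]
    apply Finset.sum_eq_zero
    intro q _
    rw [h0, mul_zero]

open Classical in
/-- Explicit entries of the product of two distant cup-caps. -/
lemma cupcap_mul_far {i j : ℕ} (hj : j + 1 < n)
    (hij : i + 2 ≤ j ∨ j + 2 ≤ i) (p' p : FusionPath n c L) :
    (cupcap n c L A i * cupcap n c L A j) p' p =
      if (∀ k, k ≠ i + 1 → k ≠ j + 1 → p'.lab k = p.lab k) ∧ p.lab i = p.lab (i + 2) ∧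
        p.lab j = p.lab (j + 2) then
        (unknot A (p'.lab (i + 1)) / unknot A (p.lab i)) *
          (unknot A (p'.lab (j + 1)) / unknot A (p.lab j)) else 0 := by
  rw [Matrix.mul_apply]
  by_cases hC : (∀ k, k ≠ i + 1 → k ≠ j + 1 → p'.lab k = p.lab k) ∧ p.lab i = p.lab (i + 2) ∧
        p.lab j = p.lab (j + 2)
  · rw [if_pos hC]
    obtain ⟨hk, hpi, hpj⟩ := hC
    have s1 := p'.lab_step (by omega : j < n)
    have s2 := p'.lab_step (by omega : j + 1 < n)
    have k1 := hk j (by omega) (by omega)
    have k2 := hk (j + 2) (by omega) (by omega)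
    let q0 : FusionPath n c L := p.modify j (p'.lab (j + 1)) hj (p'.lab_le _)
      (by rw [← k1]; omega) (by rw [← k2]; omega)
    have hq0 : AgreeOff (j + 1) q0 p := agreeOff_modify _ _ _ _ _ _ _
    have hq0l : q0.lab (j + 1) = p'.lab (j + 1) := lab_modify_self _ _ _ _ _ _ _
    have hq0' : AgreeOff (i + 1) p' q0 := by
      intro k hki
      by_cases hkj : k = j + 1
      · rw [hkj, hq0l]
      · rw [hk k hki hkj, hq0 k hkj]
    have e1 : q0.lab i = p.lab i := hq0 i (by omega)
    have e2 : q0.lab (i + 2) = p.lab (i + 2) := hq0 (i + 2) (by omega)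
    rw [Finset.sum_eq_single q0]
    · rw [cupcap_apply_pos hq0' (by rw [e1, e2, hpi]), cupcap_apply_pos hq0 hpj, hq0l, e1]
    · intro q _ hq
      by_cases h1 : AgreeOff (j + 1) q p
      · rw [cupcap_apply_neg (p' := p') (p := q), zero_mul]
        rintro ⟨h2, _⟩
        apply hq
        apply AgreeOff.eq (h1.trans hq0.symm)
        rw [hq0l, h2 (j + 1) (by omega)]
      · rw [cupcap_apply_neg (p' := q) (p := p) (fun h => h1 h.1), mul_zero]
    · intro h
      exact absurd (Finset.mem_univ _) h
  · rw [if_neg hC]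
    apply Finset.sum_eq_zero
    intro q _
    by_cases h1 : AgreeOff (j + 1) q p ∧ p.lab j = p.lab (j + 2)
    · rw [cupcap_apply_neg (p' := p') (p := q), zero_mul]
      rintro ⟨h2, h3⟩
      apply hC
      refine ⟨?_, ?_, h1.2⟩
      · intro k hki hkj
        rw [h2 k hki, h1.1 k hkj]
      · rw [← h1.1 i (by omega), ← h1.1 (i + 2) (by omega)]
        exact h3
    · rw [cupcap_apply_neg (p' := q) (p := p) h1, mul_zero]

/-- Distant cup-caps commute. -/
lemma cupcap_comm {i j : ℕ} (hi : i + 1 < n) (hj : j + 1 < n) (hij : i + 2 ≤ j) :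
    cupcap n c L A i * cupcap n c L A j = cupcap n c L A j * cupcap n c L A i := by
  classical
  ext p' p
  rw [cupcap_mul_far hj (Or.inl hij), cupcap_mul_far hi (Or.inr hij)]
  by_cases hC : (∀ k, k ≠ i + 1 → k ≠ j + 1 → p'.lab k = p.lab k) ∧ p.lab i = p.lab (i + 2) ∧
        p.lab j = p.lab (j + 2)
  · rw [if_pos hC, if_pos ⟨fun k h1 h2 => hC.1 k h2 h1, hC.2.2, hC.2.1⟩, mul_comm]
  · rw [if_neg hC, if_neg]
    rintro ⟨h1, h2, h3⟩
    exact hC ⟨fun k h4 h5 => h1 k h5 h4, h3, h2⟩

end Pool.Agent.H69.AMU
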