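import Mathlib
import Pool.Agent.H69.AMU.TL

set_option autoImplicit false

namespace Pool.Agent.H69.AMU

open FusionPath Matrix

/-- Artin's relations for the braid group on `n` strands (generators indexed by `Fin (n - 1)`). -/
def braidRels (n : ℕ) : Set (FreeGroup (Fin (n - 1))) :=
  {w | ∃ i j : Fin (n - 1), (i : ℕ) + 2 ≤ j ∧
      w = FreeGroup.of i * FreeGroup.of j * (FreeGroup.of i)⁻¹ * (FreeGroup.of j)⁻¹} ∪
  {w | ∃ i j : Fin (n - 1), (i : ℕ) + 1 = j ∧
      w = FreeGroup.of i * FreeGroup.of j * FreeGroup.of i *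
        (FreeGroup.of j)⁻¹ * (FreeGroup.of i)⁻¹ * (FreeGroup.of j)⁻¹}

/-- Artin's braid group on `n` strands. -/
abbrev BraidGroup (n : ℕ) : Type := PresentedGroup (braidRels n)

/-- The permutation attached to the `i`-th generator. -/
def genPerm (n : ℕ) (i : Fin (n - 1)) : Equiv.Perm (Fin n) :=
  Equiv.swap ⟨i, by omega⟩ ⟨i + 1, by omega⟩

lemma genPerm_rels (n : ℕ) : ∀ w ∈ braidRels n, FreeGroup.lift (genPerm n) w = 1 := by
  rintro w (⟨i, j, hij, rfl⟩ | ⟨i, j, hij, rfl⟩)
  · simp only [map_mul, map_inv, FreeGroup.lift_apply_of]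
    have hcomm : Commute (genPerm n i) (genPerm n j) := by
      apply Equiv.Perm.Disjoint.commute
      unfold genPerm
      rw [Equiv.Perm.disjoint_iff_disjoint_support]
      rw [Equiv.Perm.support_swap, Equiv.Perm.support_swap]
      · rw [Finset.disjoint_left]
        intro a ha hb
        simp only [Finset.mem_insert, Finset.mem_singleton, Fin.ext_iff] at ha hb
        omega
      · simp [Fin.ext_iff]
      · simp [Fin.ext_iff]
    rw [hcomm.eq]
    group
  · simp only [map_mul, map_inv, FreeGroup.lift_apply_of]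
    have h : genPerm n i * genPerm n j * genPerm n i = genPerm n j * genPerm n i * genPerm n j := by
      unfold genPerm
      have e : (⟨(i : ℕ) + 1, by omega⟩ : Fin n) = ⟨(j : ℕ), by omega⟩ := by
        apply Fin.ext; simp [hij]
      rw [e]
      have h1 : (⟨(i : ℕ), by omega⟩ : Fin n) ≠ ⟨(j : ℕ), by omega⟩ := by
        simp [Fin.ext_iff]; omega
      have h2 : (⟨(j : ℕ), by omega⟩ : Fin n) ≠ ⟨(j : ℕ) + 1, by omega⟩ := by
        simp [Fin.ext_iff]
      have h3 : (⟨(i : ℕ), by omega⟩ : Fin n) ≠ ⟨(j : ℕ) + 1, by omega⟩ := by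
        simp [Fin.ext_iff]; omega
      rw [Equiv.swap_mul_swap_mul_swap h1 h3]
      rw [Equiv.swap_comm (⟨(i : ℕ), by omega⟩ : Fin n) ⟨(j : ℕ), by omega⟩,
        Equiv.swap_comm (⟨(j : ℕ), by omega⟩ : Fin n) ⟨(j : ℕ) + 1, by omega⟩]
      rw [Equiv.swap_mul_swap_mul_swap h2.symm h3.symm]
      exact Equiv.swap_comm _ _
    rw [h]
    group

/-- The underlying permutation of a braid. -/
def permHom (n : ℕ) : BraidGroup n →* Equiv.Perm (Fin n) :=
  PresentedGroup.toGroup (genPerm_rels n)

/-- The pure braid group: braids with trivial underlying permutation. -/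
def pureBraid (n : ℕ) : Subgroup (BraidGroup n) := (permHom n).ker

/-! ### Unknot values -/

lemma unknot_mul (A : ℂ) (hA : A ≠ 0) (j : ℕ) :
    unknot A j * (A ^ 4 - 1) * A ^ (2 * j) = (-1) ^ j * (A ^ (4 * (j + 1)) - 1) := by
  induction j using Nat.strong_induction_on with
  | _ j ih =>
    rcases j with _ | _ | j
    · simp [unknot]
    · simp only [unknot]
      field_simp
      ring
    · have h0 := ih j (by omega)
      have h1 := ih (j + 1) (by omega)
      have h2 : unknot A (j + 2) = (-A ^ 2 - (A ^ 2)⁻¹) * unknot A (j + 1) - unknot A j := rfl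
      rw [h2]
      have h3 : ((-A ^ 2 - (A ^ 2)⁻¹) * unknot A (j + 1) - unknot A j) * (A ^ 4 - 1) * A ^ (2 * (j + 2))
          = (-A ^ 4 - 1) * (unknot A (j + 1) * (A ^ 4 - 1) * A ^ (2 * (j + 1)))
            - A ^ 4 * (unknot A j * (A ^ 4 - 1) * A ^ (2 * j)) := by
        field_simp
        ring
      rw [h3, h0, h1]
      ring

lemma unknot_eq_zero_iff (A : ℂ) (hA : A ≠ 0) (hA4 : A ^ 4 ≠ 1) (j : ℕ) :
    unknot A j = 0 ↔ (A ^ 4) ^ (j + 1) = 1 := by
  have h := unknot_mul A hA j
  have h1 : A ^ 4 - 1 ≠ 0 := sub_ne_zero.2 hA4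
  have h2 : A ^ (2 * j) ≠ 0 := pow_ne_zero _ hA
  constructor
  · intro h0
    rw [h0, zero_mul, zero_mul] at h
    have h3 : ((-1 : ℂ)) ^ j ≠ 0 := pow_ne_zero _ (by norm_num)
    have h4 := (mul_eq_zero.1 h.symm).resolve_left h3
    rw [← pow_mul]
    exact sub_eq_zero.1 h4
  · intro h0
    rw [← pow_mul] at h0
    rw [h0, sub_self, mul_zero] at h
    exact (mul_eq_zero.1 ((mul_eq_zero.1 h).resolve_right h2)).resolve_right h1

/-- At a parameter whose fourth power is a primitive `r`-th root of unity, the fusion rules are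
truncated at `r - 2`. -/
lemma admissible_of_primitive (n r : ℕ) (hr : 2 ≤ r) (A : ℂ) (hA : IsPrimitiveRoot (A ^ 4) r) :
    Admissible n (r - 2) A := by
  have hA0 : A ≠ 0 := by
    rintro rfl
    have := hA.pow_eq_one
    rw [zero_pow (by norm_num), zero_pow (by omega)] at this
    exact zero_ne_one this
  have hA4 : A ^ 4 ≠ 1 := fun h => by
    have := hA.pow_ne_one_of_pos_of_lt (l := 1) (by norm_num) (by omega)
    rw [pow_one] at this
    exact this h
  refine ⟨hA0, ?_, Or.inl ?_⟩
  · intro j hj
    rw [Ne, unknot_eq_zero_iff A hA0 hA4]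
    exact hA.pow_ne_one_of_pos_of_lt (by omega) (by omega)
  · rw [unknot_eq_zero_iff A hA0 hA4]
    have : r - 2 + 1 + 1 = r := by omega
    rw [this]
    exact hA.pow_eq_one

/-! ### The representation -/

variable {n c L : ℕ} {A : ℂ}

/-- The Kauffman bracket action of a positive crossing: `A + A⁻¹ U`. -/
noncomputable def crossing (n c L : ℕ) (A : ℂ) (g : ℕ) :
    Matrix (FusionPath n c L) (FusionPath n c L) ℂ :=
  A • (1 : Matrix (FusionPath n c L) (FusionPath n c L) ℂ) + A⁻¹ • cupcap n c L A g

/-- The Kauffman bracket action of a negative crossing: `A⁻¹ + A U`. -/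
noncomputable def crossingInv (n c L : ℕ) (A : ℂ) (g : ℕ) :
    Matrix (FusionPath n c L) (FusionPath n c L) ℂ :=
  A⁻¹ • (1 : Matrix (FusionPath n c L) (FusionPath n c L) ℂ) + A • cupcap n c L A g

lemma crossing_mul_inv (hA : Admissible n L A) {g : ℕ} (hg : g + 1 < n) :
    crossing n c L A g * crossingInv n c L A g = 1 := by
  have hA0 := hA.1
  rw [crossing, crossingInv]
  simp only [add_mul, mul_add, smul_mul_assoc, mul_smul_comm, one_mul, mul_one,
    cupcap_sq hA hg, unknot]
  match_scalars
  · field_simp
  · field_simp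
    ring

lemma crossingInv_mul (hA : Admissible n L A) {g : ℕ} (hg : g + 1 < n) :
    crossingInv n c L A g * crossing n c L A g = 1 := by
  have hA0 := hA.1
  rw [crossing, crossingInv]
  simp only [add_mul, mul_add, smul_mul_assoc, mul_smul_comm, one_mul, mul_one,
    cupcap_sq hA hg, unknot]
  match_scalars
  · field_simp
  · field_simp
    ring

/-- The invertible matrix of the `g`-th braid generator. -/
noncomputable def sigma (n c L : ℕ) (A : ℂ) (hA : Admissible n L A) (g : Fin (n - 1)) :
    GL (FusionPath n c L) ℂ where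
  val := crossing n c L A g
  inv := crossingInv n c L A g
  val_inv := crossing_mul_inv hA (by omega)
  inv_val := crossingInv_mul hA (by omega)

lemma crossing_comm {i j : ℕ} (hj : j + 1 < n) (hij : i + 2 ≤ j) :
    crossing n c L A i * crossing n c L A j = crossing n c L A j * crossing n c L A i := by
  rw [crossing, crossing]
  simp only [add_mul, mul_add, smul_mul_assoc, mul_smul_comm, one_mul, mul_one,
    cupcap_comm (c := c) (L := L) (A := A) (by omega : i + 1 < n) hj hij]
  match_scalars <;> ring

lemma crossing_braid (hA : Admissible n L A) {g : ℕ} (hg : g + 2 < n) :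
    crossing n c L A g * crossing n c L A (g + 1) * crossing n c L A g
      = crossing n c L A (g + 1) * crossing n c L A g * crossing n c L A (g + 1) := by
  have hA0 := hA.1
  set U := cupcap n c L A g with hU
  set V := cupcap n c L A (g + 1) with hV
  have h1 : U * U = unknot A 1 • U := cupcap_sq hA (by omega)
  have h2 : V * V = unknot A 1 • V := cupcap_sq hA (by omega)
  have h3 : U * V * U = U := cupcap_braid hA hg
  have h4 : V * U * V = V := cupcap_braid' hA hg
  have h5 : crossing n c L A g = A • (1 : Matrix _ _ ℂ) + A⁻¹ • U := rfl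
  have h6 : crossing n c L A (g + 1) = A • (1 : Matrix _ _ ℂ) + A⁻¹ • V := rfl
  rw [h5, h6]
  simp only [add_mul, mul_add, smul_mul_assoc, mul_smul_comm, one_mul, mul_one, h1, h2, h3, h4,
    unknot]
  match_scalars <;> field_simp <;> ring

lemma sigma_rels (hA : Admissible n L A) :
    ∀ w ∈ braidRels n, FreeGroup.lift (sigma n c L A hA) w = 1 := by
  rintro w (⟨i, j, hij, rfl⟩ | ⟨i, j, hij, rfl⟩)
  · simp only [map_mul, map_inv, FreeGroup.lift_apply_of]
    have h : sigma n c L A hA i * sigma n c L A hA j = sigma n c L A hA j * sigma n c L A hA i := by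
      apply Units.ext
      exact crossing_comm (by omega) hij
    rw [h]
    group
  · simp only [map_mul, map_inv, FreeGroup.lift_apply_of]
    have h : sigma n c L A hA i * sigma n c L A hA j * sigma n c L A hA i
        = sigma n c L A hA j * sigma n c L A hA i * sigma n c L A hA j := by
      apply Units.ext
      have e : (j : ℕ) = i + 1 := hij.symm
      show crossing n c L A i * crossing n c L A j * crossing n c L A i
        = crossing n c L A j * crossing n c L A i * crossing n c L A j
      rw [e]
      exact crossing_braid hA (by omega)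
    rw [h]
    group

/-- The Kauffman bracket representation of the braid group on fusion paths. -/
noncomputable def braidRep (n c L : ℕ) (A : ℂ) (hA : Admissible n L A) :
    BraidGroup n →* GL (FusionPath n c L) ℂ :=
  PresentedGroup.toGroup (sigma_rels hA)

lemma braidRep_of (hA : Admissible n L A) (g : Fin (n - 1)) :
    braidRep n c L A hA (PresentedGroup.of g) = sigma n c L A hA g := by
  rw [braidRep, PresentedGroup.toGroup.of]

/-- The quantum representation at level `r` of the braid group on the space
`V_r(S^2; 1, ..., 1, c)` of the sphere with `n` points coloured `1` and one point coloured `c`,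
at a parameter `A` with `A ^ 4` a primitive `r`-th root of unity. -/
noncomputable def levelRep (n c r : ℕ) (hr : 2 ≤ r) (A : ℂ) (hA : IsPrimitiveRoot (A ^ 4) r) :
    BraidGroup n →* GL (FusionPath n c (r - 2)) ℂ :=
  braidRep n c (r - 2) A (admissible_of_primitive n r hr A hA)

end Pool.Agent.H69.AMU
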