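import Mathlib
import Pool.Agent.H69.AMU.Rep

set_option autoImplicit false

namespace Pool.Agent.H69.AMU

/-- A sequence of group elements satisfying Artin's relations for indices below `M`. -/
structure ArtinSeq {G : Type*} [Group G] (s : ℕ → G) (M : ℕ) : Prop where
  comm : ∀ i j, i + 2 ≤ j → j < M → s i * s j = s j * s i
  braid : ∀ i, i + 1 < M → s i * s (i + 1) * s i = s (i + 1) * s i * s (i + 1)

/-- Descending products `s (k+d-1) * ... * s k`. -/
def desc {G : Type*} [Group G] (s : ℕ → G) : ℕ → ℕ → G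
  | _, 0 => 1
  | k, (d + 1) => desc s (k + 1) d * s k

section
variable {G : Type*} [Group G] {s : ℕ → G} {M : ℕ}

lemma desc_comm (hs : ArtinSeq s M) (d : ℕ) : ∀ k j, j + 2 ≤ k → k + d ≤ M →
    desc s k d * s j = s j * desc s k d := by
  induction d with
  | zero => intro k j _ _; simp [desc]
  | succ d ih =>
    intro k j hj hk
    rw [desc, mul_assoc, ← hs.comm j k hj (by omega), ← mul_assoc, ih (k + 1) j (by omega) (by omega),
      mul_assoc]

lemma desc_slide (hs : ArtinSeq s M) (d : ℕ) : ∀ k j, k + 1 ≤ j → j < k + d → k + d ≤ M →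
    desc s k d * s j = s (j - 1) * desc s k d := by
  induction d with
  | zero => intro k j _ _ _; omega
  | succ d ih =>
    intro k j hj hjd hk
    rw [desc]
    by_cases h : j = k + 1
    · subst h
      obtain ⟨e, rfl⟩ : ∃ e, d = e + 1 := ⟨d - 1, by omega⟩
      rw [desc]
      calc desc s (k + 1 + 1) e * s (k + 1) * s k * s (k + 1)
          = desc s (k + 1 + 1) e * (s (k + 1) * s k * s (k + 1)) := by group
        _ = desc s (k + 1 + 1) e * (s k * s (k + 1) * s k) := by rw [hs.braid k (by omega)]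
        _ = (desc s (k + 1 + 1) e * s k) * s (k + 1) * s k := by group
        _ = s k * desc s (k + 1 + 1) e * s (k + 1) * s k := by
            rw [desc_comm hs e (k + 1 + 1) k (by omega) (by omega)]
        _ = s (k + 1 - 1) * (desc s (k + 1 + 1) e * s (k + 1) * s k) := by
            rw [Nat.add_sub_cancel]; group
    · rw [mul_assoc, hs.comm k j (by omega) (by omega), ← mul_assoc,
        ih (k + 1) j (by omega) (by omega) (by omega), mul_assoc]

lemma mem_coset (hs : ArtinSeq s M) (h2 : ∀ i < M, s i * s i = 1) (m : ℕ) (hm : m + 1 ≤ M) (g : G)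
    (hg : g ∈ Subgroup.closure (s '' Set.Iio (m + 1))) :
    ∃ h ∈ Subgroup.closure (s '' Set.Iio m), ∃ k d, k + d = m + 1 ∧ g = h * desc s k d := by
  have hinv : ∀ i < M, (s i)⁻¹ = s i := fun i hi => by
    rw [inv_eq_iff_mul_eq_one]; exact h2 i hi
  have key : ∀ x : G, (∃ h ∈ Subgroup.closure (s '' Set.Iio m), ∃ k d, k + d = m + 1 ∧
      x = h * desc s k d) → ∀ j, j < m + 1 →
      (∃ h ∈ Subgroup.closure (s '' Set.Iio m), ∃ k d, k + d = m + 1 ∧ x * s j = h * desc s k d) := by
    rintro x ⟨h, hh, k, d, hkd, rfl⟩ j hj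
    rcases lt_trichotomy j k with hjk | hjk | hjk
    · by_cases hjk' : j + 1 = k
      · subst hjk'
        exact ⟨h, hh, j, d + 1, by omega, by rw [desc, mul_assoc]⟩
      · refine ⟨h * s j, mul_mem hh (Subgroup.subset_closure ⟨j, ?_, rfl⟩), k, d, hkd, ?_⟩
        · rw [Set.mem_Iio]; omega
        · rw [mul_assoc, desc_comm hs d k j (by omega) (by omega), ← mul_assoc]
    · subst hjk
      obtain ⟨e, rfl⟩ : ∃ e, d = e + 1 := ⟨d - 1, by omega⟩
      refine ⟨h, hh, j + 1, e, by omega, ?_⟩
      rw [desc, mul_assoc, mul_assoc, h2 j (by omega), mul_one]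
    · refine ⟨h * s (j - 1), mul_mem hh (Subgroup.subset_closure ⟨j - 1, ?_, rfl⟩), k, d, hkd, ?_⟩
      · rw [Set.mem_Iio]; omega
      · rw [mul_assoc, desc_slide hs d k j (by omega) (by omega) (by omega), ← mul_assoc]
  induction hg using Subgroup.closure_induction_right with
  | one => exact ⟨1, one_mem _, m + 1, 0, rfl, by simp [desc]⟩
  | mul_right x y hx hy ih =>
    obtain ⟨j, hj, rfl⟩ := hy
    exact key x ih j hj
  | mul_inv_cancel x y hx hy ih =>
    obtain ⟨j, hj, rfl⟩ := hy
    have hj' : j < m + 1 := hj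
    rw [hinv j (by omega)]
    exact key x ih j hj

end

lemma eq_one_of_perm_eq_one {G : Type*} [Group G] {s : ℕ → G} {n : ℕ} (hs : ArtinSeq s (n - 1))
    (h2 : ∀ i < n - 1, s i * s i = 1) (φ : G →* Equiv.Perm (Fin n))
    (hφ : ∀ i (hi : i < n - 1), φ (s i) = Equiv.swap ⟨i, by omega⟩ ⟨i + 1, by omega⟩)
    (m : ℕ) (hm : m ≤ n - 1) : ∀ g ∈ Subgroup.closure (s '' Set.Iio m), φ g = 1 → g = 1 := by
  induction m with
  | zero =>
    intro g hg _
    simpa using hg
  | succ m ih =>
    intro g hg hg1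
    obtain ⟨h, hh, k, d, hkd, rfl⟩ := mem_coset hs h2 m hm g hg
    have hfix : ∀ x ∈ Subgroup.closure (s '' Set.Iio m), ∀ a : Fin n, m + 1 ≤ (a : ℕ) →
        φ x a = a := by
      intro x hx a ha
      induction hx using Subgroup.closure_induction with
      | mem y hy =>
        obtain ⟨i, hi, rfl⟩ := hy
        have hi' : i < m := hi
        rw [hφ i (by omega)]
        apply Equiv.swap_apply_of_ne_of_ne
        · intro h0
          have := congrArg Fin.val h0
          simp only at this
          omega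
        · intro h0
          have := congrArg Fin.val h0
          simp only at this
          omega
      | one => simp
      | mul x y _ _ hx hy => rw [map_mul, Equiv.Perm.mul_apply, hy, hx]
      | inv x _ hx =>
        rw [map_inv, Equiv.Perm.inv_eq_iff_eq]
        exact hx.symm
    have hdesc : ∀ d k (hkd : k + d ≤ n - 1) (hn : 0 < n), φ (desc s k d) ⟨k, by omega⟩
        = ⟨k + d, by omega⟩ := by
      intro d
      induction d with
      | zero => intro k hk hn; simp [desc]
      | succ d ihd =>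
        intro k hk hn
        rw [desc, map_mul, Equiv.Perm.mul_apply, hφ k (by omega), Equiv.swap_apply_left,
          ihd (k + 1) (by omega) hn]
        apply Fin.ext
        simp only
        omega
    have hn : 0 < n := by omega
    have h3 : φ (h * desc s k d) ⟨k, by omega⟩ = ⟨m + 1, by omega⟩ := by
      rw [map_mul, Equiv.Perm.mul_apply, hdesc d k (by omega) hn]
      have e : (⟨k + d, by omega⟩ : Fin n) = ⟨m + 1, by omega⟩ := Fin.ext hkd
      rw [e]
      exact hfix h hh _ le_rfl
    rw [hg1, Equiv.Perm.one_apply] at h3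
    have h4 : k = m + 1 := congrArg Fin.val h3
    have h5 : d = 0 := by omega
    subst h5
    rw [desc, mul_one] at hg1 ⊢
    exact ih (by omega) h hh hg1

/-- The natural sequence of generators of the braid group, extended by `1`. -/
def gen (n : ℕ) (i : ℕ) : BraidGroup n :=
  if h : i < n - 1 then PresentedGroup.of ⟨i, h⟩ else 1

lemma gen_of_lt {n i : ℕ} (h : i < n - 1) : gen n i = PresentedGroup.of ⟨i, h⟩ := by
  rw [gen, dif_pos h]

lemma artinSeq_gen (n : ℕ) : ArtinSeq (gen n) (n - 1) := by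
  constructor
  · intro i j hij hj
    rw [gen_of_lt (by omega : i < n - 1), gen_of_lt hj]
    have hi : i < n - 1 := by omega
    have h : PresentedGroup.mk (braidRels n) (FreeGroup.of ⟨i, hi⟩ * FreeGroup.of ⟨j, hj⟩ *
        (FreeGroup.of ⟨i, hi⟩)⁻¹ * (FreeGroup.of ⟨j, hj⟩)⁻¹) = 1 :=
      PresentedGroup.one_of_mem (Or.inl ⟨⟨i, hi⟩, ⟨j, hj⟩, hij, rfl⟩)
    simp only [map_mul, map_inv] at h
    have h' := mul_inv_eq_one.1 h
    have h'' := mul_inv_eq_iff_eq_mul.1 h'
    exact h''
  · intro i hi
    rw [gen_of_lt (by omega : i < n - 1), gen_of_lt hi]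
    have hi' : i < n - 1 := by omega
    have h : PresentedGroup.mk (braidRels n) (FreeGroup.of ⟨i, hi'⟩ * FreeGroup.of ⟨i + 1, hi⟩ *
        FreeGroup.of ⟨i, hi'⟩ * (FreeGroup.of ⟨i + 1, hi⟩)⁻¹ * (FreeGroup.of ⟨i, hi'⟩)⁻¹ *
        (FreeGroup.of ⟨i + 1, hi⟩)⁻¹) = 1 :=
      PresentedGroup.one_of_mem (Or.inr ⟨⟨i, hi'⟩, ⟨i + 1, hi⟩, rfl, rfl⟩)
    simp only [map_mul, map_inv] at h
    have h' := mul_inv_eq_one.1 h
    have h'' := mul_inv_eq_iff_eq_mul.1 h'
    have h''' := mul_inv_eq_iff_eq_mul.1 h''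
    exact h'''

lemma closure_gen (n : ℕ) : Subgroup.closure (gen n '' Set.Iio (n - 1)) = ⊤ := by
  rw [← PresentedGroup.closure_range_of (braidRels n)]
  congr 1
  ext x
  constructor
  · rintro ⟨i, hi, rfl⟩
    exact ⟨⟨i, hi⟩, (gen_of_lt hi).symm⟩
  · rintro ⟨i, rfl⟩
    exact ⟨i, i.2, gen_of_lt i.2⟩

lemma permHom_gen {n i : ℕ} (h : i < n - 1) :
    permHom n (gen n i) = Equiv.swap ⟨i, by omega⟩ ⟨i + 1, by omega⟩ := by
  rw [gen_of_lt h, permHom, PresentedGroup.toGroup.of]
  rfl

instance pureBraid_normal (n : ℕ) : (pureBraid n).Normal :=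
  inferInstanceAs (permHom n).ker.Normal

/-- The pure braid group is the normal closure of the squares of the generators. -/
theorem pureBraid_eq (n : ℕ) :
    pureBraid n = Subgroup.normalClosure {x | ∃ i, i < n - 1 ∧ x = gen n i * gen n i} := by
  apply le_antisymm
  · intro x hx
    set N := Subgroup.normalClosure {x | ∃ i, i < n - 1 ∧ x = gen n i * gen n i} with hN
    have hle : N ≤ (permHom n).ker := by
      apply Subgroup.normalClosure_le_normal
      rintro _ ⟨i, hi, rfl⟩
      show permHom n (gen n i * gen n i) = 1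
      rw [map_mul, permHom_gen hi, Equiv.swap_mul_self]
    let φ : BraidGroup n ⧸ N →* Equiv.Perm (Fin n) := QuotientGroup.lift N (permHom n) hle
    let s : ℕ → BraidGroup n ⧸ N := fun i => QuotientGroup.mk' N (gen n i)
    have hs : ArtinSeq s (n - 1) := by
      constructor
      · intro i j hij hj
        show QuotientGroup.mk' N _ * QuotientGroup.mk' N _ = QuotientGroup.mk' N _ * QuotientGroup.mk' N _
        rw [← map_mul, (artinSeq_gen n).comm i j hij hj, map_mul]
      · intro i hi
        show QuotientGroup.mk' N _ * QuotientGroup.mk' N _ * QuotientGroup.mk' N _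
          = QuotientGroup.mk' N _ * QuotientGroup.mk' N _ * QuotientGroup.mk' N _
        rw [← map_mul, ← map_mul, (artinSeq_gen n).braid i hi, map_mul, map_mul]
    have h2 : ∀ i < n - 1, s i * s i = 1 := by
      intro i hi
      show QuotientGroup.mk' N _ * QuotientGroup.mk' N _ = 1
      rw [← map_mul]
      exact (QuotientGroup.eq_one_iff _).2 (Subgroup.subset_normalClosure ⟨i, hi, rfl⟩)
    have hφ : ∀ i (hi : i < n - 1), φ (s i) = Equiv.swap ⟨i, by omega⟩ ⟨i + 1, by omega⟩ := by
      intro i hi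
      exact permHom_gen hi
    have hmem : QuotientGroup.mk' N x ∈ Subgroup.closure (s '' Set.Iio (n - 1)) := by
      have h3 : s '' Set.Iio (n - 1) = QuotientGroup.mk' N '' (gen n '' Set.Iio (n - 1)) := by
        rw [Set.image_image]
      rw [h3, ← MonoidHom.map_closure, closure_gen]
      exact ⟨x, Subgroup.mem_top x, rfl⟩
    have h4 := eq_one_of_perm_eq_one hs h2 φ hφ (n - 1) le_rfl _ hmem hx
    exact (QuotientGroup.eq_one_iff _).1 h4
  · apply Subgroup.normalClosure_le_normal
    rintro _ ⟨i, hi, rfl⟩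
    show permHom n (gen n i * gen n i) = 1
    rw [map_mul, permHom_gen hi, Equiv.swap_mul_self]

end Pool.Agent.H69.AMU
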