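import Mathlib
import Pool.Agent.H69.AMU.Coxeter

set_option autoImplicit false

namespace Pool.Agent.H69.AMU

/-- Ascending products `s m * s (m+1) * ... * s (m+l-1)`. -/
def run {G : Type*} [Group G] (s : ℕ → G) (m : ℕ) : ℕ → G
  | 0 => 1
  | (l + 1) => run s m l * s (m + l)

/-- The block crossing: the block of `k` strands starting at position `m` crosses the next `l`
strands. -/
def blk {G : Type*} [Group G] (s : ℕ → G) (m : ℕ) : ℕ → ℕ → G
  | 0, _ => 1
  | (k + 1), l => run s (m + k) l * blk s m k l

section
variable {G : Type*} [Group G] {s : ℕ → G} {M : ℕ}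

lemma run_add (m a b : ℕ) : run s m (a + b) = run s m a * run s (m + a) b := by
  induction b with
  | zero => simp [run]
  | succ b ih =>
    rw [← Nat.add_assoc, run, ih, run, mul_assoc, Nat.add_assoc]

/-- Elements commuting with all generators in a range commute with runs. -/
lemma comm_run {x : G} (m l : ℕ) (h : ∀ j, m ≤ j → j < m + l → x * s j = s j * x) :
    x * run s m l = run s m l * x := by
  induction l with
  | zero => simp [run]
  | succ l ih =>
    rw [run, ← mul_assoc, ih (fun j h1 h2 => h j h1 (by omega)), mul_assoc,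
      h (m + l) (by omega) (by omega), mul_assoc]

lemma conj_run {x : G} (m l t : ℕ) (h : ∀ j, m ≤ j → j < m + l → x * s j = s (j + t) * x) :
    x * run s m l = run s (m + t) l * x := by
  induction l with
  | zero => simp [run]
  | succ l ih =>
    rw [run, ← mul_assoc, ih (fun j h1 h2 => h j h1 (by omega)), mul_assoc,
      h (m + l) (by omega) (by omega), run, mul_assoc, show m + l + t = m + t + l by omega]

lemma comm_blk {x : G} (m k l : ℕ) (h : ∀ j, m ≤ j → j + 1 < m + k + l → x * s j = s j * x) :
    x * blk s m k l = blk s m k l * x := by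
  induction k with
  | zero => simp [blk]
  | succ k ih =>
    rw [blk, ← mul_assoc, comm_run (m + k) l (fun j h1 h2 => h j (by omega) (by omega)), mul_assoc,
      ih (fun j h1 h2 => h j h1 (by omega)), mul_assoc]

lemma conj_blk {x : G} (m k l t : ℕ) (h : ∀ j, m ≤ j → j + 1 < m + k + l → x * s j = s (j + t) * x) :
    x * blk s m k l = blk s (m + t) k l * x := by
  induction k with
  | zero => simp [blk]
  | succ k ih =>
    rw [blk, ← mul_assoc, conj_run (m + k) l t (fun j h1 h2 => h j (by omega) (by omega)), mul_assoc,
      ih (fun j h1 h2 => h j h1 (by omega)), blk, mul_assoc, show m + k + t = m + t + k by omega]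

lemma blk_one (m k : ℕ) : blk s m k 1 = desc s m k := by
  have hd : ∀ k m, desc s m (k + 1) = s (m + k) * desc s m k := by
    intro k
    induction k with
    | zero => intro m; simp [desc]
    | succ k ih =>
      intro m
      rw [desc, ih (m + 1), desc, mul_assoc, show m + 1 + k = m + (k + 1) by omega]
  induction k with
  | zero => simp [blk, desc]
  | succ k ih => rw [blk, ih, hd]; simp [run]

lemma run_comm_gen (hs : ArtinSeq s M) (m l j : ℕ) (h : j + 2 ≤ m ∨ m + l + 1 ≤ j) (hj : j < M)
    (hm : m + l ≤ M) : s j * run s m l = run s m l * s j := by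
  apply comm_run
  intro i hi hi'
  rcases h with h | h
  · exact hs.comm j i (by omega) (by omega)
  · exact (hs.comm i j (by omega) hj).symm

lemma run_slide (hs : ArtinSeq s M) (m l : ℕ) (hM : m + l ≤ M) :
    ∀ j, m ≤ j → j + 1 < m + l → run s m l * s j = s (j + 1) * run s m l := by
  induction l with
  | zero => intro j _ _; omega
  | succ l ih =>
    intro j hj hj'
    by_cases h : j + 1 < m + l
    · rw [run, mul_assoc, ← hs.comm j (m + l) (by omega) (by omega), ← mul_assoc,
        ih (by omega) j hj h, mul_assoc]
    · obtain ⟨e, rfl⟩ : ∃ e, l = e + 1 := ⟨l - 1, by omega⟩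
      have h0 : j = m + e := by omega
      subst h0
      rw [run, run]
      calc run s m e * s (m + e) * s (m + (e + 1)) * s (m + e)
          = run s m e * (s (m + e) * s (m + e + 1) * s (m + e)) := by
            rw [show m + (e + 1) = m + e + 1 by omega]; group
        _ = run s m e * (s (m + e + 1) * s (m + e) * s (m + e + 1)) := by
            rw [hs.braid (m + e) (by omega)]
        _ = (run s m e * s (m + e + 1)) * s (m + e) * s (m + e + 1) := by group
        _ = (s (m + e + 1) * run s m e) * s (m + e) * s (m + e + 1) := by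
            rw [run_comm_gen hs m e (m + e + 1) (Or.inr le_rfl) (by omega) (by omega)]
        _ = s (m + e + 1) * (run s m e * s (m + e) * s (m + (e + 1))) := by
            rw [show m + (e + 1) = m + e + 1 by omega]; group

lemma blk_comm_gen (hs : ArtinSeq s M) (m k l j : ℕ) (h : j + 2 ≤ m ∨ m + k + l ≤ j)
    (hj : j < M) (hm : m + k + l ≤ M + 1) : s j * blk s m k l = blk s m k l * s j := by
  apply comm_blk
  intro i hi hi'
  rcases h with h | h
  · exact hs.comm j i (by omega) (by omega)
  · exact (hs.comm i j (by omega) hj).symm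

lemma blk_slide (hs : ArtinSeq s M) (m k l : ℕ) (hM : m + k + l ≤ M + 1) :
    ∀ j, m ≤ j → j + 1 < m + l → blk s m k l * s j = s (j + k) * blk s m k l := by
  induction k with
  | zero => intro j _ _; simp [blk]
  | succ k ih =>
    intro j hj hj'
    rw [blk, mul_assoc, ih (by omega) j hj hj', ← mul_assoc,
      run_slide hs (m + k) l (by omega) (j + k) (by omega) (by omega), mul_assoc, Nat.add_assoc j k 1]

lemma blk_add (hs : ArtinSeq s M) (m k a b : ℕ) (hM : m + k + a + b ≤ M + 1) :
    blk s m k (a + b) = blk s m k a * blk s (m + a) k b := by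
  induction k with
  | zero => simp [blk]
  | succ k ih =>
    have hc : run s (m + k + a) b * blk s m k a = blk s m k a * run s (m + k + a) b := by
      apply comm_blk
      intro j hj hj'
      exact (run_comm_gen hs (m + k + a) b j (Or.inl (by omega)) (by omega) (by omega)).symm
    rw [blk, ih (by omega), run_add, blk, blk]
    calc run s (m + k) a * run s (m + k + a) b * (blk s m k a * blk s (m + a) k b)
        = run s (m + k) a * (run s (m + k + a) b * blk s m k a) * blk s (m + a) k b := by group
      _ = run s (m + k) a * (blk s m k a * run s (m + k + a) b) * blk s (m + a) k b := by rw [hc]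
      _ = run s (m + k) a * blk s m k a * (run s (m + a + k) b * blk s (m + a) k b) := by
          rw [show m + k + a = m + a + k by omega]; group

lemma blk_slide' (hs : ArtinSeq s M) (m k l : ℕ) (hM : m + k + l ≤ M + 1) :
    ∀ j, m ≤ j → j + 1 < m + k → blk s m k l * s (j + l) = s j * blk s m k l := by
  have h0 : ∀ k, blk s m k 0 = 1 := by
    intro k
    induction k with
    | zero => rfl
    | succ k ih => rw [blk, ih]; simp [run]
  induction l with
  | zero => intro j _ _; simp [h0]
  | succ l ih =>
    intro j hj hj'
    rw [blk_add hs m k l 1 (by omega), blk_one, mul_assoc,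
      desc_slide hs k (m + l) (j + (l + 1)) (by omega) (by omega) (by omega),
      show j + (l + 1) - 1 = j + l by omega, ← mul_assoc, ih (by omega) j hj hj', mul_assoc]

lemma blk_braid (hs : ArtinSeq s M) (m k : ℕ) (hM : m + 3 * k ≤ M + 1) :
    blk s m k k * blk s (m + k) k k * blk s m k k
      = blk s (m + k) k k * blk s m k k * blk s (m + k) k k := by
  have h1 : blk s m k (k + k) = blk s m k k * blk s (m + k) k k := blk_add hs m k k k (by omega)
  rw [← h1, conj_blk m k k k (fun j hj hj' => blk_slide hs m k (k + k) (by omega) j hj (by omega)),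
    h1, mul_assoc]

lemma blk_comm_blk (hs : ArtinSeq s M) (m k l m' k' l' : ℕ) (h : m + k + l ≤ m')
    (hM : m' + k' + l' ≤ M + 1) : blk s m k l * blk s m' k' l' = blk s m' k' l' * blk s m k l := by
  apply comm_blk
  intro j hj hj'
  exact (blk_comm_gen hs m k l j (Or.inr (by omega)) (by omega) (by omega)).symm

/-- When the generators are involutions, the inverse of a block crossing. -/
lemma blk_inv (hs : ArtinSeq s M) (h2 : ∀ i < M, s i * s i = 1) (m k l : ℕ)
    (hM : m + k + l ≤ M + 1) : (blk s m k l)⁻¹ = blk s m l k := by
  have hinv : ∀ i < M, (s i)⁻¹ = s i := fun i hi => by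
    rw [inv_eq_iff_mul_eq_one]; exact h2 i hi
  have hrun : ∀ l m, m + l ≤ M → (run s m l)⁻¹ = desc s m l := by
    intro l
    induction l with
    | zero => intro m _; simp [run, desc]
    | succ l ih =>
      intro m hm
      rw [show l + 1 = 1 + l by omega, run_add, mul_inv_rev, ih (m + 1) (by omega),
        show 1 + l = l + 1 by omega, desc]
      simp [run, hinv m (by omega)]
  have h0 : ∀ k, blk s m k 0 = 1 := by
    intro k
    induction k with
    | zero => rfl
    | succ k ih => rw [blk, ih]; simp [run]
  induction k with
  | zero => simp [blk, h0]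
  | succ k ih =>
    by_cases hl : l = 0
    · subst hl
      rw [h0 (k + 1), inv_one]
      rfl
    · rw [blk, mul_inv_rev, ih (by omega), hrun l (m + k) (by omega),
        blk_add hs m l k 1 (by omega), blk_one]

end

/-- Relations for block crossings. -/
lemma artinSeq_blk {G : Type*} [Group G] {s : ℕ → G} (n k : ℕ) (hk : 0 < k)
    (hs : ArtinSeq s (n * k - 1)) : ArtinSeq (fun i => blk s (i * k) k k) (n - 1) := by
  constructor
  · intro i j hij hj
    have h1 : (i + 2) * k ≤ j * k := Nat.mul_le_mul_right k hij
    have h2 : (j + 2) * k ≤ n * k := Nat.mul_le_mul_right k (by omega)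
    have h3 : (i + 2) * k = i * k + k + k := by ring
    have h4 : (j + 2) * k = j * k + k + k := by ring
    exact blk_comm_blk hs _ _ _ _ _ _ (by omega) (by omega)
  · intro i hi
    have h2 : (i + 3) * k ≤ n * k := Nat.mul_le_mul_right k (by omega)
    have h3 : (i + 3) * k = i * k + 3 * k := by ring
    have h4 : (i + 1) * k = i * k + k := by ring
    show blk s (i * k) k k * blk s ((i + 1) * k) k k * blk s (i * k) k k
      = blk s ((i + 1) * k) k k * blk s (i * k) k k * blk s ((i + 1) * k) k k
    rw [h4]
    exact blk_braid hs _ _ (by omega)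

/-- A homomorphism out of the braid group from a sequence satisfying Artin's relations. -/
def braidLift {G : Type*} [Group G] {s : ℕ → G} {n : ℕ} (hs : ArtinSeq s (n - 1)) :
    BraidGroup n →* G :=
  PresentedGroup.toGroup (f := fun i : Fin (n - 1) => s i) (by
    rintro w (⟨i, j, hij, rfl⟩ | ⟨i, j, hij, rfl⟩)
    · simp only [map_mul, map_inv, FreeGroup.lift_apply_of]
      rw [hs.comm i j hij j.2]
      group
    · simp only [map_mul, map_inv, FreeGroup.lift_apply_of]
      have h := hs.braid i (by rw [hij]; exact j.2)
      rw [← hij, h]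
      group)

lemma braidLift_gen {G : Type*} [Group G] {s : ℕ → G} {n : ℕ} (hs : ArtinSeq s (n - 1)) {i : ℕ}
    (hi : i < n - 1) : braidLift hs (gen n i) = s i := by
  rw [gen_of_lt hi, braidLift, PresentedGroup.toGroup.of]

/-- The `k`-cabling homomorphism of braid groups: every strand is replaced by `k` parallel
strands. -/
def cable (n k : ℕ) (hk : 0 < k) : BraidGroup n →* BraidGroup (n * k) :=
  braidLift (artinSeq_blk n k hk (artinSeq_gen (n * k)))

lemma cable_gen {n k i : ℕ} (hk : 0 < k) (hi : i < n - 1) :
    cable n k hk (gen n i) = blk (gen (n * k)) (i * k) k k :=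
  braidLift_gen _ hi

lemma map_run {G H : Type*} [Group G] [Group H] (f : G →* H) (s : ℕ → G) (m l : ℕ) :
    f (run s m l) = run (fun i => f (s i)) m l := by
  induction l with
  | zero => simp [run]
  | succ l ih => rw [run, map_mul, ih, run]

lemma map_blk {G H : Type*} [Group G] [Group H] (f : G →* H) (s : ℕ → G) (m k l : ℕ) :
    f (blk s m k l) = blk (fun i => f (s i)) m k l := by
  induction k with
  | zero => simp [blk]
  | succ k ih => rw [blk, map_mul, ih, blk, map_run]

lemma ArtinSeq.map {G H : Type*} [Group G] [Group H] (f : G →* H) {s : ℕ → G} {M : ℕ}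
    (hs : ArtinSeq s M) : ArtinSeq (fun i => f (s i)) M := by
  constructor
  · intro i j hij hj
    show f (s i) * f (s j) = f (s j) * f (s i)
    rw [← map_mul, hs.comm i j hij hj, map_mul]
  · intro i hi
    show f (s i) * f (s (i + 1)) * f (s i) = f (s (i + 1)) * f (s i) * f (s (i + 1))
    rw [← map_mul, ← map_mul, hs.braid i hi, map_mul, map_mul]

/-- Cabling sends pure braids to pure braids. -/
lemma cable_pure (n k : ℕ) (hk : 0 < k) : pureBraid n ≤ (pureBraid (n * k)).comap (cable n k hk) := by
  rw [pureBraid_eq n]
  apply Subgroup.normalClosure_le_normal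
  rintro _ ⟨i, hi, rfl⟩
  show permHom (n * k) (cable n k hk (gen n i * gen n i)) = 1
  have h1 : (i + 2) * k ≤ n * k := Nat.mul_le_mul_right k (by omega)
  have h2 : (i + 2) * k = i * k + k + k := by ring
  rw [map_mul, cable_gen hk hi, map_mul, map_blk]
  have hs := (artinSeq_gen (n * k)).map (permHom (n * k))
  have h3 : ∀ j < n * k - 1, permHom (n * k) (gen (n * k) j) * permHom (n * k) (gen (n * k) j) = 1 := by
    intro j hj
    rw [permHom_gen hj, Equiv.swap_mul_self]
  have h4 := blk_inv hs h3 (i * k) k k (by omega)
  nth_rewrite 1 [← h4]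
  exact inv_mul_cancel _

end Pool.Agent.H69.AMU
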