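import Mathlib
import Pool.Agent.H69.AMU.Cable

set_option autoImplicit false

namespace Pool.Agent.H69.AMU

/-- A sequence of elements satisfying the Temperley-Lieb relations with loop value
`unknot A 1 = -A^2 - A^(-2)` for indices below `M`. -/
structure TLSeq {R : Type*} [Ring R] [Algebra ℂ R] (u : ℕ → R) (M : ℕ) (A : ℂ) : Prop where
  sq : ∀ i < M, u i * u i = unknot A 1 • u i
  up : ∀ i, i + 1 < M → u i * u (i + 1) * u i = u i
  down : ∀ i, i + 1 < M → u (i + 1) * u i * u (i + 1) = u (i + 1)
  comm : ∀ i j, i + 2 ≤ j → j < M → u i * u j = u j * u i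

/-- The Jones-Wenzl idempotent on `k` strands starting at position `m`, by Wenzl's recursion. -/
noncomputable def jonesWenzl {R : Type*} [Ring R] [Algebra ℂ R] (u : ℕ → R) (A : ℂ) (m : ℕ) : ℕ → R
  | 0 => 1
  | 1 => 1
  | (j + 2) => jonesWenzl u A m (j + 1) - (unknot A j / unknot A (j + 1)) •
      (jonesWenzl u A m (j + 1) * u (m + j) * jonesWenzl u A m (j + 1))

section
variable {R : Type*} [Ring R] [Algebra ℂ R] {u : ℕ → R} {M : ℕ} {A : ℂ}

lemma jonesWenzl_succ (m j : ℕ) : jonesWenzl u A m (j + 2) = jonesWenzl u A m (j + 1) -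
    (unknot A j / unknot A (j + 1)) •
      (jonesWenzl u A m (j + 1) * u (m + j) * jonesWenzl u A m (j + 1)) := rfl

lemma jonesWenzl_conj {x : R} (m t k : ℕ) (h : ∀ i, m ≤ i → i + 1 < m + k → x * u i = u (i + t) * x) :
    x * jonesWenzl u A m k = jonesWenzl u A (m + t) k * x := by
  induction k using Nat.strong_induction_on with
  | _ k ih =>
    rcases k with _ | _ | k
    · simp [jonesWenzl]
    · simp [jonesWenzl]
    · have h1 := ih (k + 1) (by omega) (fun i hi hi' => h i hi (by omega))
      have h2 := h (m + k) (by omega) (by omega)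
      have h3 : x * (jonesWenzl u A m (k + 1) * u (m + k) * jonesWenzl u A m (k + 1))
          = jonesWenzl u A (m + t) (k + 1) * u (m + t + k) * jonesWenzl u A (m + t) (k + 1) * x := by
        rw [show m + k + t = m + t + k by omega] at h2
        rw [← mul_assoc, ← mul_assoc, h1, mul_assoc _ x, h2, mul_assoc _ _ (jonesWenzl u A m (k + 1)),
          mul_assoc _ x, h1]
        simp only [mul_assoc]
      rw [jonesWenzl_succ, jonesWenzl_succ, mul_sub, sub_mul, h1, mul_smul_comm, smul_mul_assoc, h3]

/-- Reverse sliding. -/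
lemma jonesWenzl_conj' {x : R} (m t k : ℕ) (h : ∀ i, m ≤ i → i + 1 < m + k → x * u (i + t) = u i * x) :
    x * jonesWenzl u A (m + t) k = jonesWenzl u A m k * x := by
  induction k using Nat.strong_induction_on with
  | _ k ih =>
    rcases k with _ | _ | k
    · simp [jonesWenzl]
    · simp [jonesWenzl]
    · have h1 := ih (k + 1) (by omega) (fun i hi hi' => h i hi (by omega))
      have h2 := h (m + k) (by omega) (by omega)
      have h3 : x * (jonesWenzl u A (m + t) (k + 1) * u (m + t + k) * jonesWenzl u A (m + t) (k + 1))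
          = jonesWenzl u A m (k + 1) * u (m + k) * jonesWenzl u A m (k + 1) * x := by
        rw [show m + k + t = m + t + k by omega] at h2
        rw [← mul_assoc, ← mul_assoc, h1, mul_assoc _ x, h2,
          mul_assoc _ _ (jonesWenzl u A (m + t) (k + 1)), mul_assoc _ x, h1]
        simp only [mul_assoc]
      rw [jonesWenzl_succ, jonesWenzl_succ, mul_sub, sub_mul, h1, mul_smul_comm, smul_mul_assoc, h3]

lemma jonesWenzl_comm {x : R} (m k : ℕ) (h : ∀ i, m ≤ i → i + 1 < m + k → x * u i = u i * x) :
    x * jonesWenzl u A m k = jonesWenzl u A m k * x :=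
  jonesWenzl_conj (u := u) (A := A) (x := x) m 0 k h

/-- The defining properties of the Jones-Wenzl idempotents. -/
lemma jonesWenzl_spec (hu : TLSeq u M A) (m j : ℕ) (hM : m + j ≤ M)
    (hΔ : ∀ i ≤ j, unknot A i ≠ 0) :
    jonesWenzl u A m (j + 1) * jonesWenzl u A m (j + 1) = jonesWenzl u A m (j + 1) ∧
    jonesWenzl u A m j * jonesWenzl u A m j = jonesWenzl u A m j ∧
    jonesWenzl u A m (j + 1) * jonesWenzl u A m j = jonesWenzl u A m (j + 1) ∧
    jonesWenzl u A m j * jonesWenzl u A m (j + 1) = jonesWenzl u A m (j + 1) ∧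
    ∀ i, m ≤ i → i < m + j → u i * jonesWenzl u A m (j + 1) = 0 ∧
      jonesWenzl u A m (j + 1) * u i = 0 := by
  induction j with
  | zero =>
    refine ⟨by simp [jonesWenzl], by simp [jonesWenzl], by simp [jonesWenzl],
      by simp [jonesWenzl], ?_⟩
    intro i _ _
    omega
  | succ j ih =>
    obtain ⟨hf, hgg, hfg, hgf, hann⟩ := ih (by omega) (fun i hi => hΔ i (by omega))
    set f := jonesWenzl u A m (j + 1) with hfdef
    set g := jonesWenzl u A m j with hgdef
    set v := u (m + j) with hv
    have hΔj : unknot A j ≠ 0 := hΔ j (by omega)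
    have hΔj1 : unknot A (j + 1) ≠ 0 := hΔ (j + 1) le_rfl
    set κ : ℂ := unknot A j / unknot A (j + 1) with hκ
    have hκ0 : κ ≠ 0 := div_ne_zero hΔj hΔj1
    -- commutation of v with g
    have hgv : v * g = g * v := by
      apply jonesWenzl_comm
      intro i hi hi'
      exact (hu.comm i (m + j) (by omega) (by omega)).symm
    -- the turn-back
    have hvfv : v * f * v = κ⁻¹ • (g * v) := by
      rcases j with _ | j
      · have e1 : f = 1 := by rw [hfdef]; simp [jonesWenzl]
        have e2 : g = 1 := by rw [hgdef]; simp [jonesWenzl]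
        rw [e1, e2, mul_one, one_mul, hu.sq (m + 0) (by omega), hκ]
        simp [unknot]
        rfl
      · have e1 : f = g - (unknot A j / unknot A (j + 1)) • (g * u (m + j) * g) := by
          rw [hfdef, hgdef, jonesWenzl_succ]
        have e2 : v * u (m + j) * v = v := hu.down (m + j) (by omega)
        have e3 : v * v = unknot A 1 • v := hu.sq (m + (j + 1)) (by omega)
        have e4 : v * g * v = unknot A 1 • (g * v) := by
          rw [hgv, mul_assoc, e3, mul_smul_comm]
        have e5 : v * (g * u (m + j) * g) * v = g * v := by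
          calc v * (g * u (m + j) * g) * v = (v * g) * u (m + j) * (g * v) := by
                simp only [mul_assoc]
            _ = (g * v) * u (m + j) * (v * g) := by rw [hgv]
            _ = g * (v * u (m + j) * v) * g := by simp only [mul_assoc]
            _ = g * (v * g) := by rw [e2, mul_assoc]
            _ = g * v := by rw [hgv, ← mul_assoc, hgg]
        rw [e1, mul_sub, sub_mul, mul_smul_comm, smul_mul_assoc, e4, e5, ← sub_smul]
        congr 1
        have h0 : unknot A (j + 1) ≠ 0 := hΔ (j + 1) (by omega)
        rw [hκ, inv_div]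
        have h1 : unknot A (j + 1 + 1) = (-A ^ 2 - (A ^ 2)⁻¹) * unknot A (j + 1) - unknot A j := rfl
        have h2 : unknot A 1 = -A ^ 2 - (A ^ 2)⁻¹ := rfl
        rw [h1, ← h2]
        field_simp
    have hh : jonesWenzl u A m (j + 1 + 1) = f - κ • (f * v * f) := rfl
    have hvf : v * f * v * f = κ⁻¹ • (v * f) := by
      rw [hvfv, smul_mul_assoc, ← hgv, mul_assoc, hgf]
    have hfv : f * v * f * v = κ⁻¹ • (f * v) := by
      rw [mul_assoc, mul_assoc, ← mul_assoc v, hvfv, mul_smul_comm, ← mul_assoc, hfg]
    have hffvf : f * (f * v * f) = f * v * f := by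
      rw [← mul_assoc, ← mul_assoc, hf]
    have hfvff : (f * v * f) * f = f * v * f := by
      rw [mul_assoc, hf]
    have hfvfvf : (f * v * f) * (f * v * f) = κ⁻¹ • (f * v * f) := by
      calc (f * v * f) * (f * v * f) = f * v * (f * f) * v * f := by simp only [mul_assoc]
        _ = (f * v * f * v) * f := by rw [hf]
        _ = κ⁻¹ • (f * v * f) := by rw [hfv, smul_mul_assoc]
    rw [hh]
    refine ⟨?_, hf, ?_, ?_, ?_⟩
    · rw [sub_mul, mul_sub, mul_sub, hf, mul_smul_comm, smul_mul_assoc, smul_mul_assoc,
        mul_smul_comm, hffvf, hfvff, hfvfvf, smul_smul, smul_smul, mul_assoc κ κ κ⁻¹,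
        mul_inv_cancel₀ hκ0, mul_one, sub_self, sub_zero]
    · rw [sub_mul, hf, smul_mul_assoc, hfvff]
    · rw [mul_sub, hf, mul_smul_comm, hffvf]
    · intro i hi hi'
      by_cases h : i < m + j
      · obtain ⟨h1, h2⟩ := hann i hi h
        constructor
        · rw [mul_sub, h1, mul_smul_comm, ← mul_assoc, ← mul_assoc, h1]
          simp
        · rw [sub_mul, h2, smul_mul_assoc, mul_assoc, h2]
          simp
      · have hi0 : i = m + j := by omega
        subst hi0
        constructor
        · rw [mul_sub, mul_smul_comm, ← mul_assoc, ← mul_assoc, ← hv, hvf, smul_smul,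
            mul_inv_cancel₀ hκ0, one_smul, sub_self]
        · rw [sub_mul, smul_mul_assoc, ← hv, hfv, smul_smul,
            mul_inv_cancel₀ hκ0, one_smul, sub_self]

lemma jonesWenzl_idem (hu : TLSeq u M A) (m k : ℕ) (hM : m + k ≤ M + 1)
    (hΔ : ∀ i < k, unknot A i ≠ 0) : jonesWenzl u A m k * jonesWenzl u A m k = jonesWenzl u A m k := by
  rcases k with _ | k
  · simp [jonesWenzl]
  · exact (jonesWenzl_spec hu m k (by omega) (fun i hi => hΔ i (by omega))).1

/-- The product of the Jones-Wenzl idempotents of the first `i` blocks of `k` strands. -/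
noncomputable def colourProj {R : Type*} [Ring R] [Algebra ℂ R] (u : ℕ → R) (A : ℂ) (k : ℕ) : ℕ → R
  | 0 => 1
  | (i + 1) => colourProj u A k i * jonesWenzl u A (i * k) k

lemma colourProj_comm {x : R} (k i : ℕ) (h : ∀ j, j + 1 < i * k → x * u j = u j * x) :
    x * colourProj u A k i = colourProj u A k i * x := by
  induction i with
  | zero => simp [colourProj]
  | succ i ih =>
    have h0 : (i + 1) * k = i * k + k := by ring
    rw [colourProj, ← mul_assoc, ih (fun j hj => h j (by omega)), mul_assoc,
      jonesWenzl_comm (i * k) k (fun j _ hj => h j (by omega)), mul_assoc]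

lemma jonesWenzl_comm_jonesWenzl (hu : TLSeq u M A) (m k m' k' : ℕ) (h : m + k ≤ m')
    (hM : m' + k' ≤ M + 1) : jonesWenzl u A m k * jonesWenzl u A m' k'
      = jonesWenzl u A m' k' * jonesWenzl u A m k := by
  apply jonesWenzl_comm
  intro i hi hi'
  apply Eq.symm
  apply jonesWenzl_comm
  intro j hj hj'
  exact (hu.comm j i (by omega) (by omega)).symm

lemma colourProj_comm_jonesWenzl (hu : TLSeq u M A) (k i : ℕ) (m' k' : ℕ) (h : i * k ≤ m')
    (hM : m' + k' ≤ M + 1) : colourProj u A k i * jonesWenzl u A m' k'
      = jonesWenzl u A m' k' * colourProj u A k i := by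
  apply Eq.symm
  apply colourProj_comm
  intro j hj
  apply Eq.symm
  apply jonesWenzl_comm
  intro i' hi hi'
  exact hu.comm j i' (by omega) (by omega)

lemma colourProj_idem (hu : TLSeq u M A) (k i : ℕ) (hM : i * k ≤ M + 1)
    (hΔ : ∀ j < k, unknot A j ≠ 0) : colourProj u A k i * colourProj u A k i = colourProj u A k i := by
  induction i with
  | zero => simp [colourProj]
  | succ i ih =>
    have h0 : (i + 1) * k = i * k + k := by ring
    rw [colourProj]
    calc colourProj u A k i * jonesWenzl u A (i * k) k * (colourProj u A k i * jonesWenzl u A (i * k) k)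
        = colourProj u A k i * (jonesWenzl u A (i * k) k * colourProj u A k i) *
          jonesWenzl u A (i * k) k := by simp only [mul_assoc]
      _ = colourProj u A k i * (colourProj u A k i * jonesWenzl u A (i * k) k) *
          jonesWenzl u A (i * k) k := by
        rw [colourProj_comm_jonesWenzl hu k i (i * k) k le_rfl (by omega)]
      _ = (colourProj u A k i * colourProj u A k i) *
          (jonesWenzl u A (i * k) k * jonesWenzl u A (i * k) k) := by simp only [mul_assoc]
      _ = colourProj u A k i * jonesWenzl u A (i * k) k := by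
        rw [ih (by omega), jonesWenzl_idem hu (i * k) k (by omega) hΔ]

/-- An element which exchanges the blocks `b` and `b + 1` of `k` strands and commutes with all
other generators commutes with the colour projector. -/
lemma colourProj_swap (hu : TLSeq u M A) (k b : ℕ) {x : R}
    (h1 : ∀ j, b * k ≤ j → j + 1 < b * k + k → x * u j = u (j + k) * x)
    (h2 : ∀ j, b * k ≤ j → j + 1 < b * k + k → x * u (j + k) = u j * x)
    (h3 : ∀ j, j + 1 < b * k → x * u j = u j * x)
    (i : ℕ) (hM : i * k ≤ M + 1)
    (h4 : ∀ j, (b + 2) * k ≤ j → j + 1 < i * k → x * u j = u j * x)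
    (hi : b + 2 ≤ i) :
    x * colourProj u A k i = colourProj u A k i * x := by
  obtain ⟨d, rfl⟩ : ∃ d, i = b + 2 + d := ⟨i - (b + 2), by omega⟩
  clear hi
  induction d with
  | zero =>
    have e1 : (b + 1) * k = b * k + k := by ring
    have e2 : (b + 2 + 0) * k = b * k + k + k := by ring
    have c1 : x * colourProj u A k b = colourProj u A k b * x := colourProj_comm k b h3
    have c2 : x * jonesWenzl u A (b * k) k = jonesWenzl u A (b * k + k) k * x :=
      jonesWenzl_conj (b * k) k k h1
    have c3 : x * jonesWenzl u A (b * k + k) k = jonesWenzl u A (b * k) k * x :=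
      jonesWenzl_conj' (b * k) k k h2
    have c4 := jonesWenzl_comm_jonesWenzl hu (b * k) k (b * k + k) k le_rfl (by omega)
    show x * (colourProj u A k b * jonesWenzl u A (b * k) k * jonesWenzl u A ((b + 1) * k) k)
      = (colourProj u A k b * jonesWenzl u A (b * k) k * jonesWenzl u A ((b + 1) * k) k) * x
    rw [e1]
    calc x * (colourProj u A k b * jonesWenzl u A (b * k) k * jonesWenzl u A (b * k + k) k)
        = (x * colourProj u A k b) * jonesWenzl u A (b * k) k * jonesWenzl u A (b * k + k) k := by
          simp only [mul_assoc]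
      _ = colourProj u A k b * (x * jonesWenzl u A (b * k) k) * jonesWenzl u A (b * k + k) k := by
          rw [c1]; simp only [mul_assoc]
      _ = colourProj u A k b * jonesWenzl u A (b * k + k) k * (x * jonesWenzl u A (b * k + k) k) := by
          rw [c2]; simp only [mul_assoc]
      _ = colourProj u A k b * (jonesWenzl u A (b * k + k) k * jonesWenzl u A (b * k) k) * x := by
          rw [c3]; simp only [mul_assoc]
      _ = (colourProj u A k b * jonesWenzl u A (b * k) k * jonesWenzl u A (b * k + k) k) * x := by
          rw [← c4]; simp only [mul_assoc]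
  | succ d ih =>
    have e1 : (b + 2 + (d + 1)) * k = (b + 2 + d) * k + k := by ring
    have e2 : (b + 2) * k ≤ (b + 2 + d) * k := Nat.mul_le_mul_right k (by omega)
    have c1 := ih (by omega) (fun j hj hj' => h4 j hj (by omega))
    have c2 : x * jonesWenzl u A ((b + 2 + d) * k) k = jonesWenzl u A ((b + 2 + d) * k) k * x :=
      jonesWenzl_comm _ _ (fun j hj hj' => h4 j (by omega) (by omega))
    show x * (colourProj u A k (b + 2 + d) * jonesWenzl u A ((b + 2 + d) * k) k)
      = (colourProj u A k (b + 2 + d) * jonesWenzl u A ((b + 2 + d) * k) k) * x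
    rw [← mul_assoc, c1, mul_assoc, c2, mul_assoc]

end

end Pool.Agent.H69.AMU
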