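import Mathlib
import Pool.Agent.H69.AMU.JW

set_option autoImplicit false

namespace Pool.Agent.H69.AMU

open FusionPath Matrix

lemma tlSeq_cupcap {n c L : ℕ} {A : ℂ} (hA : Admissible n L A) :
    TLSeq (cupcap n c L A) (n - 1) A where
  sq i hi := cupcap_sq hA (by omega)
  up i hi := cupcap_braid hA (by omega)
  down i hi := cupcap_braid' hA (by omega)
  comm i j hij hj := cupcap_comm (by omega) (by omega) hij

/-- The idempotent matrix projecting the space `V(S^2; 1, ..., 1, c)` with `n * k` points coloured
`1` onto the space `V(S^2; k, ..., k, c)` with `n` points coloured `k`: the product of the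
Jones-Wenzl idempotents of the `n` blocks of `k` strands. -/
noncomputable def colourIdem (n k c L : ℕ) (A : ℂ) :
    Matrix (FusionPath (n * k) c L) (FusionPath (n * k) c L) ℂ :=
  colourProj (cupcap (n * k) c L A) A k n

section
variable {n k c L : ℕ} {A : ℂ}

lemma braidRep_gen {N : ℕ} (hA : Admissible N L A) {i : ℕ} (hi : i < N - 1) :
    (braidRep N c L A hA (gen N i) : Matrix (FusionPath N c L) (FusionPath N c L) ℂ)
      = A • (1 : Matrix (FusionPath N c L) (FusionPath N c L) ℂ) + A⁻¹ • cupcap N c L A i := by
  rw [gen_of_lt hi, braidRep_of]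
  rfl

lemma cupcap_eq {N : ℕ} (hA : Admissible N L A) {i : ℕ} (hi : i < N - 1) :
    cupcap N c L A i = A • ((braidRep N c L A hA (gen N i) :
      Matrix (FusionPath N c L) (FusionPath N c L) ℂ) - A • 1) := by
  rw [braidRep_gen hA hi, add_sub_cancel_left, smul_smul, mul_inv_cancel₀ hA.1, one_smul]

lemma slide_cupcap {N : ℕ} (hA : Admissible N L A) {i j : ℕ} (hi : i < N - 1) (hj : j < N - 1)
    (x : GL (FusionPath N c L) ℂ)
    (h : x * braidRep N c L A hA (gen N i) = braidRep N c L A hA (gen N j) * x) :
    (x : Matrix _ _ ℂ) * cupcap N c L A i = cupcap N c L A j * (x : Matrix _ _ ℂ) := by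
  have h' : (x : Matrix (FusionPath N c L) (FusionPath N c L) ℂ) *
      (braidRep N c L A hA (gen N i) : Matrix _ _ ℂ)
      = (braidRep N c L A hA (gen N j) : Matrix _ _ ℂ) * (x : Matrix _ _ ℂ) := by
    have := congrArg Units.val h
    simpa using this
  rw [cupcap_eq hA hi, cupcap_eq hA hj, mul_smul_comm, smul_mul_assoc, mul_sub, sub_mul, h',
    mul_smul_comm, smul_mul_assoc, mul_one, one_mul]

lemma colourIdem_idem (hA : Admissible (n * k) L A) (hkL : k ≤ L + 1) :
    colourIdem n k c L A * colourIdem n k c L A = colourIdem n k c L A := by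
  apply colourProj_idem (tlSeq_cupcap hA) k n
  · omega
  · intro j hj
    exact hA.2.1 j (by omega)

/-- Cabled braids commute with the colour idempotent. -/
lemma braidRep_cable_comm (hk : 0 < k) (hA : Admissible (n * k) L A) (β : BraidGroup n) :
    (braidRep (n * k) c L A hA (cable n k hk β) : Matrix _ _ ℂ) * colourIdem n k c L A
      = colourIdem n k c L A * (braidRep (n * k) c L A hA (cable n k hk β) : Matrix _ _ ℂ) := by
  have hgen : ∀ b, b < n - 1 →
      (braidRep (n * k) c L A hA (cable n k hk (gen n b)) : Matrix _ _ ℂ) * colourIdem n k c L A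
      = colourIdem n k c L A *
        (braidRep (n * k) c L A hA (cable n k hk (gen n b)) : Matrix _ _ ℂ) := by
    intro b hb
    have h1 : (b + 2) * k ≤ n * k := Nat.mul_le_mul_right k (by omega)
    have h2 : (b + 2) * k = b * k + k + k := by ring
    have hs := (artinSeq_gen (n * k)).map (braidRep (n * k) c L A hA)
    rw [cable_gen hk hb, map_blk]
    apply colourProj_swap (tlSeq_cupcap hA) k b
    · intro j hj hj'
      apply slide_cupcap hA (by omega) (by omega)
      exact blk_slide hs (b * k) k k (by omega) j hj hj'
    · intro j hj hj'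
      apply slide_cupcap hA (by omega) (by omega)
      exact blk_slide' hs (b * k) k k (by omega) j hj hj'
    · intro j hj
      apply slide_cupcap hA (by omega) (by omega)
      exact (blk_comm_gen hs (b * k) k k j (Or.inl (by omega)) (by omega) (by omega)).symm
    · omega
    · intro j hj hj'
      apply slide_cupcap hA (by omega) (by omega)
      exact (blk_comm_gen hs (b * k) k k j (Or.inr (by omega)) (by omega) (by omega)).symm
    · omega
  have hmem : β ∈ Subgroup.closure (gen n '' Set.Iio (n - 1)) := by
    rw [closure_gen]; exact Subgroup.mem_top β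
  induction hmem using Subgroup.closure_induction with
  | mem x hx =>
    obtain ⟨b, hb, rfl⟩ := hx
    exact hgen b hb
  | one => simp
  | mul x y _ _ hx hy =>
    rw [map_mul, map_mul, Units.val_mul, Matrix.mul_assoc, hy, ← Matrix.mul_assoc, hx,
      Matrix.mul_assoc]
  | inv x _ hx =>
    rw [map_inv, map_inv]
    set g := braidRep (n * k) c L A hA (cable n k hk x)
    have h1 : (g⁻¹ : GL (FusionPath (n * k) c L) ℂ).val * g.val = 1 := by
      rw [← Units.val_mul, inv_mul_cancel, Units.val_one]
    have h2 : g.val * (g⁻¹ : GL (FusionPath (n * k) c L) ℂ).val = 1 := by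
      rw [← Units.val_mul, mul_inv_cancel, Units.val_one]
    calc (g⁻¹ : GL (FusionPath (n * k) c L) ℂ).val * colourIdem n k c L A
        = (g⁻¹ : GL (FusionPath (n * k) c L) ℂ).val * (colourIdem n k c L A * g.val) *
          (g⁻¹ : GL (FusionPath (n * k) c L) ℂ).val := by
          rw [Matrix.mul_assoc, Matrix.mul_assoc, h2, Matrix.mul_one]
      _ = ((g⁻¹ : GL (FusionPath (n * k) c L) ℂ).val * g.val) * colourIdem n k c L A *
          (g⁻¹ : GL (FusionPath (n * k) c L) ℂ).val := by
          rw [← hx]; simp only [Matrix.mul_assoc]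
      _ = colourIdem n k c L A * (g⁻¹ : GL (FusionPath (n * k) c L) ℂ).val := by
          rw [h1, Matrix.one_mul]

end

/-- Algebra: if `a, b` commute with the idempotent `p`. -/
lemma compress_mul {R : Type*} [Ring R] {a b p : R} (hp : p * p = p) (hb : b * p = p * b) :
    (a * p + (1 - p)) * (b * p + (1 - p)) = a * b * p + (1 - p) := by
  have h1 : p * (b * p) = b * p := by rw [← mul_assoc, ← hb, mul_assoc, hp]
  have h2 : (1 - p) * (b * p) = 0 := by rw [sub_mul, one_mul, h1, sub_self]
  have h3 : a * p * (1 - p) = 0 := by rw [mul_sub, mul_one, mul_assoc, hp, sub_self]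
  have h4 : (1 - p) * (1 - p) = 1 - p := by
    rw [mul_sub, mul_one, sub_mul, one_mul, hp, sub_self, sub_zero]
  have h5 : a * p * (b * p) = a * b * p := by rw [mul_assoc, h1, mul_assoc]
  rw [add_mul, mul_add, mul_add, h5, h3, h2, h4, add_zero, zero_add]

/-- The action of the braid group on the space `V(S^2; k, ..., k, c)`, extended by the identity on
the kernel of the colour idempotent. -/
noncomputable def colRep (n k c L : ℕ) (hk : 0 < k) (A : ℂ) (hA : Admissible (n * k) L A)
    (hkL : k ≤ L + 1) : BraidGroup n →* GL (FusionPath (n * k) c L) ℂ where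
  toFun β :=
    { val := (braidRep (n * k) c L A hA (cable n k hk β)).val * colourIdem n k c L A
        + (1 - colourIdem n k c L A)
      inv := (braidRep (n * k) c L A hA (cable n k hk β⁻¹)).val * colourIdem n k c L A
        + (1 - colourIdem n k c L A)
      val_inv := by
        rw [compress_mul (colourIdem_idem hA hkL) (braidRep_cable_comm hk hA β⁻¹),
          ← Units.val_mul, ← map_mul, ← map_mul, mul_inv_cancel]
        simp
      inv_val := by
        rw [compress_mul (colourIdem_idem hA hkL) (braidRep_cable_comm hk hA β),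
          ← Units.val_mul, ← map_mul, ← map_mul, inv_mul_cancel]
        simp }
  map_one' := by
    apply Units.ext
    simp
  map_mul' β γ := by
    apply Units.ext
    show (braidRep (n * k) c L A hA (cable n k hk (β * γ))).val * colourIdem n k c L A
        + (1 - colourIdem n k c L A)
      = ((braidRep (n * k) c L A hA (cable n k hk β)).val * colourIdem n k c L A
        + (1 - colourIdem n k c L A)) *
        ((braidRep (n * k) c L A hA (cable n k hk γ)).val * colourIdem n k c L A
        + (1 - colourIdem n k c L A))
    rw [compress_mul (colourIdem_idem hA hkL) (braidRep_cable_comm hk hA γ),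
      ← Units.val_mul, ← map_mul, ← map_mul]

lemma colRep_val {n k c L : ℕ} (hk : 0 < k) {A : ℂ} (hA : Admissible (n * k) L A)
    (hkL : k ≤ L + 1) (β : BraidGroup n) : (colRep n k c L hk A hA hkL β).val
      = (braidRep (n * k) c L A hA (cable n k hk β)).val * colourIdem n k c L A
        + (1 - colourIdem n k c L A) := rfl

end Pool.Agent.H69.AMU
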