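import Mathlib

set_option autoImplicit false

namespace Pool.Agent.H69.AMU

open Polynomial

/-- Coefficients of a complex polynomial are bounded by its maximum on the unit circle. -/
lemma norm_coeff_le_of_circle (p : ℂ[X]) (B : ℝ) (h : ∀ z : ℂ, ‖z‖ = 1 → ‖p.eval z‖ ≤ B)
    (k : ℕ) : ‖p.coeff k‖ ≤ B := by
  have hB : 0 ≤ B := (norm_nonneg _).trans (h 1 (by simp))
  by_cases hk : p.coeff k = 0
  · rw [hk, norm_zero]; exact hB
  have h1 := sum_sq_norm_coeff_eq_circleAverage p
  have h2 : ‖p.coeff k‖ ^ 2 ≤ ∑ i ∈ p.support, ‖p.coeff i‖ ^ 2 :=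
    Finset.single_le_sum (f := fun i => ‖p.coeff i‖ ^ 2) (fun i _ => by positivity)
      (mem_support_iff.2 hk)
  have h3 : Real.circleAverage (fun θ => ‖p.eval θ‖ ^ 2) 0 1 ≤ B ^ 2 := by
    apply Real.circleAverage_mono_on_of_le_circle
    · apply ContinuousOn.circleIntegrable (by norm_num)
      exact ((p.continuous.norm).pow 2).continuousOn
    · intro z hz
      have hz' : ‖z‖ = 1 := by simpa using hz
      have := h z hz'
      gcongr
  have h4 : ‖p.coeff k‖ ^ 2 ≤ B ^ 2 := by
    rw [h1] at h2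
    exact h2.trans h3
  exact (sq_le_sq₀ (norm_nonneg _) hB).1 h4

/-- Large numbers have a large exact prime power divisor. -/
lemma exists_large_prime_power (B N : ℕ) (hN : B ^ (B + 1) < N) :
    ∃ p : ℕ, p.Prime ∧ B < p ^ (N.factorization p) := by
  have hN0 : N ≠ 0 := by omega
  by_contra hcon
  push Not at hcon
  have h1 : N = ∏ p ∈ N.primeFactors, p ^ (N.factorization p) :=
    (Nat.prod_factorization_pow_eq_self hN0).symm
  have hB : B ≠ 0 := by
    rintro rfl
    have := hcon 2 Nat.prime_two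
    have h2 : 0 < 2 ^ (N.factorization 2) := by positivity
    omega
  have h2 : N.primeFactors ⊆ Finset.range (B + 1) := by
    intro p hp
    rw [Finset.mem_range]
    have hpp := Nat.prime_of_mem_primeFactors hp
    have hle := hcon p hpp
    have h3 : 1 ≤ N.factorization p :=
      (hpp.dvd_iff_one_le_factorization hN0).1 (Nat.dvd_of_mem_primeFactors hp)
    have h4 : p ≤ p ^ (N.factorization p) := by
      calc p = p ^ 1 := (pow_one p).symm
        _ ≤ p ^ (N.factorization p) := Nat.pow_le_pow_right hpp.pos h3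
    omega
  have h3 : ∏ p ∈ N.primeFactors, p ^ (N.factorization p) ≤ B ^ (N.primeFactors.card) := by
    apply Finset.prod_le_pow_card
    intro p hp
    exact hcon p (Nat.prime_of_mem_primeFactors hp)
  have h4 : N.primeFactors.card ≤ B + 1 := by
    calc N.primeFactors.card ≤ (Finset.range (B + 1)).card := Finset.card_le_card h2
      _ = B + 1 := Finset.card_range _
  have h5 : B ^ (N.primeFactors.card) ≤ B ^ (B + 1) := Nat.pow_le_pow_right (by omega) h4
  rw [← h1] at h3
  omega

/-- Integers coprime to `N` near a prescribed real number. -/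
lemma exists_coprime_near (N p : ℕ) (hp : p.Prime) (hN : N ≠ 0) (hv : 1 < p ^ (N.factorization p))
    (x : ℝ) :
    ∃ a : ℤ, IsCoprime a (N : ℤ) ∧ |(a : ℝ) - N * x| * (p ^ (N.factorization p) : ℕ) ≤ N := by
  set q : ℕ := p ^ (N.factorization p) with hq
  set s : ℕ := N / q with hs
  have hqs : q * s = N := Nat.ordProj_mul_ordCompl_eq_self N p
  have hqpos : 0 < q := by omega
  have hspos : 0 < s := by
    rcases Nat.eq_zero_or_pos s with h | h
    · rw [h, mul_zero] at hqs; exact absurd hqs.symm hN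
    · exact h
  have hps : ¬ p ∣ s := Nat.not_dvd_ordCompl hp hN
  have hcop : IsCoprime (q : ℤ) (s : ℤ) := by
    rw [Nat.isCoprime_iff_coprime]
    exact Nat.Coprime.pow_left _ ((hp.coprime_iff_not_dvd).2 hps)
  set y : ℝ := (N * x - q) / s with hy
  have hsR : (0 : ℝ) < s := by exact_mod_cast hspos
  -- choose b
  obtain ⟨b, hb, hbp⟩ : ∃ b : ℤ, |(b : ℝ) - y| ≤ 1 ∧ ¬ (p : ℤ) ∣ b := by
    by_cases h : (p : ℤ) ∣ ⌊y⌋
    · refine ⟨⌊y⌋ + 1, ?_, ?_⟩
      · have h1 := Int.floor_le y
        have h2 := Int.lt_floor_add_one y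
        push_cast
        rw [abs_le]; constructor <;> linarith
      · intro h'
        have h3 : (p : ℤ) ∣ 1 := by
          have := dvd_sub h' h
          simpa using this
        have h4 : p ∣ 1 := by exact_mod_cast h3
        exact hp.one_lt.ne' (Nat.dvd_one.1 h4)
    · refine ⟨⌊y⌋, ?_, h⟩
      have h1 := Int.floor_le y
      have h2 := Int.lt_floor_add_one y
      rw [abs_le]; constructor <;> linarith
  refine ⟨s * b + q, ?_, ?_⟩
  · rw [← hqs]
    push_cast
    apply IsCoprime.mul_right
    · rw [hq]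
      push_cast
      apply IsCoprime.pow_right
      have hpi : Prime (p : ℤ) := Nat.prime_iff_prime_int.1 hp
      rw [isCoprime_comm, Prime.coprime_iff_not_dvd hpi]
      intro hdvd
      have hv0 : N.factorization p ≠ 0 := by
        intro h0
        rw [hq, h0, pow_zero] at hv
        exact absurd hv (lt_irrefl 1)
      have hpq : (p : ℤ) ∣ (p : ℤ) ^ (N.factorization p) := dvd_pow_self _ hv0
      have h5 : (p : ℤ) ∣ (s : ℤ) * b := (dvd_add_left hpq).1 hdvd
      rcases hpi.dvd_or_dvd h5 with h6 | h6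
      · exact hps (by exact_mod_cast h6)
      · exact hbp h6
    · have h7 : IsCoprime ((s : ℤ) * b + q) (s : ℤ) := by
        rw [add_comm]
        exact (IsCoprime.add_mul_left_left_iff).2 hcop
      exact h7
  · push_cast
    have h8 : ((s : ℝ) * b + q) - N * x = s * (b - y) := by
      rw [hy]; field_simp; ring
    rw [h8, abs_mul, abs_of_pos hsR]
    have h9 : (N : ℝ) = q * s := by exact_mod_cast hqs.symm
    rw [h9]
    have hqR : (0 : ℝ) < q := by exact_mod_cast hqpos
    calc (s : ℝ) * |(b : ℝ) - y| * q ≤ s * 1 * q := by gcongr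
      _ = q * s := by ring

/-- Primitive roots of unity whose orders run through an infinite set are dense in the circle. -/
lemma exists_primitive_near (S : Set ℕ) (hS : S.Infinite) (z : ℂ) (hz : ‖z‖ = 1) (ε : ℝ)
    (hε : 0 < ε) : ∃ N ∈ S, ∃ ζ : ℂ, IsPrimitiveRoot ζ N ∧ ‖ζ - z‖ < ε := by
  obtain ⟨θ, hθ⟩ : ∃ θ : ℝ, z = Complex.exp (θ * Complex.I) := by
    refine ⟨Complex.arg z, ?_⟩
    have := Complex.norm_mul_exp_arg_mul_I z
    rw [hz] at this
    simpa using this.symm
  have hcont : ContinuousAt (fun t : ℝ => Complex.exp (t * Complex.I)) θ := by fun_prop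
  rw [Metric.continuousAt_iff] at hcont
  obtain ⟨δ, hδ, hδ'⟩ := hcont ε hε
  obtain ⟨B, hB⟩ := exists_nat_gt (2 * Real.pi / δ + 1)
  have hB1 : 1 < B := by
    have : (1 : ℝ) < B := by
      have : 0 < 2 * Real.pi / δ := by positivity
      linarith
    exact_mod_cast this
  obtain ⟨N, hNS, hN⟩ := hS.exists_gt (B ^ (B + 1))
  have hN0 : N ≠ 0 := by omega
  obtain ⟨p, hp, hpB⟩ := exists_large_prime_power B N hN
  obtain ⟨a, ha, ha2⟩ := exists_coprime_near N p hp hN0 (by omega) (θ / (2 * Real.pi))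
  have hNR : (0 : ℝ) < N := by exact_mod_cast Nat.pos_of_ne_zero hN0
  refine ⟨N, hNS, Complex.exp (2 * Real.pi * Complex.I / N) ^ a, ?_, ?_⟩
  · have h1 : IsPrimitiveRoot (Complex.exp (2 * Real.pi * Complex.I / N)) N :=
      Complex.isPrimitiveRoot_exp N hN0
    exact h1.zpow_of_gcd_eq_one a (Int.isCoprime_iff_gcd_eq_one.1 ha)
  · have h2 : Complex.exp (2 * Real.pi * Complex.I / N) ^ a
        = Complex.exp (((2 * Real.pi * a / N : ℝ) : ℂ) * Complex.I) := by
      rw [← Complex.exp_int_mul]
      congr 1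
      push_cast
      ring
    rw [h2, hθ, ← dist_eq_norm]
    apply hδ'
    rw [Real.dist_eq]
    set q : ℕ := p ^ (N.factorization p) with hq
    have hqR : (B : ℝ) < q := by exact_mod_cast hpB
    have hqpos : (0 : ℝ) < q := by
      have : (0 : ℝ) ≤ B := by positivity
      linarith
    have h3 : |2 * Real.pi * a / N - θ| = 2 * Real.pi / N * |(a : ℝ) - N * (θ / (2 * Real.pi))| := by
      have hpos : (0 : ℝ) < 2 * Real.pi / N := by positivity
      rw [← abs_of_pos hpos, ← abs_mul]
      congr 1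
      field_simp
    rw [h3]
    have h4 : |(a : ℝ) - N * (θ / (2 * Real.pi))| ≤ N / q := by
      rw [le_div_iff₀ hqpos]
      exact ha2
    calc 2 * Real.pi / N * |(a : ℝ) - N * (θ / (2 * Real.pi))|
        ≤ 2 * Real.pi / N * (N / q) := by gcongr
      _ = 2 * Real.pi / q := by field_simp
      _ < δ := by
        rw [div_lt_iff₀ hqpos]
        have h5 : 2 * Real.pi / δ < q := by linarith
        rw [div_lt_iff₀ hδ] at h5
        linarith

end Pool.Agent.H69.AMU
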