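import Mathlib

set_option autoImplicit false

namespace Pool.Agent.H69.AMU

open Polynomial Matrix

/-- In characteristic `p` the trace of the `p`-th power is the `p`-th power of the trace. -/
lemma trace_pow_char {R : Type*} [CommRing R] [Nontrivial R] (p : ℕ) [hp : Fact p.Prime]
    [CharP R p] {n : Type*} [Fintype n] [DecidableEq n] (M : Matrix n n R) :
    trace (M ^ p) = (trace M) ^ p := by
  cases isEmpty_or_nonempty n
  · simp [Matrix.trace, hp.out.ne_zero]
  have key : expand R p (M ^ p).charpoly = M.charpoly ^ p := by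
    unfold charpoly
    rw [AlgHom.map_det, ← coe_detMonoidHom, ← (detMonoidHom : Matrix n n R[X] →* R[X]).map_pow]
    apply congr_arg det
    refine matPolyEquiv.injective ?_
    rw [map_pow, matPolyEquiv_charmatrix, sub_pow_char_of_commute, ← C_pow]
    · exact (id (matPolyEquiv_eq_X_pow_sub_C p M) :)
    · exact (C M).commute_X
  have h1 : (expand R p (M ^ p).charpoly).coeff ((Fintype.card n - 1) * p)
      = (M ^ p).charpoly.coeff (Fintype.card n - 1) := coeff_expand_mul hp.out.pos _ _
  have h2 : (M.charpoly ^ p).coeff ((Fintype.card n - 1) * p)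
      = (M.charpoly.coeff (Fintype.card n - 1)) ^ p := by
    rw [← map_frobenius_expand p, coeff_map, coeff_expand_mul hp.out.pos, frobenius_def]
  rw [key, h2] at h1
  rw [trace_eq_neg_charpoly_coeff, trace_eq_neg_charpoly_coeff, ← h1]
  rcases hp.out.eq_two_or_odd' with h | h
  · subst h
    have : (-1 : R) = 1 := by
      have h3 := CharP.cast_eq_zero R 2
      have h4 : (1 : R) + 1 = 0 := by
        have : ((2 : ℕ) : R) = 1 + 1 := by norm_num
        rw [← this]; exact h3
      exact neg_eq_of_add_eq_zero_right h4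
    rw [neg_eq_neg_one_mul, this, one_mul]
    rw [neg_eq_neg_one_mul, this, one_mul]
  · rw [h.neg_pow]

/-- Frobenius congruence for integer polynomial matrices. -/
lemma frobenius_trace (p : ℕ) [hp : Fact p.Prime] {n : Type*} [Fintype n] [DecidableEq n]
    (M : Matrix n n ℤ[X]) (k : ℕ) :
    (p : ℤ) ∣ (trace (M ^ p) - expand ℤ p (trace M)).coeff k := by
  rw [← ZMod.intCast_zmod_eq_zero_iff_dvd]
  let φ : ℤ[X] →+* (ZMod p)[X] := mapRingHom (Int.castRingHom (ZMod p))
  have h1 : φ (trace (M ^ p)) = (φ (trace M)) ^ p := by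
    have h2 : φ (trace (M ^ p)) = trace ((φ.mapMatrix M) ^ p) := by
      rw [← map_pow, RingHom.mapMatrix_apply, ← AddMonoidHom.coe_coe, AddMonoidHom.map_trace]
    have h3 : φ (trace M) = trace (φ.mapMatrix M) := by
      rw [RingHom.mapMatrix_apply, ← AddMonoidHom.coe_coe, AddMonoidHom.map_trace]
    rw [h2, h3]
    exact trace_pow_char p _
  have h4 : φ (expand ℤ p (trace M)) = (φ (trace M)) ^ p := by
    rw [← ZMod.expand_card]
    simp [φ, map_expand]
  have h5 : φ (trace (M ^ p) - expand ℤ p (trace M)) = 0 := by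
    rw [map_sub, h1, h4, sub_self]
  have h6 := congrArg (fun q => coeff q k) h5
  simpa [φ] using h6

/-- Frobenius congruence for integer polynomials. -/
lemma frobenius_poly (p : ℕ) [hp : Fact p.Prime] (f : ℤ[X]) (k : ℕ) :
    (p : ℤ) ∣ (f ^ p - expand ℤ p f).coeff k := by
  rw [← ZMod.intCast_zmod_eq_zero_iff_dvd]
  let φ : ℤ[X] →+* (ZMod p)[X] := mapRingHom (Int.castRingHom (ZMod p))
  have h4 : φ (expand ℤ p f) = (φ f) ^ p := by
    rw [← ZMod.expand_card]
    simp [φ, map_expand]
  have h5 : φ (f ^ p - expand ℤ p f) = 0 := by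
    rw [map_sub, map_pow, h4, sub_self]
  have h6 := congrArg (fun q => coeff q k) h5
  simpa only [φ, coe_mapRingHom, coeff_map, coeff_zero, eq_intCast] using h6

end Pool.Agent.H69.AMU
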