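import Mathlib
import Pool.Agent.H69.AMU.Frob
import Pool.Agent.H69.AMU.Density

set_option autoImplicit false

namespace Pool.Agent.H69.AMU

open Polynomial Matrix

variable {ι : Type} [Fintype ι] [DecidableEq ι]

/-- Roots of the characteristic polynomial of a matrix with a unimodular scalar power. -/
lemma norm_root_eq_one (V : Matrix ι ι ℂ) (k : ℕ) (hk : k ≠ 0) (c : ℂ) (hc : ‖c‖ = 1)
    (hV : V ^ k = c • (1 : Matrix ι ι ℂ)) (μ : ℂ) (hμ : μ ∈ V.charpoly.roots) : ‖μ‖ = 1 := by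
  have h0 : V.charpoly ≠ 0 := V.charpoly_monic.ne_zero
  have h1 : IsRoot V.charpoly μ := (mem_roots h0).1 hμ
  have h2 : μ ∈ spectrum ℂ V := mem_spectrum_of_isRoot_charpoly h1
  have h3 : μ ^ k ∈ spectrum ℂ (V ^ k) := spectrum.pow_mem_pow V k h2
  have hne : Nontrivial (Matrix ι ι ℂ) := by
    by_contra hnt
    rw [not_nontrivial_iff_subsingleton] at hnt
    rw [spectrum.of_subsingleton] at h2
    exact h2
  rw [hV, ← Algebra.algebraMap_eq_smul_one, spectrum.scalar_eq, Set.mem_singleton_iff] at h3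
  have h4 : ‖μ‖ ^ k = 1 := by rw [← norm_pow, h3, hc]
  exact (pow_eq_one_iff_of_nonneg (norm_nonneg _) hk).1 h4

/-- Trace bound. -/
lemma norm_trace_le_of_pow_scalar (W : Matrix ι ι ℂ) (k : ℕ) (hk : k ≠ 0) (c : ℂ) (hc : ‖c‖ = 1)
    (hW : W ^ k = c • (1 : Matrix ι ι ℂ)) (j : ℕ) : ‖trace (W ^ j)‖ ≤ Fintype.card ι := by
  have hV : (W ^ j) ^ k = (c ^ j) • (1 : Matrix ι ι ℂ) := by
    rw [← pow_mul, mul_comm, pow_mul, hW, _root_.smul_pow, one_pow]
  have hc' : ‖c ^ j‖ = 1 := by rw [norm_pow, hc, one_pow]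
  rw [trace_eq_sum_roots_charpoly]
  have h1 : ‖(W ^ j).charpoly.roots.sum‖ ≤ ((W ^ j).charpoly.roots.map (fun x => ‖x‖)).sum :=
    norm_multiset_sum_le _
  have h2 : (W ^ j).charpoly.roots.map (fun x => ‖x‖) = (W ^ j).charpoly.roots.map (fun _ => (1:ℝ)) :=
    Multiset.map_congr rfl (fun x hx => norm_root_eq_one (W ^ j) k hk _ hc' hV x hx)
  rw [h2] at h1
  have h3 : ((W ^ j).charpoly.roots.map (fun _ => (1:ℝ))).sum = Multiset.card (W ^ j).charpoly.roots := by
    simp
  rw [h3] at h1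
  have h4 : Multiset.card (W ^ j).charpoly.roots ≤ Fintype.card ι := by
    calc Multiset.card (W ^ j).charpoly.roots ≤ (W ^ j).charpoly.natDegree := card_roots' _
      _ = Fintype.card ι := charpoly_natDegree_eq_dim _
  exact h1.trans (by exact_mod_cast h4)

/-- Integer polynomials vanish simultaneously at all primitive roots of unity of a given order. -/
lemma aeval_eq_zero_of_primitive (N : ℕ) (hN : 0 < N) (ζ ζ' : ℂ) (h : IsPrimitiveRoot ζ N)
    (h' : IsPrimitiveRoot ζ' N) (f : ℤ[X]) (hf : aeval ζ f = 0) : aeval ζ' f = 0 := by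
  have h1 : cyclotomic N ℤ = minpoly ℤ ζ := cyclotomic_eq_minpoly h hN
  have h2 : cyclotomic N ℤ = minpoly ℤ ζ' := cyclotomic_eq_minpoly h' hN
  have h3 : minpoly ℤ ζ ∣ f := minpoly.isIntegrallyClosed_dvd (h.isIntegral hN) hf
  rw [← h1, h2] at h3
  obtain ⟨g, rfl⟩ := h3
  rw [map_mul, minpoly.aeval, zero_mul]

/-- Peeling off unimodular roots. -/
lemma exists_quotient_of_circle_bound (B : ℝ) : ∀ (n : ℕ) (E T : ℂ[X]), E.natDegree = n → E ≠ 0 →
    (∀ z : ℂ, E.eval z = 0 → ‖z‖ = 1) →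
    (∀ z : ℂ, ‖z‖ = 1 → ‖T.eval z‖ ≤ B * ‖E.eval z‖) →
    ∃ Q : ℂ[X], T = E * Q ∧ ∀ z : ℂ, ‖z‖ = 1 → ‖Q.eval z‖ ≤ B := by
  intro n
  induction n with
  | zero =>
    intro E T hn hE _ hb
    obtain ⟨c, hc⟩ : ∃ c, E = C c := ⟨E.coeff 0, eq_C_of_natDegree_eq_zero hn⟩
    have hc0 : c ≠ 0 := by
      rintro rfl
      exact hE (by rw [hc, C_0])
    refine ⟨C c⁻¹ * T, ?_, ?_⟩
    · rw [hc, ← mul_assoc, ← C_mul, mul_inv_cancel₀ hc0, C_1, one_mul]
    · intro z hz
      have := hb z hz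
      rw [hc, eval_C] at this
      rw [eval_mul, eval_C, norm_mul, norm_inv]
      have hcn : 0 < ‖c‖ := norm_pos_iff.2 hc0
      rw [inv_mul_le_iff₀ hcn]
      linarith
  | succ n ih =>
    intro E T hn hE hroots hb
    obtain ⟨a, ha⟩ : ∃ a, E.IsRoot a := by
      apply IsAlgClosed.exists_root
      rw [degree_eq_natDegree hE, hn]
      exact_mod_cast Nat.succ_ne_zero n
    have ha1 : ‖a‖ = 1 := hroots a ha
    have hTa : T.IsRoot a := by
      have := hb a ha1
      rw [ha.eq_zero, norm_zero, mul_zero] at this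
      exact norm_le_zero_iff.1 this
    obtain ⟨E', hE'⟩ := dvd_iff_isRoot.2 ha
    obtain ⟨T', hT'⟩ := dvd_iff_isRoot.2 hTa
    have hE'0 : E' ≠ 0 := by
      rintro rfl
      exact hE (by rw [hE', mul_zero])
    have hdeg : E'.natDegree = n := by
      have := congrArg natDegree hE'
      rw [natDegree_mul (X_sub_C_ne_zero a) hE'0, natDegree_X_sub_C, hn] at this
      omega
    have hb0 : ∀ z : ℂ, ‖z‖ = 1 → z ≠ a → ‖T'.eval z‖ ≤ B * ‖E'.eval z‖ := by
      intro z hz hza
      have h1 := hb z hz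
      rw [hE', hT', eval_mul, eval_mul, norm_mul, norm_mul] at h1
      have h2 : 0 < ‖eval z (X - C a)‖ := by
        rw [norm_pos_iff, eval_sub, eval_X, eval_C]
        exact sub_ne_zero.2 hza
      have h3 : ‖eval z (X - C a)‖ * ‖eval z T'‖ ≤ ‖eval z (X - C a)‖ * (B * ‖eval z E'‖) := by
        linarith
      exact le_of_mul_le_mul_left h3 h2
    have hb1 : ∀ z : ℂ, ‖z‖ = 1 → ‖T'.eval z‖ ≤ B * ‖E'.eval z‖ := by
      intro z hz
      by_cases hza : z = a
      · subst hza
        let γ : ℝ → ℂ := fun t => z * Complex.exp (t * Complex.I)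
        have hγ : Filter.Tendsto γ (nhdsWithin 0 {0}ᶜ) (nhds z) := by
          have h1 : Continuous γ := by fun_prop
          have h2 : γ 0 = z := by simp [γ]
          have h3 := h1.tendsto 0
          rw [h2] at h3
          exact h3.mono_left nhdsWithin_le_nhds
        have hev : ∀ᶠ t in nhdsWithin (0 : ℝ) {0}ᶜ, ‖T'.eval (γ t)‖ ≤ B * ‖E'.eval (γ t)‖ := by
          have h1 : ∀ᶠ t in nhdsWithin (0 : ℝ) {0}ᶜ, |t| < 1 := by
            apply nhdsWithin_le_nhds
            have : Filter.Tendsto (fun t : ℝ => |t|) (nhds 0) (nhds |0|) :=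
              (continuous_abs).tendsto 0
            rw [abs_zero] at this
            exact this.eventually (gt_mem_nhds one_pos)
          filter_upwards [h1, self_mem_nhdsWithin] with t ht ht0
          apply hb0
          · simp only [γ, norm_mul, Complex.norm_exp_ofReal_mul_I, mul_one, hz]
          · intro h
            have hz0 : z ≠ 0 := by
              rintro rfl
              simp at hz
            have h2 : Complex.exp (t * Complex.I) = 1 := by
              have : z * Complex.exp (t * Complex.I) = z * 1 := by rw [mul_one]; exact h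
              exact mul_left_cancel₀ hz0 this
            rw [Complex.exp_eq_one_iff] at h2
            obtain ⟨m, hm⟩ := h2
            have h3 : (t : ℂ) = m * (2 * Real.pi) := by
              have hI : Complex.I ≠ 0 := Complex.I_ne_zero
              have : (t : ℂ) * Complex.I = (m * (2 * Real.pi)) * Complex.I := by
                rw [hm]; ring
              exact mul_right_cancel₀ hI this
            have h4 : t = m * (2 * Real.pi) := by exact_mod_cast h3
            have hm0 : m = 0 := by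
              by_contra hm0
              have h5 : (1 : ℝ) ≤ |(m : ℝ)| := by
                have : (1 : ℤ) ≤ |m| := Int.one_le_abs hm0
                exact_mod_cast this
              rw [h4, abs_mul, abs_of_pos (by positivity : (0:ℝ) < 2 * Real.pi)] at ht
              have hpi := Real.pi_gt_three
              nlinarith
            rw [hm0] at h4
            simp at h4
            exact ht0 h4
        have hl : Filter.Tendsto (fun t => ‖T'.eval (γ t)‖) (nhdsWithin (0:ℝ) {0}ᶜ)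
            (nhds ‖T'.eval z‖) := ((T'.continuous.norm).tendsto z).comp hγ
        have hr : Filter.Tendsto (fun t => B * ‖E'.eval (γ t)‖) (nhdsWithin (0:ℝ) {0}ᶜ)
            (nhds (B * ‖E'.eval z‖)) :=
          (((continuous_const.mul E'.continuous.norm)).tendsto z).comp hγ
        exact le_of_tendsto_of_tendsto hl hr hev
      · exact hb0 z hz hza
    obtain ⟨Q, hQ, hQb⟩ := ih E' T' hdeg hE'0
      (fun z hz => hroots z (by rw [hE', eval_mul, hz, mul_zero])) hb1
    exact ⟨Q, by rw [hT', hE', hQ, mul_assoc], hQb⟩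

/-- Integer version. -/
lemma exists_int_quotient (B : ℝ) (E T : ℤ[X]) (hE : E.Monic)
    (hroots : ∀ z : ℂ, aeval z E = 0 → ‖z‖ = 1)
    (hb : ∀ z : ℂ, ‖z‖ = 1 → ‖aeval z T‖ ≤ B * ‖aeval z E‖) :
    ∃ Q : ℤ[X], T = E * Q ∧ (∀ z : ℂ, ‖z‖ = 1 → ‖aeval z Q‖ ≤ B) ∧
      ∀ k, ((|Q.coeff k| : ℤ) : ℝ) ≤ B := by
  have hev : ∀ (f : ℤ[X]) (z : ℂ), (f.map (algebraMap ℤ ℂ)).eval z = aeval z f := fun f z => by
    rw [eval_map_algebraMap]
  obtain ⟨Q, hQ, hQb⟩ := exists_quotient_of_circle_bound B _ (E.map (algebraMap ℤ ℂ))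
    (T.map (algebraMap ℤ ℂ)) rfl (hE.map _).ne_zero
    (fun z hz => hroots z (by rwa [hev] at hz)) (fun z hz => by rw [hev, hev]; exact hb z hz)
  have hdvd : E ∣ T := by
    rw [← map_dvd_map (algebraMap ℤ ℂ) (algebraMap ℤ ℂ).injective_int hE]
    exact ⟨Q, hQ⟩
  obtain ⟨Q', hQ'⟩ := hdvd
  have hQQ : Q'.map (algebraMap ℤ ℂ) = Q := by
    have h1 : E.map (algebraMap ℤ ℂ) * Q'.map (algebraMap ℤ ℂ) = E.map (algebraMap ℤ ℂ) * Q := by
      rw [← hQ, hQ', Polynomial.map_mul]
    exact mul_left_cancel₀ (hE.map _).ne_zero h1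
  have hb' : ∀ z : ℂ, ‖z‖ = 1 → ‖aeval z Q'‖ ≤ B := by
    intro z hz
    rw [← hev, hQQ]
    exact hQb z hz
  refine ⟨Q', hQ', hb', fun k => ?_⟩
  have h2 := norm_coeff_le_of_circle Q B hQb k
  rw [← hQQ, coeff_map] at h2
  simpa using h2

end Pool.Agent.H69.AMU
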