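import Mathlib
import Pool.Agent.H69.AMU.TraceBound

set_option autoImplicit false

namespace Pool.Agent.H69.AMU

open Polynomial Matrix

/-- A one-parameter family of matrices `M(z) = P(z) / (z^a E(z))` with `P` an integer polynomial
matrix and `E` a monic integer polynomial all of whose roots lie on the unit circle. -/
structure Family (ι : Type) [Fintype ι] [DecidableEq ι] where
  P : Matrix ι ι ℤ[X]
  a : ℕ
  E : ℤ[X]
  monic : E.Monic
  roots : ∀ z : ℂ, aeval z E = 0 → ‖z‖ = 1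

namespace Family

variable {ι : Type} [Fintype ι] [DecidableEq ι] (F : Family ι)

/-- Evaluation of the numerator. -/
noncomputable def num (z : ℂ) : Matrix ι ι ℂ := (aeval z : ℤ[X] →ₐ[ℤ] ℂ).toRingHom.mapMatrix F.P

/-- The denominator. -/
noncomputable def den (z : ℂ) : ℂ := z ^ F.a * aeval z F.E

/-- The matrix at the parameter `z`. -/
noncomputable def M (z : ℂ) : Matrix ι ι ℂ := (F.den z)⁻¹ • F.num z

/-- Some positive power of the matrix at `z` is scalar. -/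
def FiniteAt (z : ℂ) : Prop := ∃ k : ℕ, k ≠ 0 ∧ ∃ c : ℂ, (F.M z) ^ k = c • (1 : Matrix ι ι ℂ)

lemma den_ne_zero {z : ℂ} (hz : z ≠ 0) (hE : aeval z F.E ≠ 0) : F.den z ≠ 0 :=
  mul_ne_zero (pow_ne_zero _ hz) hE

lemma num_eq {z : ℂ} (hz : z ≠ 0) (hE : aeval z F.E ≠ 0) : F.num z = F.den z • F.M z := by
  rw [M, smul_smul, mul_inv_cancel₀ (F.den_ne_zero hz hE), one_smul]

lemma num_pow (z : ℂ) (j : ℕ) :
    (F.num z) ^ j = (aeval z : ℤ[X] →ₐ[ℤ] ℂ).toRingHom.mapMatrix (F.P ^ j) := by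
  rw [num, map_pow]

lemma trace_num_pow (z : ℂ) (j : ℕ) : trace ((F.num z) ^ j) = aeval z (trace (F.P ^ j)) := by
  rw [num_pow, RingHom.mapMatrix_apply, ← AddMonoidHom.coe_coe, ← AddMonoidHom.map_trace]
  rfl

lemma trace_M_pow {z : ℂ} (j : ℕ) :
    (F.den z) ^ j * trace ((F.M z) ^ j) = (F.den z) ^ j * ((F.den z)⁻¹) ^ j *
      aeval z (trace (F.P ^ j)) := by
  rw [M, _root_.smul_pow, trace_smul, trace_num_pow, smul_eq_mul, mul_assoc]

/-- Transport of finite projective order between primitive roots of unity of the same order. -/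
lemma trace_bound_of_finiteAt
    (hdet : ∀ z : ℂ, ‖z‖ = 1 → aeval z F.E ≠ 0 → ‖(F.M z).det‖ = 1)
    (N : ℕ) (hN : 0 < N) (ζ : ℂ) (hζ : IsPrimitiveRoot ζ N) (hE : aeval ζ F.E ≠ 0)
    (hfin : F.FiniteAt ζ) (ζ' : ℂ) (hζ' : IsPrimitiveRoot ζ' N) (j : ℕ) :
    ‖aeval ζ' (trace (F.P ^ j))‖ ≤ Fintype.card ι * ‖aeval ζ' F.E‖ ^ j := by
  cases isEmpty_or_nonempty ι
  · have : trace (F.P ^ j) = 0 := by simp [Matrix.trace]
    rw [this, map_zero, norm_zero]
    positivity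
  obtain ⟨k, hk, c, hc⟩ := hfin
  have hζ0 : ζ ≠ 0 := hζ.ne_zero hN.ne'
  have hζ'0 : ζ' ≠ 0 := hζ'.ne_zero hN.ne'
  have hζ'1 : ‖ζ'‖ = 1 := hζ'.norm'_eq_one hN.ne'
  have hE' : aeval ζ' F.E ≠ 0 := fun h =>
    hE (aeval_eq_zero_of_primitive N hN ζ' ζ hζ' hζ F.E h)
  -- the k-th power of the numerator is scalar at ζ
  have h1 : (F.num ζ) ^ k = ((F.den ζ) ^ k * c) • (1 : Matrix ι ι ℂ) := by
    rw [F.num_eq hζ0 hE, _root_.smul_pow, hc, smul_smul]
  have hentry : ∀ (z : ℂ) (i l : ι), ((F.num z) ^ k) i l = aeval z ((F.P ^ k) i l) := by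
    intro z i l
    rw [num_pow]
    rfl
  -- hence at ζ'
  have hoff : ∀ i l : ι, i ≠ l → aeval ζ' ((F.P ^ k) i l) = 0 := by
    intro i l hil
    apply aeval_eq_zero_of_primitive N hN ζ ζ' hζ hζ'
    rw [← hentry, h1]
    simp [hil]
  have hdiag : ∀ i l : ι, aeval ζ' ((F.P ^ k) i i) = aeval ζ' ((F.P ^ k) l l) := by
    intro i l
    have : aeval ζ' ((F.P ^ k) i i - (F.P ^ k) l l) = 0 := by
      apply aeval_eq_zero_of_primitive N hN ζ ζ' hζ hζ'
      rw [map_sub, ← hentry, ← hentry, h1]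
      simp
    rw [map_sub] at this
    exact sub_eq_zero.1 this
  obtain ⟨i0⟩ := ‹Nonempty ι›
  set d : ℂ := aeval ζ' ((F.P ^ k) i0 i0) with hd
  have h2 : (F.num ζ') ^ k = d • (1 : Matrix ι ι ℂ) := by
    ext i l
    rw [hentry]
    by_cases hil : i = l
    · subst hil
      simp [hd, hdiag i i0]
    · rw [hoff i l hil]
      simp [hil]
  have h3 : (F.M ζ') ^ k = (((F.den ζ')⁻¹) ^ k * d) • (1 : Matrix ι ι ℂ) := by
    rw [M, _root_.smul_pow, h2, smul_smul]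
  set c' : ℂ := ((F.den ζ')⁻¹) ^ k * d with hc'
  have hcn : ‖c'‖ = 1 := by
    have h4 := congrArg (fun A => ‖det A‖) h3
    simp only [det_pow, norm_pow, hdet ζ' hζ'1 hE', one_pow, det_smul, det_one, mul_one] at h4
    have hcard : Fintype.card ι ≠ 0 := Fintype.card_ne_zero
    exact (pow_eq_one_iff_of_nonneg (norm_nonneg _) hcard).1 h4.symm
  have h5 := norm_trace_le_of_pow_scalar (F.M ζ') k hk c' hcn h3 j
  have h6 : aeval ζ' (trace (F.P ^ j)) = (F.den ζ') ^ j * trace ((F.M ζ') ^ j) := by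
    rw [trace_M_pow, ← mul_pow, mul_inv_cancel₀ (F.den_ne_zero hζ'0 hE'), one_pow, one_mul]
  rw [h6, norm_mul, norm_pow, den, norm_mul, norm_pow, hζ'1, one_pow, one_mul, mul_comm]
  gcongr

/-- The trace bound on the whole circle. -/
lemma circle_bound (S : Set ℕ) (hS : S.Infinite)
    (hdet : ∀ z : ℂ, ‖z‖ = 1 → aeval z F.E ≠ 0 → ‖(F.M z).det‖ = 1)
    (hfin : ∀ N ∈ S, ∃ ζ : ℂ, IsPrimitiveRoot ζ N ∧ aeval ζ F.E ≠ 0 ∧ F.FiniteAt ζ)
    (z : ℂ) (hz : ‖z‖ = 1) (j : ℕ) :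
    ‖aeval z (trace (F.P ^ j))‖ ≤ Fintype.card ι * ‖aeval z (F.E ^ j)‖ := by
  by_contra hcon
  push Not at hcon
  have hopen : IsOpen {w : ℂ | Fintype.card ι * ‖aeval w (F.E ^ j)‖ < ‖aeval w (trace (F.P ^ j))‖} :=
    isOpen_lt (continuous_const.mul (Polynomial.continuous_aeval _).norm)
      (Polynomial.continuous_aeval _).norm
  obtain ⟨ε, hε, hball⟩ := Metric.isOpen_iff.1 hopen z hcon
  have hS' : (S \ {0}).Infinite := hS.sdiff (Set.finite_singleton 0)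
  obtain ⟨N, hN, ζ', hζ', hnear⟩ := exists_primitive_near (S \ {0}) hS' z hz ε hε
  obtain ⟨ζ, hζ, hE, hf⟩ := hfin N hN.1
  have hNpos : 0 < N := Nat.pos_of_ne_zero (fun h => hN.2 (by simp [h]))
  have h1 := F.trace_bound_of_finiteAt hdet N hNpos ζ hζ hE hf ζ' hζ' j
  have h2 := hball (Metric.mem_ball.2 (by rw [dist_eq_norm]; exact hnear))
  have h3 : Fintype.card ι * ‖aeval ζ' (F.E ^ j)‖ < ‖aeval ζ' (trace (F.P ^ j))‖ := h2
  rw [map_pow, norm_pow] at h3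
  exact absurd h1 (not_le.2 h3)

/-- Main algebraic consequence: the polynomial part of the traces satisfies a functional
equation for all large primes. -/
lemma exists_quotients (S : Set ℕ) (hS : S.Infinite)
    (hdet : ∀ z : ℂ, ‖z‖ = 1 → aeval z F.E ≠ 0 → ‖(F.M z).det‖ = 1)
    (hfin : ∀ N ∈ S, ∃ ζ : ℂ, IsPrimitiveRoot ζ N ∧ aeval ζ F.E ≠ 0 ∧ F.FiniteAt ζ) :
    ∃ Q : ℕ → ℤ[X], (∀ j, trace (F.P ^ j) = F.E ^ j * Q j) ∧
      ∀ j p : ℕ, p.Prime → 2 * Fintype.card ι < p → Q (j * p) = expand ℤ p (Q j) := by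
  have hq : ∀ j : ℕ, ∃ Q : ℤ[X], trace (F.P ^ j) = F.E ^ j * Q ∧
      (∀ z : ℂ, ‖z‖ = 1 → ‖aeval z Q‖ ≤ Fintype.card ι) ∧
      ∀ k, ((|Q.coeff k| : ℤ) : ℝ) ≤ Fintype.card ι := by
    intro j
    refine exists_int_quotient _ (F.E ^ j) _ (F.monic.pow j) ?_
      (fun z hz => F.circle_bound S hS hdet hfin z hz j)
    intro z hz
    rw [map_pow] at hz
    apply F.roots z
    by_contra h
    exact pow_ne_zero j h hz
  choose Q hQ1 _ hQ3 using hq
  refine ⟨Q, hQ1, ?_⟩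
  intro j p hp hpm
  have hfact : Fact p.Prime := ⟨hp⟩
  let φ : ℤ[X] →+* (ZMod p)[X] := mapRingHom (Int.castRingHom (ZMod p))
  have hφ0 : ∀ f : ℤ[X], (∀ k, (p : ℤ) ∣ f.coeff k) → φ f = 0 := by
    intro f hf
    ext k
    have := (ZMod.intCast_zmod_eq_zero_iff_dvd (f.coeff k) p).2 (hf k)
    simpa [φ] using this
  have h1 : φ (trace ((F.P ^ j) ^ p)) = φ (expand ℤ p (trace (F.P ^ j))) := by
    have := hφ0 _ (frobenius_trace p (F.P ^ j))
    rw [map_sub] at this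
    exact sub_eq_zero.1 this
  have h2 : φ ((F.E ^ j) ^ p) = φ (expand ℤ p (F.E ^ j)) := by
    have := hφ0 _ (frobenius_poly p (F.E ^ j))
    rw [map_sub] at this
    exact sub_eq_zero.1 this
  have h3 : φ ((F.E ^ j) ^ p) * φ (Q (j * p)) = φ ((F.E ^ j) ^ p) * φ (expand ℤ p (Q j)) := by
    calc φ ((F.E ^ j) ^ p) * φ (Q (j * p)) = φ (F.E ^ (j * p) * Q (j * p)) := by
          rw [map_mul, pow_mul]
      _ = φ (trace ((F.P ^ j) ^ p)) := by rw [← hQ1, pow_mul]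
      _ = φ (expand ℤ p (F.E ^ j * Q j)) := by rw [h1, hQ1]
      _ = φ ((F.E ^ j) ^ p) * φ (expand ℤ p (Q j)) := by rw [map_mul, map_mul, h2]
  have hmon : (φ ((F.E ^ j) ^ p)).Monic := ((F.monic.pow j).pow p).map _
  have h4 : φ (Q (j * p)) = φ (expand ℤ p (Q j)) := mul_left_cancel₀ hmon.ne_zero h3
  ext k
  have h5 : (p : ℤ) ∣ (Q (j * p)).coeff k - (expand ℤ p (Q j)).coeff k := by
    rw [← ZMod.intCast_zmod_eq_zero_iff_dvd]
    have := congrArg (fun f => coeff f k) h4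
    simp only [φ, coe_mapRingHom, coeff_map, eq_intCast] at this
    push_cast
    rw [this, sub_self]
  have h6 : |(Q (j * p)).coeff k| ≤ (Fintype.card ι : ℤ) := by
    have := hQ3 (j * p) k
    exact_mod_cast this
  have h7 : |(expand ℤ p (Q j)).coeff k| ≤ (Fintype.card ι : ℤ) := by
    rw [coeff_expand hp.pos]
    split_ifs
    · have := hQ3 j (k / p)
      exact_mod_cast this
    · simp
  obtain ⟨t, ht⟩ := h5
  have h8 : |(Q (j * p)).coeff k - (expand ℤ p (Q j)).coeff k| < p := by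
    calc |(Q (j * p)).coeff k - (expand ℤ p (Q j)).coeff k|
        ≤ |(Q (j * p)).coeff k| + |(expand ℤ p (Q j)).coeff k| := abs_sub _ _
      _ ≤ 2 * (Fintype.card ι : ℤ) := by linarith
      _ < p := by exact_mod_cast hpm
  have h9 : t = 0 := by
    by_contra ht0
    have h10 : 1 ≤ |t| := Int.one_le_abs ht0
    rw [ht, abs_mul, abs_of_nonneg (by positivity : (0:ℤ) ≤ p)] at h8
    have : (p : ℤ) * 1 ≤ p * |t| := by gcongr
    linarith
  rw [h9, mul_zero] at ht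
  linarith

end Family

end Pool.Agent.H69.AMU
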