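import Mathlib
import Pool.Agent.H69.AMU.Family

set_option autoImplicit false

namespace Pool.Agent.H69.AMU

open Polynomial Matrix Filter Topology

section normed

variable {A : Type*} [NormedRing A] [NormOneClass A]

lemma norm_pow_sub_pow_le' (a b : A) (C : ℝ) (ha : ‖a‖ ≤ C) (hb : ‖b‖ ≤ C) (n : ℕ) :
    ‖a ^ (n + 1) - b ^ (n + 1)‖ ≤ (n + 1) * C ^ n * ‖a - b‖ := by
  have hC : 0 ≤ C := (norm_nonneg _).trans ha
  induction n with
  | zero => simp
  | succ n ih =>
    have h1 : a ^ (n + 1 + 1) - b ^ (n + 1 + 1) = a ^ (n + 1) * (a - b) + (a ^ (n + 1) - b ^ (n + 1)) * b := by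
      rw [pow_succ a (n + 1), pow_succ b (n + 1)]
      noncomm_ring
    rw [h1]
    have h2 : ‖a ^ (n + 1)‖ ≤ C ^ (n + 1) := (norm_pow_le a (n + 1)).trans (by gcongr)
    calc ‖a ^ (n + 1) * (a - b) + (a ^ (n + 1) - b ^ (n + 1)) * b‖
        ≤ ‖a ^ (n + 1)‖ * ‖a - b‖ + ‖a ^ (n + 1) - b ^ (n + 1)‖ * ‖b‖ :=
          (norm_add_le _ _).trans (add_le_add (norm_mul_le _ _) (norm_mul_le _ _))
      _ ≤ C ^ (n + 1) * ‖a - b‖ + ((n + 1) * C ^ n * ‖a - b‖) * C := by gcongr
      _ = ((n + 1 : ℕ) + 1) * C ^ (n + 1) * ‖a - b‖ := by push_cast; ring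

variable [NormedAlgebra ℝ A]

/-- Sequences with the same first order behaviour at `1` have asymptotically equal `n`-th powers. -/
lemma tendsto_pow_sub_pow (a b : ℕ → A) (L : A)
    (ha : Tendsto (fun n : ℕ => (n : ℝ) • (a n - 1)) atTop (𝓝 L))
    (hb : Tendsto (fun n : ℕ => (n : ℝ) • (b n - 1)) atTop (𝓝 L)) :
    Tendsto (fun n : ℕ => (a n) ^ n - (b n) ^ n) atTop (𝓝 0) := by
  set K : ℝ := ‖L‖ + 1 with hK
  have hKpos : 0 ≤ K := by positivity
  have hea : ∀ᶠ n : ℕ in atTop, ‖(n : ℝ) • (a n - 1)‖ ≤ K :=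
    (ha.norm.eventually (gt_mem_nhds (by rw [hK]; linarith))).mono fun n hn => le_of_lt hn
  have heb : ∀ᶠ n : ℕ in atTop, ‖(n : ℝ) • (b n - 1)‖ ≤ K :=
    (hb.norm.eventually (gt_mem_nhds (by rw [hK]; linarith))).mono fun n hn => le_of_lt hn
  have hdiff : Tendsto (fun n : ℕ => (n : ℝ) • (a n - b n)) atTop (𝓝 0) := by
    have := ha.sub hb
    rw [sub_self] at this
    refine this.congr fun n => ?_
    rw [← smul_sub]
    congr 1
    abel
  rw [tendsto_zero_iff_norm_tendsto_zero]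
  have hub : Tendsto (fun n : ℕ => Real.exp K * ‖(n : ℝ) • (a n - b n)‖) atTop (𝓝 0) := by
    have := (hdiff.norm).const_mul (Real.exp K)
    simpa using this
  refine squeeze_zero' (Eventually.of_forall fun n => norm_nonneg _) ?_ hub
  filter_upwards [hea, heb, eventually_gt_atTop 0] with n h1 h2 hn
  have hnR : (0 : ℝ) < n := by exact_mod_cast hn
  have key : ∀ x : A, ‖(n : ℝ) • (x - 1)‖ ≤ K → ‖x‖ ≤ 1 + K / n := by
    intro x hx
    rw [norm_smul, Real.norm_of_nonneg hnR.le] at hx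
    have h3 : ‖x - 1‖ ≤ K / n := by
      rw [le_div_iff₀ hnR]; linarith
    calc ‖x‖ = ‖1 + (x - 1)‖ := by congr 1; abel
      _ ≤ ‖(1 : A)‖ + ‖x - 1‖ := norm_add_le _ _
      _ ≤ 1 + K / n := by rw [norm_one]; linarith
  obtain ⟨m, rfl⟩ : ∃ m, n = m + 1 := ⟨n - 1, by omega⟩
  have h3 := norm_pow_sub_pow_le' (a (m + 1)) (b (m + 1)) _ (key _ h1) (key _ h2) m
  have h4 : (1 + K / ((m + 1 : ℕ) : ℝ)) ^ m ≤ Real.exp K := by
    have h5 : 1 + K / ((m + 1 : ℕ) : ℝ) ≤ Real.exp (K / ((m + 1 : ℕ) : ℝ)) := by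
      have := Real.add_one_le_exp (K / ((m + 1 : ℕ) : ℝ))
      linarith
    have h6 : (1 : ℝ) ≤ 1 + K / ((m + 1 : ℕ) : ℝ) := by
      have : 0 ≤ K / ((m + 1 : ℕ) : ℝ) := by positivity
      linarith
    calc (1 + K / ((m + 1 : ℕ) : ℝ)) ^ m ≤ (1 + K / ((m + 1 : ℕ) : ℝ)) ^ (m + 1) :=
          pow_le_pow_right₀ h6 (Nat.le_succ m)
      _ ≤ (Real.exp (K / ((m + 1 : ℕ) : ℝ))) ^ (m + 1) := by
          gcongr
      _ = Real.exp K := by
          rw [← Real.exp_nat_mul]
          congr 1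
          field_simp
  calc ‖a (m + 1) ^ (m + 1) - b (m + 1) ^ (m + 1)‖
      ≤ (m + 1) * (1 + K / ((m + 1 : ℕ) : ℝ)) ^ m * ‖a (m + 1) - b (m + 1)‖ := h3
    _ ≤ (m + 1) * Real.exp K * ‖a (m + 1) - b (m + 1)‖ := by gcongr
    _ = Real.exp K * ‖((m + 1 : ℕ) : ℝ) • (a (m + 1) - b (m + 1))‖ := by
        rw [norm_smul, Real.norm_of_nonneg hnR.le]
        push_cast
        ring

omit [NormOneClass A] in
/-- First order behaviour along `t / n`. -/
lemma tendsto_smul_sub_one (f : ℝ → A) (f' : A) (hf : HasDerivAt f f' 0) (hf0 : f 0 = 1) (t : ℝ) :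
    Tendsto (fun n : ℕ => (n : ℝ) • (f (t / n) - 1)) atTop (𝓝 (t • f')) := by
  by_cases ht : t = 0
  · subst ht
    simp [hf0]
  · have h1 := hf.tendsto_slope_zero
    simp only [zero_add, hf0] at h1
    have h2 : Tendsto (fun n : ℕ => t / (n : ℝ)) atTop (𝓝[≠] 0) := by
      rw [tendsto_nhdsWithin_iff]
      refine ⟨tendsto_const_div_atTop_nhds_zero_nat t, ?_⟩
      filter_upwards [eventually_gt_atTop 0] with n hn
      have hnR : (0 : ℝ) < n := by exact_mod_cast hn
      exact div_ne_zero ht hnR.ne'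
    have h3 := (h1.comp h2).const_smul t
    refine h3.congr' ?_
    filter_upwards [eventually_gt_atTop 0] with n hn
    have hnR : (0 : ℝ) < n := by exact_mod_cast hn
    simp only [Function.comp_apply]
    rw [smul_smul]
    congr 1
    field_simp

omit [NormOneClass A] in
/-- Powers of a curve through `1`. -/
lemma hasDerivAt_pow_one (f : ℝ → A) (f' : A) (hf : HasDerivAt f f' 0) (hf0 : f 0 = 1) (j : ℕ) :
    HasDerivAt (fun t => (f t) ^ j) ((j : ℝ) • f') 0 := by
  induction j with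
  | zero =>
    simp only [pow_zero, Nat.cast_zero, zero_smul]
    exact hasDerivAt_const 0 (1 : A)
  | succ j ih =>
    have h1 := ih.mul hf
    simp only [hf0, one_pow, mul_one, one_mul] at h1
    have h2 : (j : ℝ) • f' + f' = ((j + 1 : ℕ) : ℝ) • f' := by
      push_cast
      rw [add_smul, one_smul]
    rw [h2] at h1
    refine h1.congr_of_eventuallyEq (Eventually.of_forall fun t => ?_)
    simp only [pow_succ, Pi.mul_apply]

end normed

namespace Family

variable {ι : Type} [Fintype ι] [DecidableEq ι] (F : Family ι)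

attribute [local instance] Matrix.linftyOpNormedRing Matrix.linftyOpNormedAlgebra
  Matrix.linfty_opNormOneClass

/-- The curve of matrices on the circle. -/
noncomputable def curve (t : ℝ) : Matrix ι ι ℂ := F.M (Complex.exp (t * Complex.I))

lemma curve_zero (h : F.M 1 = 1) : F.curve 0 = 1 := by
  simp [curve, h]

lemma hasDerivAt_curve_entry (h1 : aeval 1 F.E ≠ (0 : ℂ)) :
    ∃ D : Matrix ι ι ℂ, ∀ i j, HasDerivAt (fun t : ℝ => F.curve t i j) (D i j) 0 := by
  have hdiff : ∀ i j, DifferentiableAt ℝ (fun t : ℝ => F.curve t i j) 0 := by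
    intro i j
    have hform : (fun t : ℝ => F.curve t i j) = fun t : ℝ =>
        (F.den (Complex.exp (t * Complex.I)))⁻¹ * aeval (Complex.exp (t * Complex.I)) (F.P i j) := by
      funext t
      simp [curve, M, num]
    rw [hform]
    have hexp : DifferentiableAt ℝ (fun t : ℝ => Complex.exp (t * Complex.I)) 0 := by fun_prop
    have hpoly : ∀ f : ℤ[X], DifferentiableAt ℝ
        (fun t : ℝ => aeval (Complex.exp (t * Complex.I)) f) 0 := by
      intro f
      have h2 : DifferentiableAt ℂ (fun z : ℂ => aeval z f) (Complex.exp ((0 : ℝ) * Complex.I)) :=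
        (Polynomial.differentiable_aeval f).differentiableAt
      exact (h2.restrictScalars ℝ).comp (0 : ℝ) hexp
    have hden : DifferentiableAt ℝ (fun t : ℝ => F.den (Complex.exp (t * Complex.I))) 0 := by
      unfold den
      exact (hexp.pow F.a).mul (hpoly F.E)
    refine (hden.inv ?_).mul (hpoly _)
    have : Complex.exp (((0 : ℝ) : ℂ) * Complex.I) = 1 := by simp
    rw [this]
    exact F.den_ne_zero one_ne_zero h1
  exact ⟨fun i j => deriv (fun t : ℝ => F.curve t i j) 0, fun i j => (hdiff i j).hasDerivAt⟩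

lemma hasDerivAt_curve (h1 : aeval 1 F.E ≠ (0 : ℂ)) :
    ∃ D : Matrix ι ι ℂ, HasDerivAt F.curve D 0 ∧
      ∀ i j, HasDerivAt (fun t : ℝ => F.curve t i j) (D i j) 0 := by
  obtain ⟨D, hD⟩ := F.hasDerivAt_curve_entry h1
  refine ⟨D, ?_, hD⟩
  exact hasDerivAt_pi.2 fun i => hasDerivAt_pi.2 fun j => hD i j

/-- The traces as functions on the circle. -/
noncomputable def q (Q : ℕ → ℤ[X]) (j : ℕ) (z : ℂ) : ℂ := (z ^ (F.a * j))⁻¹ * aeval z (Q j)

variable {F}

lemma trace_eq_q {Q : ℕ → ℤ[X]} (hQ : ∀ j, trace (F.P ^ j) = F.E ^ j * Q j) {z : ℂ} (hz : z ≠ 0)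
    (hE : aeval z F.E ≠ 0) (j : ℕ) : trace ((F.M z) ^ j) = F.q Q j z := by
  rw [M, _root_.smul_pow, trace_smul, trace_num_pow, hQ, map_mul, map_pow, smul_eq_mul, den, q,
    mul_inv, mul_pow, inv_pow, inv_pow, ← pow_mul]
  field_simp

lemma q_prime {Q : ℕ → ℤ[X]}
    (hQ2 : ∀ j p : ℕ, p.Prime → 2 * Fintype.card ι < p → Q (j * p) = expand ℤ p (Q j))
    (j p : ℕ) (hp : p.Prime) (hpm : 2 * Fintype.card ι < p) (z : ℂ) :
    F.q Q (j * p) z = F.q Q j (z ^ p) := by
  rw [q, q, hQ2 j p hp hpm, expand_aeval, ← pow_mul]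
  congr 3
  ring

/-- Existence of arbitrarily large primes, as a filter. -/
lemma neBot_primes (m : ℕ) : (atTop ⊓ 𝓟 {p : ℕ | p.Prime ∧ m < p}).NeBot := by
  rw [← frequently_mem_iff_neBot, frequently_atTop]
  intro a
  obtain ⟨p, hp, hpp⟩ := Nat.exists_infinite_primes (a + m + 1)
  exact ⟨p, by omega, hpp, by omega⟩

/-- Comparison of two sequences of matrices along primes. -/
lemma trace_limit [Nonempty ι] (a b : ℕ → Matrix ι ι ℂ) (L : Matrix ι ι ℂ)
    (ha : Tendsto (fun n : ℕ => (n : ℝ) • (a n - 1)) atTop (𝓝 L))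
    (hb : Tendsto (fun n : ℕ => (n : ℝ) • (b n - 1)) atTop (𝓝 L))
    (x y : ℂ) (m : ℕ) (hx : ∀ᶠ n in atTop, n.Prime → m < n → trace ((a n) ^ n) = x)
    (hy : ∀ᶠ n in atTop, n.Prime → m < n → trace ((b n) ^ n) = y) : x = y := by
  have h1 := tendsto_pow_sub_pow a b L ha hb
  have hcont : Continuous (fun A : Matrix ι ι ℂ => trace A) := by
    unfold Matrix.trace
    exact continuous_finsetSum _ fun i _ => (continuous_apply i).comp (continuous_apply i)
  have h2 : Tendsto (fun n : ℕ => trace ((a n) ^ n - (b n) ^ n)) atTop (𝓝 0) := by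
    have := (hcont.tendsto 0).comp h1
    rw [trace_zero] at this
    exact this
  have hne := neBot_primes m
  have h3 : Tendsto (fun n : ℕ => trace ((a n) ^ n - (b n) ^ n)) (atTop ⊓ 𝓟 {p : ℕ | p.Prime ∧ m < p})
      (𝓝 0) := h2.mono_left inf_le_left
  have h4 : Tendsto (fun _ : ℕ => x - y) (atTop ⊓ 𝓟 {p : ℕ | p.Prime ∧ m < p}) (𝓝 0) := by
    refine h3.congr' ?_
    rw [Filter.eventuallyEq_iff_exists_mem] 
    refine ⟨{n | (n.Prime → m < n → trace ((a n) ^ n) = x) ∧ (n.Prime → m < n → trace ((b n) ^ n) = y)}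
      ∩ {p : ℕ | p.Prime ∧ m < p}, ?_, ?_⟩
    · exact inter_mem (mem_inf_of_left (hx.and hy)) (mem_inf_of_right (mem_principal_self _))
    · rintro n ⟨⟨h5, h6⟩, h7, h8⟩
      simp only [trace_sub, h5 h7 h8, h6 h7 h8]
  have h5 : x - y = 0 := tendsto_nhds_unique tendsto_const_nhds h4
  exact sub_eq_zero.1 h5

/-- Key functional equation on the circle. -/
theorem q_eq_q_one [Nonempty ι] (h1 : aeval 1 F.E ≠ (0 : ℂ)) (hM : F.M 1 = 1) {Q : ℕ → ℤ[X]}
    (hQ : ∀ j, trace (F.P ^ j) = F.E ^ j * Q j)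
    (hQ2 : ∀ j p : ℕ, p.Prime → 2 * Fintype.card ι < p → Q (j * p) = expand ℤ p (Q j))
    (s : ℝ) (j : ℕ) :
    F.q Q j (Complex.exp (s * Complex.I)) = F.q Q 1 (Complex.exp (s * Complex.I) ^ j) := by
  obtain ⟨D, hD, -⟩ := F.hasDerivAt_curve h1
  have h0 := F.curve_zero hM
  have ha := tendsto_smul_sub_one (fun t => (F.curve t) ^ j) _ (hasDerivAt_pow_one _ _ hD h0 j)
    (by simp [h0]) s
  have hb := tendsto_smul_sub_one F.curve D hD h0 (j * s)
  have hL : s • ((j : ℝ) • D) = ((j : ℝ) * s) • D := by rw [smul_smul, mul_comm]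
  rw [hL] at ha
  -- nonvanishing of the denominators near 1
  have hnear : ∀ t : ℝ, ∀ᶠ n : ℕ in atTop, aeval (Complex.exp (((t / n : ℝ) : ℂ) * Complex.I)) F.E ≠ 0 := by
    intro t
    have hc : Tendsto (fun n : ℕ => aeval (Complex.exp (((t / n : ℝ) : ℂ) * Complex.I)) F.E) atTop
        (𝓝 (aeval (Complex.exp (((0 : ℝ) : ℂ) * Complex.I)) F.E)) := by
      have h2 : Continuous (fun u : ℝ => aeval (Complex.exp ((u : ℂ) * Complex.I)) F.E) :=
        (Polynomial.continuous_aeval F.E).comp (by fun_prop)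
      exact (h2.tendsto 0).comp (tendsto_const_div_atTop_nhds_zero_nat t)
    have h3 : aeval (Complex.exp (((0 : ℝ) : ℂ) * Complex.I)) F.E ≠ 0 := by simpa using h1
    exact hc.eventually_ne h3
  refine trace_limit _ _ _ ha hb _ _ (2 * Fintype.card ι) ?_ ?_
  · filter_upwards [hnear s, eventually_gt_atTop 0] with n hn hn0 hp hpm
    have hnR : (n : ℂ) ≠ 0 := by exact_mod_cast hn0.ne'
    rw [← pow_mul, curve, trace_eq_q hQ (Complex.exp_ne_zero _) hn, q_prime hQ2 j n hp hpm,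
      ← Complex.exp_nat_mul]
    congr 2
    push_cast
    field_simp
  · filter_upwards [hnear (j * s), eventually_gt_atTop 0] with n hn hn0 hp hpm
    have hnR : (n : ℂ) ≠ 0 := by exact_mod_cast hn0.ne'
    rw [curve, trace_eq_q hQ (Complex.exp_ne_zero _) hn]
    have := q_prime (F := F) hQ2 1 n hp hpm (Complex.exp ((((j : ℝ) * s / n : ℝ) : ℂ) * Complex.I))
    rw [one_mul] at this
    rw [this, ← Complex.exp_nat_mul, ← Complex.exp_nat_mul]
    congr 2
    push_cast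
    field_simp

/-- If the derivative at `1` vanishes, all traces are constant. -/
theorem q_one_eq_card [Nonempty ι] (h1 : aeval 1 F.E ≠ (0 : ℂ)) (hM : F.M 1 = 1) {Q : ℕ → ℤ[X]}
    (hQ : ∀ j, trace (F.P ^ j) = F.E ^ j * Q j)
    (hQ2 : ∀ j p : ℕ, p.Prime → 2 * Fintype.card ι < p → Q (j * p) = expand ℤ p (Q j))
    (hzero : ∀ i j, HasDerivAt (fun t : ℝ => F.curve t i j) 0 0) (s : ℝ) :
    F.q Q 1 (Complex.exp (s * Complex.I)) = Fintype.card ι := by
  obtain ⟨D, hD, hD'⟩ := F.hasDerivAt_curve h1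
  have hD0 : D = 0 := by
    ext i j
    exact (hD' i j).unique (hzero i j)
  rw [hD0] at hD
  have h0 := F.curve_zero hM
  have ha := tendsto_smul_sub_one F.curve 0 hD h0 s
  have hb : Tendsto (fun n : ℕ => (n : ℝ) • ((1 : Matrix ι ι ℂ) - 1)) atTop (𝓝 (s • (0 : Matrix ι ι ℂ))) := by
    simp
  have hnear : ∀ t : ℝ, ∀ᶠ n : ℕ in atTop, aeval (Complex.exp (((t / n : ℝ) : ℂ) * Complex.I)) F.E ≠ 0 := by
    intro t
    have hc : Tendsto (fun n : ℕ => aeval (Complex.exp (((t / n : ℝ) : ℂ) * Complex.I)) F.E) atTop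
        (𝓝 (aeval (Complex.exp (((0 : ℝ) : ℂ) * Complex.I)) F.E)) := by
      have h2 : Continuous (fun u : ℝ => aeval (Complex.exp ((u : ℂ) * Complex.I)) F.E) :=
        (Polynomial.continuous_aeval F.E).comp (by fun_prop)
      exact (h2.tendsto 0).comp (tendsto_const_div_atTop_nhds_zero_nat t)
    have h3 : aeval (Complex.exp (((0 : ℝ) : ℂ) * Complex.I)) F.E ≠ 0 := by simpa using h1
    exact hc.eventually_ne h3
  refine trace_limit (F.curve <| s / ·) (fun _ => 1) _ ha hb _ _ (2 * Fintype.card ι) ?_ ?_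
  · filter_upwards [hnear s, eventually_gt_atTop 0] with n hn hn0 hp hpm
    have hnR : (n : ℂ) ≠ 0 := by exact_mod_cast hn0.ne'
    rw [curve, trace_eq_q hQ (Complex.exp_ne_zero _) hn]
    have := q_prime (F := F) hQ2 1 n hp hpm (Complex.exp (((s / n : ℝ) : ℂ) * Complex.I))
    rw [one_mul] at this
    rw [this, ← Complex.exp_nat_mul]
    congr 2
    push_cast
    field_simp
  · exact Eventually.of_forall fun n _ _ => by simp

end Family

end Pool.Agent.H69.AMU
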