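import Mathlib
import Pool.Agent.H69.AMU.Rep
import Pool.Agent.H69.AMU.Limit

set_option autoImplicit false

namespace Pool.Agent.H69.AMU

open FusionPath Matrix Polynomial

/-- Monic integer polynomial whose values are, up to a unit, the unknot values. -/
noncomputable def Dpoly (j : ℕ) : ℤ[X] := ∑ i ∈ Finset.range (j + 1), (X ^ 4) ^ i

lemma Dpoly_eval (z : ℂ) (j : ℕ) :
    aeval z (Dpoly j) = ∑ i ∈ Finset.range (j + 1), (z ^ 4) ^ i := by
  simp [Dpoly]

lemma unknot_eq_Dpoly (z : ℂ) (hz : z ≠ 0) (j : ℕ) :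
    unknot z j * z ^ (2 * j) = (-1) ^ j * aeval z (Dpoly j) := by
  rw [Dpoly_eval]
  induction j using Nat.strong_induction_on with
  | _ j ih =>
    rcases j with _ | _ | j
    · simp [unknot]
    · simp only [unknot, Finset.sum_range_succ, Finset.sum_range_zero]
      field_simp
      ring
    · have h0 := ih j (by omega)
      have h1 := ih (j + 1) (by omega)
      have h2 : unknot z (j + 2) = (-z ^ 2 - (z ^ 2)⁻¹) * unknot z (j + 1) - unknot z j := rfl
      rw [h2]
      have h3 : ((-z ^ 2 - (z ^ 2)⁻¹) * unknot z (j + 1) - unknot z j) * z ^ (2 * (j + 2))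
          = (-z ^ 4 - 1) * (unknot z (j + 1) * z ^ (2 * (j + 1)))
            - z ^ 4 * (unknot z j * z ^ (2 * j)) := by
        field_simp
        ring
      rw [h3, h0, h1]
      simp only [Finset.sum_range_succ]
      ring

lemma Dpoly_monic (j : ℕ) : (Dpoly j).Monic := by
  unfold Dpoly
  rw [Finset.sum_range_succ]
  have h1 : ((X ^ 4 : ℤ[X]) ^ j).Monic := (monic_X_pow 4).pow j
  apply Monic.add_of_right h1
  by_cases hj : j = 0
  · subst hj
    simp
  · apply lt_of_le_of_lt (degree_sum_le _ _)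
    rw [Finset.sup_lt_iff]
    · intro b hb
      rw [Finset.mem_range] at hb
      rw [← pow_mul, ← pow_mul, degree_X_pow, degree_X_pow]
      exact_mod_cast (by omega : 4 * b < 4 * j)
    · rw [← pow_mul, degree_X_pow]
      exact WithBot.bot_lt_coe _

lemma Dpoly_root (z : ℂ) (j : ℕ) (h : aeval z (Dpoly j) = 0) : ‖z‖ = 1 := by
  rw [Dpoly_eval] at h
  have h1 : (z ^ 4) ^ (j + 1) = 1 := by
    have := mul_geom_sum (z ^ 4) (j + 1)
    rw [h, mul_zero] at this
    exact (sub_eq_zero.1 this.symm)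
  rw [← pow_mul] at h1
  have h2 : ‖z‖ ^ (4 * (j + 1)) = 1 := by rw [← norm_pow, h1, norm_one]
  exact (pow_eq_one_iff_of_nonneg (norm_nonneg _) (by omega)).1 h2

/-- The common denominator. -/
noncomputable def Epoly (n : ℕ) : ℤ[X] := ∏ j ∈ Finset.range (n + 1), Dpoly j

lemma Epoly_monic (n : ℕ) : (Epoly n).Monic := monic_prod_of_monic _ _ fun j _ => Dpoly_monic j

lemma Epoly_root (n : ℕ) (z : ℂ) (h : aeval z (Epoly n) = 0) : ‖z‖ = 1 := by
  rw [Epoly, map_prod, Finset.prod_eq_zero_iff] at h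
  obtain ⟨j, _, hj⟩ := h
  exact Dpoly_root z j hj

lemma admissible_iff (n : ℕ) (z : ℂ) : Admissible n n z ↔ z ≠ 0 ∧ aeval z (Epoly n) ≠ 0 := by
  unfold Admissible
  constructor
  · rintro ⟨hz, h, _⟩
    refine ⟨hz, ?_⟩
    rw [Epoly, map_prod, Finset.prod_ne_zero_iff]
    intro j hj
    rw [Finset.mem_range] at hj
    have h1 := unknot_eq_Dpoly z hz j
    intro h2
    rw [h2, mul_zero] at h1
    exact (mul_ne_zero (h j (by omega)) (pow_ne_zero _ hz)) h1
  · rintro ⟨hz, h⟩
    refine ⟨hz, ?_, Or.inr le_rfl⟩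
    intro j hj h0
    rw [Epoly, map_prod, Finset.prod_ne_zero_iff] at h
    have h1 := unknot_eq_Dpoly z hz j
    rw [h0, zero_mul] at h1
    have h2 : ((-1 : ℂ)) ^ j ≠ 0 := pow_ne_zero _ (by norm_num)
    exact h j (Finset.mem_range.2 (by omega)) ((mul_eq_zero.1 h1.symm).resolve_left h2)

/-- Functions which are rational with controlled denominators on the admissible set. -/
def Reg (n : ℕ) (f : ℂ → ℂ) : Prop :=
  ∃ (N : ℤ[X]) (a s : ℕ), ∀ z, Admissible n n z →
    f z * (z ^ a * (aeval z (Epoly n)) ^ s) = aeval z N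

namespace Reg

variable {n : ℕ} {f g : ℂ → ℂ}

lemma const (k : ℤ) : Reg n (fun _ => (k : ℂ)) := ⟨C k, 0, 0, fun z _ => by simp⟩

lemma zero : Reg n (fun _ => (0 : ℂ)) := ⟨0, 0, 0, fun z _ => by simp⟩

lemma one : Reg n (fun _ => (1 : ℂ)) := ⟨1, 0, 0, fun z _ => by simp⟩

lemma id : Reg n (fun z => z) := ⟨X, 0, 0, fun z _ => by simp⟩

lemma inv_id : Reg n (fun z => z⁻¹) := ⟨1, 1, 0, fun z hz => by
  simp [inv_mul_cancel₀ hz.1]⟩

lemma congr (hf : Reg n f) (h : ∀ z, Admissible n n z → f z = g z) : Reg n g := by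
  obtain ⟨N, a, s, hN⟩ := hf
  exact ⟨N, a, s, fun z hz => by rw [← h z hz, hN z hz]⟩

lemma mul (hf : Reg n f) (hg : Reg n g) : Reg n (fun z => f z * g z) := by
  obtain ⟨N, a, s, hN⟩ := hf
  obtain ⟨N', a', s', hN'⟩ := hg
  refine ⟨N * N', a + a', s + s', fun z hz => ?_⟩
  rw [map_mul, ← hN z hz, ← hN' z hz]
  ring

lemma add (hf : Reg n f) (hg : Reg n g) : Reg n (fun z => f z + g z) := by
  obtain ⟨N, a, s, hN⟩ := hf
  obtain ⟨N', a', s', hN'⟩ := hg
  refine ⟨N * (X ^ a' * Epoly n ^ s') + N' * (X ^ a * Epoly n ^ s), a + a', s + s',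
    fun z hz => ?_⟩
  simp only [map_add, map_mul, map_pow, aeval_X]
  rw [← hN z hz, ← hN' z hz]
  ring

lemma sum {κ : Type*} (S : Finset κ) (F : κ → ℂ → ℂ) (h : ∀ i ∈ S, Reg n (F i)) :
    Reg n (fun z => ∑ i ∈ S, F i z) := by
  classical
  induction S using Finset.induction_on with
  | empty => simpa using zero
  | insert i S hi ih =>
    simp only [Finset.sum_insert hi]
    exact (h i (Finset.mem_insert_self _ _)).add (ih fun j hj => h j (Finset.mem_insert_of_mem hj))

lemma unknot (j : ℕ) : Reg n (fun z => AMU.unknot z j) := by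
  refine ⟨C ((-1) ^ j) * Dpoly j, 2 * j, 0, fun z hz => ?_⟩
  rw [pow_zero, mul_one, unknot_eq_Dpoly z hz.1]
  simp

lemma inv_unknot (j : ℕ) (hj : j ≤ n) : Reg n (fun z => (AMU.unknot z j)⁻¹) := by
  refine ⟨C ((-1) ^ j) * X ^ (2 * j) * ∏ i ∈ (Finset.range (n + 1)).erase j, Dpoly i, 0, 1,
    fun z hz => ?_⟩
  have h0 : AMU.unknot z j ≠ 0 := hz.2.1 j hj
  have h1 : aeval z (Epoly n) = aeval z (Dpoly j) *
      aeval z (∏ i ∈ (Finset.range (n + 1)).erase j, Dpoly i) := by
    rw [← map_mul, Epoly, Finset.mul_prod_erase _ _ (Finset.mem_range.2 (by omega))]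
  have h2 : aeval z (Dpoly j) = (-1) ^ j * (AMU.unknot z j * z ^ (2 * j)) := by
    rw [unknot_eq_Dpoly z hz.1, ← mul_assoc, ← mul_pow]
    simp
  rw [pow_zero, one_mul, pow_one, h1, h2]
  simp only [map_mul, map_pow, aeval_X, map_neg, map_one]
  field_simp

end Reg

variable (n c : ℕ)

/-- Matrix valued functions on the admissible set with regular entries. -/
def RegMat (M : ∀ z : ℂ, Admissible n n z → Matrix (FusionPath n c n) (FusionPath n c n) ℂ) :
    Prop :=
  ∀ p' p, ∃ f, Reg n f ∧ ∀ z (h : Admissible n n z), f z = M z h p' p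

variable {n c}

lemma RegMat.mul {M M' : ∀ z : ℂ, Admissible n n z → Matrix (FusionPath n c n) (FusionPath n c n) ℂ}
    (hM : RegMat n c M) (hM' : RegMat n c M') : RegMat n c (fun z h => M z h * M' z h) := by
  intro p' p
  choose f hf hf' using hM
  choose g hg hg' using hM'
  refine ⟨fun z => ∑ q, f p' q z * g q p z, Reg.sum _ _ fun q _ => (hf p' q).mul (hg q p), ?_⟩
  intro z h
  show _ = (M z h * M' z h) p' p
  rw [Matrix.mul_apply]
  exact Finset.sum_congr rfl fun q _ => by rw [hf', hg']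

lemma RegMat.one : RegMat n c (fun _ _ => 1) := by
  intro p' p
  by_cases h : p' = p
  · refine ⟨fun _ => 1, Reg.one, fun z _ => ?_⟩
    show _ = (1 : Matrix (FusionPath n c n) (FusionPath n c n) ℂ) p' p
    rw [Matrix.one_apply, if_pos h]
  · refine ⟨fun _ => 0, Reg.zero, fun z _ => ?_⟩
    show _ = (1 : Matrix (FusionPath n c n) (FusionPath n c n) ℂ) p' p
    rw [Matrix.one_apply, if_neg h]

lemma RegMat.cupcap (g : ℕ) : RegMat n c (fun z _ => AMU.cupcap n c n z g) := by
  intro p' p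
  by_cases h : AgreeOff (g + 1) p' p ∧ p.lab g = p.lab (g + 2)
  · refine ⟨fun z => unknot z (p'.lab (g + 1)) * (unknot z (p.lab g))⁻¹,
      (Reg.unknot _).mul (Reg.inv_unknot _ (p.lab_le g)), fun z _ => ?_⟩
    show _ = AMU.cupcap n c n z g p' p
    rw [cupcap_apply_pos h.1 h.2]
    rfl
  · refine ⟨fun _ => 0, Reg.zero, fun z _ => ?_⟩
    show _ = AMU.cupcap n c n z g p' p
    rw [cupcap_apply_neg h]

lemma RegMat.smul_add {f g : ℂ → ℂ} (hf : Reg n f) (hg : Reg n g)
    {M : ∀ z : ℂ, Admissible n n z → Matrix (FusionPath n c n) (FusionPath n c n) ℂ}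
    (hM : RegMat n c M) : RegMat n c (fun z h => f z • (1 : Matrix _ _ ℂ) + g z • M z h) := by
  intro p' p
  obtain ⟨u, hu, hu'⟩ := hM p' p
  obtain ⟨v, hv, hv'⟩ := RegMat.one (n := n) (c := c) p' p
  refine ⟨fun z => f z * v z + g z * u z, (hf.mul hv).add (hg.mul hu), fun z h => ?_⟩
  show _ = (f z • (1 : Matrix (FusionPath n c n) (FusionPath n c n) ℂ) + g z • M z h) p' p
  have hv'' : v z = (1 : Matrix (FusionPath n c n) (FusionPath n c n) ℂ) p' p := hv' z h
  rw [Matrix.add_apply, Matrix.smul_apply, Matrix.smul_apply, smul_eq_mul, smul_eq_mul,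
    ← hu' z h, ← hv'']

lemma RegMat.congr {M M' : ∀ z : ℂ, Admissible n n z → Matrix (FusionPath n c n) (FusionPath n c n) ℂ}
    (hM : RegMat n c M) (h : ∀ z hz, M z hz = M' z hz) : RegMat n c M' := by
  have : M = M' := by
    funext z hz
    exact h z hz
  rw [← this]
  exact hM

/-- The matrix entries of every braid are regular functions of the parameter. -/
lemma regMat_braidRep (β : BraidGroup n) :
    RegMat n c (fun z h => (braidRep n c n z h β : Matrix (FusionPath n c n) (FusionPath n c n) ℂ)) := by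
  induction β using PresentedGroup.induction_on with
  | _ w =>
    induction w using FreeGroup.induction_on with
    | C1 =>
      refine RegMat.congr RegMat.one fun z h => ?_
      rw [map_one, map_one]
      rfl
    | of g =>
      have h1 : RegMat n c (fun z h => (sigma n c n z h g : Matrix _ _ ℂ)) :=
        RegMat.smul_add Reg.id Reg.inv_id (RegMat.cupcap g)
      refine RegMat.congr h1 fun z h => ?_
      exact congrArg Units.val (braidRep_of h g).symm
    | inv_of g _ =>
      have h1 : RegMat n c (fun z h => ((sigma n c n z h g)⁻¹ : GL _ ℂ).val) :=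
        RegMat.smul_add Reg.inv_id Reg.id (RegMat.cupcap g)
      refine RegMat.congr h1 fun z h => ?_
      have h2 := braidRep_of (c := c) h g
      have h3 : braidRep n c n z h (PresentedGroup.mk (braidRels n) (FreeGroup.of g)⁻¹)
          = (sigma n c n z h g)⁻¹ := by
        rw [map_inv, map_inv]
        exact congrArg (·⁻¹) h2
      rw [h3]
    | mul x y hx hy =>
      refine RegMat.congr (RegMat.mul hx hy) fun z h => ?_
      rw [map_mul, map_mul]
      rfl

/-- The family attached to a braid. -/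
theorem exists_family (β : BraidGroup n) : ∃ F : Family (FusionPath n c n),
    (∀ z : ℂ, z ≠ 0 → (aeval z F.E ≠ 0 ↔ Admissible n n z)) ∧
    ∀ z (h : Admissible n n z), F.M z = braidRep n c n z h β := by
  classical
  have hreg := regMat_braidRep (c := c) β
  choose f hf hf' using hreg
  choose N a s hN using hf
  let a0 : ℕ := ∑ p', ∑ p, a p' p
  let s0 : ℕ := (∑ p', ∑ p, s p' p) + 1
  have ha : ∀ p' p, a p' p ≤ a0 := fun p' p =>
    (Finset.single_le_sum (f := fun p => a p' p) (fun _ _ => Nat.zero_le _) (Finset.mem_univ p)).trans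
      (Finset.single_le_sum (f := fun p' => ∑ p, a p' p) (fun _ _ => Nat.zero_le _)
        (Finset.mem_univ p'))
  have hs : ∀ p' p, s p' p ≤ s0 := fun p' p =>
    ((Finset.single_le_sum (f := fun p => s p' p) (fun _ _ => Nat.zero_le _) (Finset.mem_univ p)).trans
      (Finset.single_le_sum (f := fun p' => ∑ p, s p' p) (fun _ _ => Nat.zero_le _)
        (Finset.mem_univ p'))).trans (Nat.le_succ _)
  have hf'' : ∀ (p' p : FusionPath n c n) (z : ℂ) (h : Admissible n n z),
      f p' p z = (braidRep n c n z h β : Matrix (FusionPath n c n) (FusionPath n c n) ℂ) p' p := hf'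
  let P : Matrix (FusionPath n c n) (FusionPath n c n) ℤ[X] :=
    Matrix.of fun p' p => N p' p * (X ^ (a0 - a p' p) * Epoly n ^ (s0 - s p' p))
  refine ⟨{ P := P
            a := a0
            E := Epoly n ^ s0
            monic := (Epoly_monic n).pow s0
            roots := fun z hz => ?_ }, ?_, ?_⟩
  · rw [map_pow] at hz
    apply Epoly_root n z
    by_contra h
    exact pow_ne_zero _ h hz
  · intro z hz
    simp only [map_pow]
    rw [admissible_iff]
    constructor
    · intro h
      refine ⟨hz, fun h0 => h ?_⟩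
      rw [h0]
      exact zero_pow (by simp [s0])
    · rintro ⟨_, h⟩
      exact pow_ne_zero _ h
  · intro z h
    ext p' p
    have hz0 : z ≠ 0 := h.1
    have hE0 : aeval z (Epoly n) ≠ 0 := ((admissible_iff n z).1 h).2
    rw [← hf'' p' p z h]
    rw [Family.M, Family.num, Family.den, Matrix.smul_apply, smul_eq_mul]
    have h1 : ((aeval z : ℤ[X] →ₐ[ℤ] ℂ).toRingHom.mapMatrix P) p' p
        = aeval z (N p' p * (X ^ (a0 - a p' p) * Epoly n ^ (s0 - s p' p))) := rfl
    rw [h1]
    simp only [map_mul, map_pow, aeval_X]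
    rw [← hN p' p z h]
    have h2 : z ^ a0 = z ^ (a p' p) * z ^ (a0 - a p' p) := by
      rw [← pow_add]; congr 1; have := ha p' p; omega
    have h3 : aeval z (Epoly n) ^ s0 = aeval z (Epoly n) ^ (s p' p) * aeval z (Epoly n) ^ (s0 - s p' p) := by
      rw [← pow_add]; congr 1; have := hs p' p; omega
    rw [h2, h3]
    have e1 : z ^ (a p' p) ≠ 0 := pow_ne_zero _ hz0
    have e2 : z ^ (a0 - a p' p) ≠ 0 := pow_ne_zero _ hz0
    have e3 : aeval z (Epoly n) ^ (s p' p) ≠ 0 := pow_ne_zero _ hE0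
    have e4 : aeval z (Epoly n) ^ (s0 - s p' p) ≠ 0 := pow_ne_zero _ hE0
    field_simp

end Pool.Agent.H69.AMU
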