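import Mathlib
import Pool.Agent.H69.AMU.ColRep

set_option autoImplicit false

namespace Pool.Agent.H69.AMU

open FusionPath Matrix

lemma conj_unknot {z : ℂ} (hz : ‖z‖ = 1) (j : ℕ) :
    (starRingEnd ℂ) (unknot z j) = unknot z j := by
  have h1 : (starRingEnd ℂ) z = z⁻¹ := (Complex.inv_eq_conj hz).symm
  have h2 : (starRingEnd ℂ) (-z ^ 2 - (z ^ 2)⁻¹) = -z ^ 2 - (z ^ 2)⁻¹ := by
    simp only [map_sub, map_neg, map_pow, map_inv₀, h1, inv_pow, inv_inv]
    ring
  induction j using Nat.strong_induction_on with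
  | _ j ih =>
    rcases j with _ | _ | j
    · simp [unknot]
    · exact h2
    · show (starRingEnd ℂ) ((-z ^ 2 - (z ^ 2)⁻¹) * unknot z (j + 1) - unknot z j) = _
      rw [map_sub, map_mul, h2, ih j (by omega), ih (j + 1) (by omega)]
      rfl

variable {n c L : ℕ} {z : ℂ}

/-- The weight of a fusion path. -/
noncomputable def wt (z : ℂ) (p : FusionPath n c L) : ℂ :=
  (∏ j ∈ Finset.range (n + 1), unknot z (p.lab j))⁻¹

/-- The matrix of the invariant form. -/
noncomputable def formMat (n c L : ℕ) (z : ℂ) : Matrix (FusionPath n c L) (FusionPath n c L) ℂ :=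
  Matrix.diagonal fun p => wt z p

lemma wt_ne_zero (hA : Admissible n L z) (p : FusionPath n c L) : wt z p ≠ 0 := by
  apply inv_ne_zero
  rw [Finset.prod_ne_zero_iff]
  intro j _
  exact hA.2.1 _ (p.lab_le j)

lemma det_formMat_ne_zero (hA : Admissible n L z) : (formMat n c L z).det ≠ 0 := by
  rw [formMat, det_diagonal, Finset.prod_ne_zero_iff]
  intro p _
  exact wt_ne_zero hA p

lemma wt_mul (hA : Admissible n L z) {g : ℕ} (hg : g + 1 < n) {p p' : FusionPath n c L}
    (h : AgreeOff (g + 1) p' p) :
    wt z p' * unknot z (p'.lab (g + 1)) = wt z p * unknot z (p.lab (g + 1)) := by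
  have hmem : g + 1 ∈ Finset.range (n + 1) := Finset.mem_range.2 (by omega)
  have h1 : ∀ q : FusionPath n c L, wt z q * unknot z (q.lab (g + 1))
      = (∏ j ∈ (Finset.range (n + 1)).erase (g + 1), unknot z (q.lab j))⁻¹ := by
    intro q
    rw [wt, ← Finset.mul_prod_erase _ _ hmem, mul_inv]
    have h0 : unknot z (q.lab (g + 1)) ≠ 0 := hA.2.1 _ (q.lab_le _)
    field_simp
  rw [h1, h1]
  congr 1
  apply Finset.prod_congr rfl
  intro j hj
  rw [h j (Finset.ne_of_mem_erase hj)]

lemma cupcap_form (hz : ‖z‖ = 1) (hA : Admissible n L z) {g : ℕ} (hg : g + 1 < n) :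
    (cupcap n c L z g)ᴴ * formMat n c L z = formMat n c L z * cupcap n c L z g := by
  ext p' p
  rw [formMat, Matrix.mul_diagonal, Matrix.diagonal_mul, conjTranspose_apply]
  by_cases h : AgreeOff (g + 1) p' p ∧ p.lab g = p.lab (g + 2)
  · have e0 : p'.lab g = p.lab g := h.1 g (by omega)
    have e2 : p'.lab (g + 2) = p.lab (g + 2) := h.1 (g + 2) (by omega)
    rw [cupcap_apply_pos h.1 h.2, cupcap_apply_pos h.1.symm (by rw [e0, e2, h.2])]
    rw [← starRingEnd_apply, map_div₀, conj_unknot hz, conj_unknot hz, e0]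
    have := wt_mul hA hg h.1
    rw [mul_div_assoc', this]
    ring
  · rw [cupcap_apply_neg h, cupcap_apply_neg, star_zero, zero_mul, mul_zero]
    rintro ⟨h1, h2⟩
    apply h
    refine ⟨h1.symm, ?_⟩
    rw [h1 g (by omega), h1 (g + 2) (by omega)]
    exact h2

lemma braidRep_form (hz : ‖z‖ = 1) (hA : Admissible n L z) (β : BraidGroup n) :
    ((braidRep n c L z hA β).val)ᴴ * formMat n c L z
      = formMat n c L z * (braidRep n c L z hA β⁻¹).val := by
  have hconj : star z = z⁻¹ := (Complex.inv_eq_conj hz).symm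
  have hgen : ∀ b, b < n - 1 → ((braidRep n c L z hA (gen n b)).val)ᴴ * formMat n c L z
      = formMat n c L z * (braidRep n c L z hA (gen n b)⁻¹).val := by
    intro b hb
    have h1 : (braidRep n c L z hA (gen n b)⁻¹).val = z⁻¹ • (1 : Matrix _ _ ℂ)
        + z • cupcap n c L z b := by
      rw [map_inv, gen_of_lt hb, braidRep_of]
      rfl
    rw [h1, braidRep_gen hA hb, conjTranspose_add, conjTranspose_smul, conjTranspose_smul,
      conjTranspose_one, add_mul, mul_add, smul_mul_assoc, smul_mul_assoc, mul_smul_comm,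
      mul_smul_comm, cupcap_form hz hA (by omega), star_inv₀, hconj, inv_inv, one_mul, mul_one]
  have hmem : β ∈ Subgroup.closure (gen n '' Set.Iio (n - 1)) := by
    rw [closure_gen]; exact Subgroup.mem_top β
  induction hmem using Subgroup.closure_induction with
  | mem x hx =>
    obtain ⟨b, hb, rfl⟩ := hx
    exact hgen b hb
  | one => simp
  | mul x y _ _ hx hy =>
    rw [map_mul, Units.val_mul, conjTranspose_mul, Matrix.mul_assoc, hx, ← Matrix.mul_assoc, hy,
      _root_.mul_inv_rev, map_mul, Units.val_mul, Matrix.mul_assoc]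
  | inv x _ hx =>
    rw [inv_inv, map_inv]
    rw [map_inv] at hx
    set g := braidRep n c L z hA x
    have h1 : (g⁻¹ : GL (FusionPath n c L) ℂ).val * g.val = 1 := by
      rw [← Units.val_mul, inv_mul_cancel, Units.val_one]
    have h2 : g.val * (g⁻¹ : GL (FusionPath n c L) ℂ).val = 1 := by
      rw [← Units.val_mul, mul_inv_cancel, Units.val_one]
    have h3 : ((g⁻¹ : GL (FusionPath n c L) ℂ).val)ᴴ * (g.val)ᴴ = 1 := by
      rw [← conjTranspose_mul, h2, conjTranspose_one]
    calc ((g⁻¹ : GL (FusionPath n c L) ℂ).val)ᴴ * formMat n c L z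
        = ((g⁻¹ : GL (FusionPath n c L) ℂ).val)ᴴ * (formMat n c L z *
          (g⁻¹ : GL (FusionPath n c L) ℂ).val) * g.val := by
          rw [Matrix.mul_assoc, Matrix.mul_assoc (formMat n c L z), h1, Matrix.mul_one]
      _ = (((g⁻¹ : GL (FusionPath n c L) ℂ).val)ᴴ * (g.val)ᴴ) * formMat n c L z * g.val := by
          rw [← hx]; simp only [Matrix.mul_assoc]
      _ = formMat n c L z * g.val := by rw [h3, Matrix.one_mul]

lemma jonesWenzl_form (hz : ‖z‖ = 1) (hA : Admissible n L z) (m k : ℕ) (h : m + k ≤ n) :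
    (jonesWenzl (cupcap n c L z) z m k)ᴴ * formMat n c L z
      = formMat n c L z * jonesWenzl (cupcap n c L z) z m k := by
  induction k using Nat.strong_induction_on with
  | _ k ih =>
    rcases k with _ | _ | k
    · simp [jonesWenzl]
    · simp [jonesWenzl]
    · have h1 := ih (k + 1) (by omega) (by omega)
      have h2 := cupcap_form (c := c) hz hA (by omega : m + k + 1 < n)
      have h3 : star (unknot z k / unknot z (k + 1)) = unknot z k / unknot z (k + 1) := by
        rw [← starRingEnd_apply, map_div₀, conj_unknot hz, conj_unknot hz]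
      rw [jonesWenzl_succ, conjTranspose_sub, conjTranspose_smul, h3, conjTranspose_mul,
        conjTranspose_mul, sub_mul, mul_sub, h1, smul_mul_assoc, mul_smul_comm]
      congr 2
      calc (jonesWenzl (cupcap n c L z) z m (k + 1))ᴴ * ((cupcap n c L z (m + k))ᴴ *
            (jonesWenzl (cupcap n c L z) z m (k + 1))ᴴ) * formMat n c L z
          = (jonesWenzl (cupcap n c L z) z m (k + 1))ᴴ * ((cupcap n c L z (m + k))ᴴ *
            ((jonesWenzl (cupcap n c L z) z m (k + 1))ᴴ * formMat n c L z)) := by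
            simp only [Matrix.mul_assoc]
        _ = (jonesWenzl (cupcap n c L z) z m (k + 1))ᴴ * (((cupcap n c L z (m + k))ᴴ *
            formMat n c L z) * jonesWenzl (cupcap n c L z) z m (k + 1)) := by
            rw [h1]; simp only [Matrix.mul_assoc]
        _ = ((jonesWenzl (cupcap n c L z) z m (k + 1))ᴴ * formMat n c L z) *
            (cupcap n c L z (m + k) * jonesWenzl (cupcap n c L z) z m (k + 1)) := by
            rw [h2]; simp only [Matrix.mul_assoc]
        _ = formMat n c L z * (jonesWenzl (cupcap n c L z) z m (k + 1) * cupcap n c L z (m + k) *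
            jonesWenzl (cupcap n c L z) z m (k + 1)) := by
            rw [h1]; simp only [Matrix.mul_assoc]

lemma colourIdem_form {k : ℕ} (hz : ‖z‖ = 1) (hA : Admissible (n * k) L z) :
    (colourIdem n k c L z)ᴴ * formMat (n * k) c L z
      = formMat (n * k) c L z * colourIdem n k c L z := by
  have key : ∀ i, i ≤ n → (colourProj (cupcap (n * k) c L z) z k i)ᴴ * formMat (n * k) c L z
      = formMat (n * k) c L z * colourProj (cupcap (n * k) c L z) z k i := by
    intro i
    induction i with
    | zero => intro _; simp [colourProj]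
    | succ i ih =>
      intro hi
      have h0 : (i + 1) * k ≤ n * k := Nat.mul_le_mul_right k hi
      have h1 : (i + 1) * k = i * k + k := by ring
      have h2 := jonesWenzl_form (c := c) hz hA (i * k) k (by omega)
      have h3 := colourProj_comm_jonesWenzl (tlSeq_cupcap (c := c) hA) k i (i * k) k le_rfl
        (by omega)
      rw [colourProj, conjTranspose_mul, Matrix.mul_assoc, ih (by omega), ← Matrix.mul_assoc, h2,
        Matrix.mul_assoc, ← h3]
  exact key n le_rfl

lemma colRep_form {k : ℕ} (hk : 0 < k) (hz : ‖z‖ = 1) (hA : Admissible (n * k) L z)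
    (hkL : k ≤ L + 1) (β : BraidGroup n) :
    ((colRep n k c L hk z hA hkL β).val)ᴴ * formMat (n * k) c L z
      = formMat (n * k) c L z * (colRep n k c L hk z hA hkL β⁻¹).val := by
  rw [colRep_val, colRep_val, conjTranspose_add, conjTranspose_mul, conjTranspose_sub,
    conjTranspose_one, add_mul, mul_add, Matrix.mul_assoc, braidRep_form hz hA, ← Matrix.mul_assoc,
    colourIdem_form hz hA, Matrix.mul_assoc, ← map_inv (cable n k hk),
    ← braidRep_cable_comm hk hA, sub_mul, one_mul, mul_sub, mul_one, colourIdem_form hz hA]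

lemma colRep_form' {k : ℕ} (hk : 0 < k) (hz : ‖z‖ = 1) (hA : Admissible (n * k) L z)
    (hkL : k ≤ L + 1) (β : BraidGroup n) :
    ((colRep n k c L hk z hA hkL β).val)ᴴ * formMat (n * k) c L z *
      (colRep n k c L hk z hA hkL β).val = formMat (n * k) c L z := by
  rw [colRep_form hk hz hA hkL, Matrix.mul_assoc, ← Units.val_mul, ← map_mul, inv_mul_cancel,
    map_one, Units.val_one, Matrix.mul_one]

lemma norm_det_colRep {k : ℕ} (hk : 0 < k) (hz : ‖z‖ = 1) (hA : Admissible (n * k) L z)
    (hkL : k ≤ L + 1) (β : BraidGroup n) :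
    ‖((colRep n k c L hk z hA hkL β).val).det‖ = 1 := by
  have h1 := congrArg Matrix.det (colRep_form' (c := c) hk hz hA hkL β)
  rw [det_mul, det_mul, det_conjTranspose] at h1
  have h2 := det_formMat_ne_zero (c := c) hA
  set d := ((colRep n k c L hk z hA hkL β).val).det
  have h3 : star d * d = 1 := by
    have : (star d * d) * (formMat (n * k) c L z).det = 1 * (formMat (n * k) c L z).det := by
      rw [one_mul]
      calc (star d * d) * (formMat (n * k) c L z).det
          = star d * (formMat (n * k) c L z).det * d := by ring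
        _ = _ := h1
    exact mul_right_cancel₀ h2 this
  have h4 : ‖d‖ * ‖d‖ = 1 := by
    have := congrArg norm h3
    rw [norm_mul, norm_star, norm_one] at this
    exact this
  nlinarith [norm_nonneg d]

/-- A matrix preserving a positive diagonal form, whose trace is maximal, is the identity. -/
lemma eq_one_of_trace_eq_card {ι : Type*} [Fintype ι] [DecidableEq ι] (w : ι → ℝ)
    (hw : ∀ i, 0 < w i) (M : Matrix ι ι ℂ)
    (hM : Mᴴ * Matrix.diagonal (fun i => (w i : ℂ)) * M = Matrix.diagonal (fun i => (w i : ℂ)))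
    (htr : M.trace = Fintype.card ι) : M = 1 := by
  have hcol : ∀ j, ∑ i, w i * ‖M i j‖ ^ 2 = w j := by
    intro j
    have h1 := congrFun (congrFun hM j) j
    rw [Matrix.mul_apply, Matrix.diagonal_apply_eq] at h1
    have h2 : ∀ i, (Mᴴ * Matrix.diagonal (fun i => (w i : ℂ))) j i * M i j
        = ((w i * ‖M i j‖ ^ 2 : ℝ) : ℂ) := by
      intro i
      rw [Matrix.mul_diagonal, conjTranspose_apply]
      have h3 : star (M i j) * M i j = ((‖M i j‖ ^ 2 : ℝ) : ℂ) := by
        have h4 := Complex.conj_mul' (M i j)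
        push_cast
        exact h4
      calc star (M i j) * (w i : ℂ) * M i j = (w i : ℂ) * (star (M i j) * M i j) := by ring
        _ = _ := by rw [h3]; push_cast; ring
    rw [Finset.sum_congr rfl (fun i _ => h2 i)] at h1
    exact_mod_cast h1
  have hcol2 : ∀ j, ∑ i, w i / w j * ‖M i j - (1 : Matrix ι ι ℂ) i j‖ ^ 2
      = 2 - 2 * (M j j).re := by
    intro j
    have h1 : ∀ i, w i / w j * ‖M i j - (1 : Matrix ι ι ℂ) i j‖ ^ 2
        = (w i * ‖M i j‖ ^ 2) / w j + (if i = j then 1 - 2 * (M i j).re else 0) := by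
      intro i
      by_cases hij : i = j
      · subst hij
        have hwi : w i ≠ 0 := (hw i).ne'
        rw [if_pos rfl, Matrix.one_apply_eq, div_self hwi, one_mul, mul_div_cancel_left₀ _ hwi]
        rw [← Complex.normSq_eq_norm_sq, ← Complex.normSq_eq_norm_sq, Complex.normSq_apply,
          Complex.normSq_apply]
        simp
        ring
      · rw [if_neg hij, Matrix.one_apply_ne hij, sub_zero, add_zero]
        ring
    rw [Finset.sum_congr rfl (fun i _ => h1 i), Finset.sum_add_distrib, ← Finset.sum_div, hcol,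
      div_self (hw j).ne', Finset.sum_ite_eq' Finset.univ j, if_pos (Finset.mem_univ _)]
    ring
  have htot : ∑ j, ∑ i, w i / w j * ‖M i j - (1 : Matrix ι ι ℂ) i j‖ ^ 2 = 0 := by
    rw [Finset.sum_congr rfl (fun j _ => hcol2 j), Finset.sum_sub_distrib, ← Finset.mul_sum]
    have h1 : ∑ j, (M j j).re = Fintype.card ι := by
      have := congrArg Complex.re htr
      rw [Matrix.trace, Complex.re_sum] at this
      simpa using this
    rw [h1]
    simp
    ring
  have hnn : ∀ j i, 0 ≤ w i / w j * ‖M i j - (1 : Matrix ι ι ℂ) i j‖ ^ 2 := by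
    intro j i
    have := hw i
    have := hw j
    positivity
  ext i j
  have h1 := (Finset.sum_eq_zero_iff_of_nonneg (fun j _ => Finset.sum_nonneg fun i _ => hnn j i)).1
    htot j (Finset.mem_univ _)
  have h2 := (Finset.sum_eq_zero_iff_of_nonneg (fun i _ => hnn j i)).1 h1 i (Finset.mem_univ _)
  have h3 : w i / w j ≠ 0 := div_ne_zero (hw i).ne' (hw j).ne'
  have h4 : ‖M i j - (1 : Matrix ι ι ℂ) i j‖ ^ 2 = 0 := (mul_eq_zero.1 h2).resolve_left h3
  have h5 : ‖M i j - (1 : Matrix ι ι ℂ) i j‖ = 0 := by
    exact pow_eq_zero_iff (two_ne_zero) |>.1 h4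
  exact sub_eq_zero.1 (norm_eq_zero.1 h5)

end Pool.Agent.H69.AMU
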