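import Mathlib
import Pool.Agent.H69.AMU.Form

set_option autoImplicit false

namespace Pool.Agent.H69.AMU

open FusionPath Matrix

variable {n c L : ℕ}

lemma FusionPath.parity (p : FusionPath n c L) (j : ℕ) (hj : j ≤ n) : p.lab j % 2 = j % 2 := by
  induction j with
  | zero => rw [lab_zero]
  | succ j ih =>
    have h1 := ih (by omega)
    rcases p.lab_step (by omega : j < n) with h | h <;> omega

/-- Explicit unknot values on the circle. -/
lemma unknot_eq_sin (r : ℕ) (hr : 2 ≤ r) (z : ℂ) (s : ℂ)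
    (hs : s * s = 1) (hz : z ^ 2 = s * Complex.exp (Real.pi / r * Complex.I)) (j : ℕ) :
    unknot z j = (-s) ^ j * ((Real.sin ((j + 1) * (Real.pi / r)) / Real.sin (Real.pi / r) : ℝ) : ℂ) := by
  have hsin : Real.sin (Real.pi / r) ≠ 0 := by
    apply ne_of_gt
    apply Real.sin_pos_of_pos_of_lt_pi
    · have : (0 : ℝ) < r := by exact_mod_cast (by omega : 0 < r)
      positivity
    · have h2 : (2 : ℝ) ≤ r := by exact_mod_cast hr
      rw [div_lt_iff₀ (by linarith)]
      nlinarith [Real.pi_pos]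
  have hsinv : s⁻¹ = s := by
    have hs0 : s ≠ 0 := by
      rintro rfl
      simp at hs
    field_simp
    rw [← hs]; ring
  have hδ : -z ^ 2 - (z ^ 2)⁻¹ = -s * ((2 * Real.cos (Real.pi / r) : ℝ) : ℂ) := by
    rw [hz, mul_inv, hsinv, ← Complex.exp_neg]
    have h1 : Complex.exp (Real.pi / r * Complex.I) + Complex.exp (-(Real.pi / r * Complex.I))
        = ((2 * Real.cos (Real.pi / r) : ℝ) : ℂ) := by
      push_cast
      rw [Complex.cos]
      have e : -(↑Real.pi / ↑r * Complex.I) = -(↑Real.pi / ↑r) * Complex.I := by ring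
      rw [e]
      ring
    rw [← h1]
    ring
  induction j using Nat.strong_induction_on with
  | _ j ih =>
    rcases j with _ | _ | j
    · simp only [unknot, pow_zero, Nat.cast_zero, zero_add, one_mul]
      rw [div_self hsin]
      simp
    · show -z ^ 2 - (z ^ 2)⁻¹ = _
      rw [hδ, zero_add, pow_one]
      congr 1
      norm_cast
      rw [eq_div_iff hsin]
      push_cast
      rw [Real.sin_two_mul]
      ring
    · have h0 := ih j (by omega)
      have h1 := ih (j + 1) (by omega)
      have h2 : unknot z (j + 2) = (-z ^ 2 - (z ^ 2)⁻¹) * unknot z (j + 1) - unknot z j := rfl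
      rw [h2, h0, h1, hδ]
      have h3 : Real.sin (((j + 2 : ℕ) + 1) * (Real.pi / r)) = 2 * Real.cos (Real.pi / r) *
          Real.sin (((j + 1 : ℕ) + 1) * (Real.pi / r)) - Real.sin ((j + 1) * (Real.pi / r)) := by
        set θ := Real.pi / (r : ℝ)
        have e1 : (((j + 2 : ℕ) : ℝ) + 1) * θ = ((j : ℝ) + 2) * θ + θ := by push_cast; ring
        have e2 : (((j + 1 : ℕ) : ℝ) + 1) * θ = ((j : ℝ) + 2) * θ := by push_cast; ring
        have e3 : ((j : ℝ) + 1) * θ = ((j : ℝ) + 2) * θ - θ := by ring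
        rw [e1, e2, e3, Real.sin_add, Real.sin_sub]
        ring
      have h4 : (-s) ^ (j + 2) = (-s) ^ j := by
        rw [pow_add, pow_two, neg_mul_neg, hs, mul_one]
      have h5 : -s * (-s) ^ (j + 1) = (-s) ^ j := by
        rw [pow_succ, ← mul_assoc, mul_comm (-s), mul_assoc, neg_mul_neg, hs, mul_one]
      rw [show j + 1 + 1 = j + 2 from rfl, h3, h4]
      calc -s * ((2 * Real.cos (Real.pi / r) : ℝ) : ℂ) * ((-s) ^ (j + 1) *
            ((Real.sin (((j + 1 : ℕ) + 1) * (Real.pi / r)) / Real.sin (Real.pi / r) : ℝ) : ℂ)) -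
            (-s) ^ j * ((Real.sin ((j + 1) * (Real.pi / r)) / Real.sin (Real.pi / r) : ℝ) : ℂ)
          = (-s * (-s) ^ (j + 1)) * ((2 * Real.cos (Real.pi / r) : ℝ) : ℂ) *
            ((Real.sin (((j + 1 : ℕ) + 1) * (Real.pi / r)) / Real.sin (Real.pi / r) : ℝ) : ℂ) -
            (-s) ^ j * ((Real.sin ((j + 1) * (Real.pi / r)) / Real.sin (Real.pi / r) : ℝ) : ℂ) := by
            ring
        _ = _ := by
            rw [h5]
            push_cast
            ring

/-- At the roots of unity closest to `1`, the weights of the form all have the same sign. -/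
lemma exists_pos_wt (r : ℕ) (hr : n + 2 ≤ r) (hL : L ≤ n) (z : ℂ)
    (hz : z ^ 4 = Complex.exp (2 * Real.pi * Complex.I / r)) :
    ∃ ε : ℂ, ε ≠ 0 ∧ ∃ w : FusionPath n c L → ℝ, (∀ p, 0 < w p) ∧ ∀ p, wt z p = ε * w p := by
  have hr2 : 2 ≤ r := by omega
  have hrR : (0 : ℝ) < r := by exact_mod_cast (by omega : 0 < r)
  have hrC : (r : ℂ) ≠ 0 := by exact_mod_cast hrR.ne'
  set e := Complex.exp (Real.pi / r * Complex.I) with he
  have he0 : e ≠ 0 := Complex.exp_ne_zero _
  set s := z ^ 2 / e with hsdef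
  have hz2 : z ^ 2 = s * e := by rw [hsdef]; field_simp
  have hee : e * e = Complex.exp (2 * Real.pi * Complex.I / r) := by
    rw [he, ← Complex.exp_add]
    congr 1
    field_simp
    ring
  have hs : s * s = 1 := by
    rw [hsdef, div_mul_div_comm, hee, ← hz]
    have : z ^ 2 * z ^ 2 = z ^ 4 := by ring
    rw [this]
    apply div_self
    rw [hz]
    exact Complex.exp_ne_zero _
  have hs0 : s ≠ 0 := by
    rintro h
    rw [h] at hs
    simp at hs
  have hsin0 : 0 < Real.sin (Real.pi / r) := by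
    apply Real.sin_pos_of_pos_of_lt_pi
    · positivity
    · have h2 : (2 : ℝ) ≤ r := by exact_mod_cast hr2
      rw [div_lt_iff₀ (by linarith)]
      nlinarith [Real.pi_pos]
  have hpos : ∀ j, j ≤ n → 0 < Real.sin ((j + 1) * (Real.pi / r)) / Real.sin (Real.pi / r) := by
    intro j hj
    apply div_pos _ hsin0
    apply Real.sin_pos_of_pos_of_lt_pi
    · positivity
    · have h2 : ((j : ℝ) + 1) < r := by
        have : j + 1 < r := by omega
        exact_mod_cast this
      rw [← mul_div_assoc, div_lt_iff₀ hrR]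
      nlinarith [Real.pi_pos]
  have hform : ∀ p : FusionPath n c L, ∏ j ∈ Finset.range (n + 1), unknot z (p.lab j)
      = (∏ j ∈ Finset.range (n + 1), (-s) ^ j) *
        ((∏ j ∈ Finset.range (n + 1), (Real.sin ((p.lab j + 1) * (Real.pi / r)) /
          Real.sin (Real.pi / r)) : ℝ) : ℂ) := by
    intro p
    rw [Complex.ofReal_prod, ← Finset.prod_mul_distrib]
    apply Finset.prod_congr rfl
    intro j hj
    have hj' : j ≤ n := by rw [Finset.mem_range] at hj; omega
    rw [unknot_eq_sin r hr2 z s hs hz2]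
    congr 1
    have hpar := p.parity j hj'
    have h2 : (-s) ^ 2 = 1 := by rw [pow_two, neg_mul_neg, hs]
    conv_lhs => rw [← Nat.mod_add_div (p.lab j) 2, hpar]
    conv_rhs => rw [← Nat.mod_add_div j 2]
    rw [pow_add, pow_add, pow_mul, pow_mul, h2, one_pow, one_pow]
  refine ⟨(∏ j ∈ Finset.range (n + 1), (-s) ^ j)⁻¹, ?_, fun p => (∏ j ∈ Finset.range (n + 1),
    (Real.sin ((p.lab j + 1) * (Real.pi / r)) / Real.sin (Real.pi / r)))⁻¹, ?_, ?_⟩
  · apply inv_ne_zero
    rw [Finset.prod_ne_zero_iff]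
    intro j _
    exact pow_ne_zero _ (neg_ne_zero.2 hs0)
  · intro p
    apply inv_pos.2
    apply Finset.prod_pos
    intro j _
    exact hpos _ ((p.lab_le j).trans hL)
  · intro p
    rw [wt, hform, mul_inv, Complex.ofReal_inv]

/-- The rigidity statement at the roots of unity closest to `1`. -/
lemma colRep_eq_one_of_trace {n k c : ℕ} (hk : 0 < k) (r : ℕ) (hr : n * k + 2 ≤ r) (z : ℂ)
    (hz : z ^ 4 = Complex.exp (2 * Real.pi * Complex.I / r)) (hA : Admissible (n * k) (n * k) z)
    (hkL : k ≤ n * k + 1) (β : BraidGroup n)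
    (htr : ((colRep n k c (n * k) hk z hA hkL β).val).trace
      = Fintype.card (FusionPath (n * k) c (n * k))) :
    (colRep n k c (n * k) hk z hA hkL β).val = 1 := by
  obtain ⟨ε, hε, w, hw, hwt⟩ := exists_pos_wt (c := c) (L := n * k) r hr le_rfl z hz
  have hnorm : ‖z‖ = 1 := by
    have h1 : ‖z‖ ^ 4 = 1 := by
      rw [← norm_pow, hz, Complex.norm_exp]
      have : (2 * (Real.pi : ℂ) * Complex.I / r).re = 0 := by
        have e : (2 * (Real.pi : ℂ) * Complex.I / r) = ((2 * Real.pi / r : ℝ) : ℂ) * Complex.I := by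
          push_cast; ring
        rw [e]
        simp
      rw [this, Real.exp_zero]
    exact (pow_eq_one_iff_of_nonneg (norm_nonneg _) (by norm_num)).1 h1
  have hform := colRep_form' (c := c) hk hnorm hA hkL β
  have hdiag : formMat (n * k) c (n * k) z = ε • Matrix.diagonal (fun p => (w p : ℂ)) := by
    rw [formMat, ← Matrix.diagonal_smul]
    congr 1
    funext p
    rw [hwt p]
    rfl
  rw [hdiag, mul_smul_comm, smul_mul_assoc] at hform
  have hform' := smul_right_injective _ hε hform
  exact eq_one_of_trace_eq_card w hw _ hform' htr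

end Pool.Agent.H69.AMU
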