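import Mathlib
import Pool.Agent.H69.AMU.ColRep

set_option autoImplicit false

namespace Pool.Agent.H69.AMU

open FusionPath Matrix

variable {N c L : ℕ}

/-- Raising the bound on the labels beyond the length of the paths changes nothing. -/
noncomputable def liftPath (h : N ≤ L) : FusionPath N c N ≃ FusionPath N c L where
  toFun p :=
    { label := fun i => ⟨p.label i, by have := (p.label i).2; omega⟩
      start := p.start
      finish := p.finish
      step := p.step }
  invFun p :=
    { label := fun i => ⟨p.label i, by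
        have h1 := p.lab_le_pos i (by omega)
        rw [lab_of_le p (by omega : (i : ℕ) ≤ N)] at h1
        have h2 : (i : ℕ) < N + 1 := i.2
        have h3 : ((p.label ⟨i, h2⟩ : Fin (L + 1)) : ℕ) = (p.label i : ℕ) := rfl
        omega⟩
      start := p.start
      finish := p.finish
      step := p.step }
  left_inv p := by
    apply FusionPath.ext
    funext i
    rfl
  right_inv p := by
    apply FusionPath.ext
    funext i
    rfl

lemma lab_liftPath (h : N ≤ L) (p : FusionPath N c N) (j : ℕ) : (liftPath h p).lab j = p.lab j := rfl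

/-- The isomorphism of matrix algebras induced by `liftPath`. -/
noncomputable def liftAlg (N c L : ℕ) (h : N ≤ L) : Matrix (FusionPath N c L) (FusionPath N c L) ℂ ≃ₐ[ℂ]
    Matrix (FusionPath N c N) (FusionPath N c N) ℂ :=
  Matrix.reindexAlgEquiv ℂ ℂ (liftPath h).symm

lemma liftAlg_apply (h : N ≤ L) (M : Matrix (FusionPath N c L) (FusionPath N c L) ℂ)
    (p' p : FusionPath N c N) : liftAlg N c L h M p' p = M (liftPath h p') (liftPath h p) := rfl

lemma liftAlg_cupcap (h : N ≤ L) (A : ℂ) (g : ℕ) :
    liftAlg N c L h (cupcap N c L A g) = cupcap N c N A g := by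
  ext p' p
  rw [liftAlg_apply]
  by_cases hc : AgreeOff (g + 1) p' p ∧ p.lab g = p.lab (g + 2)
  · rw [cupcap_apply_pos hc.1 hc.2]
    have h1 : AgreeOff (g + 1) (liftPath h p') (liftPath h p) := hc.1
    rw [cupcap_apply_pos h1 hc.2]
    rfl
  · rw [cupcap_apply_neg hc, cupcap_apply_neg]
    intro hc'
    exact hc hc'

lemma map_jonesWenzl {R S : Type*} [Ring R] [Algebra ℂ R] [Ring S] [Algebra ℂ S] (φ : R →ₐ[ℂ] S)
    (u : ℕ → R) (A : ℂ) (m k : ℕ) :
    φ (jonesWenzl u A m k) = jonesWenzl (fun i => φ (u i)) A m k := by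
  induction k using Nat.strong_induction_on with
  | _ k ih =>
    rcases k with _ | _ | k
    · simp [jonesWenzl]
    · simp [jonesWenzl]
    · rw [jonesWenzl_succ, jonesWenzl_succ, map_sub, map_smul, map_mul, map_mul, ih (k + 1) (by omega)]

lemma map_colourProj {R S : Type*} [Ring R] [Algebra ℂ R] [Ring S] [Algebra ℂ S] (φ : R →ₐ[ℂ] S)
    (u : ℕ → R) (A : ℂ) (k i : ℕ) :
    φ (colourProj u A k i) = colourProj (fun i => φ (u i)) A k i := by
  induction i with
  | zero => simp [colourProj]
  | succ i ih => rw [colourProj, map_mul, ih, map_jonesWenzl, colourProj]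

lemma liftAlg_colourIdem {n k : ℕ} (h : n * k ≤ L) (A : ℂ) :
    liftAlg (n * k) c L h (colourIdem n k c L A) = colourIdem n k c (n * k) A := by
  have h1 := map_colourProj (liftAlg (n * k) c L h).toAlgHom (cupcap (n * k) c L A) A k n
  have h2 : (fun i => (liftAlg (n * k) c L h).toAlgHom (cupcap (n * k) c L A i))
      = cupcap (n * k) c (n * k) A := by
    funext i
    exact liftAlg_cupcap h A i
  rw [h2] at h1
  exact h1

lemma Admissible.lower {A : ℂ} (h : N ≤ L) (hA : Admissible N L A) : Admissible N N A :=
  ⟨hA.1, fun j hj => hA.2.1 j (by omega), Or.inr le_rfl⟩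

lemma liftAlg_braidRep (h : N ≤ L) {A : ℂ} (hA : Admissible N L A) (β : BraidGroup N) :
    liftAlg N c L h (braidRep N c L A hA β).val = (braidRep N c N A (hA.lower h) β).val := by
  have key : (Units.map (liftAlg N c L h : _ →* _)).comp (braidRep N c L A hA)
      = braidRep N c N A (hA.lower h) := by
    apply PresentedGroup.ext
    intro g
    rw [MonoidHom.comp_apply, braidRep_of, braidRep_of]
    apply Units.ext
    show liftAlg N c L h (A • (1 : Matrix (FusionPath N c L) (FusionPath N c L) ℂ)
      + A⁻¹ • cupcap N c L A g) = A • (1 : Matrix (FusionPath N c N) (FusionPath N c N) ℂ)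
      + A⁻¹ • cupcap N c N A g
    rw [map_add, map_smul, map_smul, map_one, liftAlg_cupcap]
  have := congrArg (fun f => (f β).val) key
  exact this

lemma liftAlg_colRep {n k : ℕ} (hk : 0 < k) (h : n * k ≤ L) {A : ℂ} (hA : Admissible (n * k) L A)
    (hkL : k ≤ L + 1) (hkL' : k ≤ n * k + 1) (β : BraidGroup n) :
    liftAlg (n * k) c L h (colRep n k c L hk A hA hkL β).val
      = (colRep n k c (n * k) hk A (hA.lower h) hkL' β).val := by
  rw [colRep_val, colRep_val, map_add, map_sub, map_mul, map_one, liftAlg_braidRep,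
    liftAlg_colourIdem]

end Pool.Agent.H69.AMU
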