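import Mathlib
import Pool.Agent.H69.AMU.Fam
import Pool.Agent.H69.AMU.Positive
import Pool.Agent.H69.AMU.Reindex

set_option autoImplicit false

namespace Pool.Agent.H69.AMU

open FusionPath Matrix Polynomial

variable {N c : ℕ}

lemma RegMat.sub_smul {f : ℂ → ℂ} (hf : Reg N f)
    {M M' : ∀ z : ℂ, Admissible N N z → Matrix (FusionPath N c N) (FusionPath N c N) ℂ}
    (hM : RegMat N c M) (hM' : RegMat N c M') : RegMat N c (fun z h => M z h - f z • M' z h) := by
  intro p' p
  obtain ⟨u, hu, hu'⟩ := hM p' p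
  obtain ⟨v, hv, hv'⟩ := hM' p' p
  refine ⟨fun z => u z + (((-1 : ℤ) : ℂ) * f z) * v z, hu.add (((Reg.const (-1)).mul hf).mul hv),
    fun z h => ?_⟩
  show _ = (M z h - f z • M' z h) p' p
  rw [Matrix.sub_apply, Matrix.smul_apply, smul_eq_mul, ← hu' z h, ← hv' z h]
  push_cast
  ring

lemma RegMat.add {M M' : ∀ z : ℂ, Admissible N N z → Matrix (FusionPath N c N) (FusionPath N c N) ℂ}
    (hM : RegMat N c M) (hM' : RegMat N c M') : RegMat N c (fun z h => M z h + M' z h) := by
  intro p' p
  obtain ⟨u, hu, hu'⟩ := hM p' p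
  obtain ⟨v, hv, hv'⟩ := hM' p' p
  refine ⟨fun z => u z + v z, hu.add hv, fun z h => ?_⟩
  show _ = (M z h + M' z h) p' p
  rw [Matrix.add_apply, ← hu' z h, ← hv' z h]

lemma regMat_jonesWenzl (m k : ℕ) (hk : k ≤ N + 1) :
    RegMat N c (fun z _ => jonesWenzl (cupcap N c N z) z m k) := by
  induction k using Nat.strong_induction_on with
  | _ k ih =>
    rcases k with _ | _ | k
    · exact RegMat.one
    · exact RegMat.one
    · have h1 := ih (k + 1) (by omega) (by omega)
      exact RegMat.sub_smul ((Reg.unknot k).mul (Reg.inv_unknot (k + 1) (by omega))) h1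
        (RegMat.mul (RegMat.mul h1 (RegMat.cupcap (m + k))) h1)

lemma regMat_colourProj (k i : ℕ) (hk : k ≤ N + 1) :
    RegMat N c (fun z _ => colourProj (cupcap N c N z) z k i) := by
  induction i with
  | zero => exact RegMat.one
  | succ i ih => exact RegMat.mul ih (regMat_jonesWenzl (i * k) k hk)

lemma regMat_colRep {n k : ℕ} (hk : 0 < k) (hkN : k ≤ n * k + 1) (β : BraidGroup n) :
    RegMat (n * k) c (fun z h => (colRep n k c (n * k) hk z h hkN β).val) := by
  have h1 := regMat_colourProj (N := n * k) (c := c) k n hkN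
  have h2 := regMat_braidRep (n := n * k) (c := c) (cable n k hk β)
  have h3 := RegMat.add (RegMat.mul h2 h1) (RegMat.sub_smul Reg.one RegMat.one h1)
  refine RegMat.congr h3 fun z h => ?_
  rw [colRep_val, one_smul]
  rfl

/-- The family attached to a regular matrix function. -/
theorem exists_family_of_regMat
    {M : ∀ z : ℂ, Admissible N N z → Matrix (FusionPath N c N) (FusionPath N c N) ℂ}
    (hM : RegMat N c M) : ∃ F : Family (FusionPath N c N),
    (∀ z : ℂ, z ≠ 0 → (aeval z F.E ≠ 0 ↔ Admissible N N z)) ∧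
    ∀ z (h : Admissible N N z), F.M z = M z h := by
  classical
  choose f hf hf' using hM
  choose P0 a s hN using hf
  let a0 : ℕ := ∑ p', ∑ p, a p' p
  let s0 : ℕ := (∑ p', ∑ p, s p' p) + 1
  have ha : ∀ p' p, a p' p ≤ a0 := fun p' p =>
    (Finset.single_le_sum (f := fun p => a p' p) (fun _ _ => Nat.zero_le _) (Finset.mem_univ p)).trans
      (Finset.single_le_sum (f := fun p' => ∑ p, a p' p) (fun _ _ => Nat.zero_le _)
        (Finset.mem_univ p'))
  have hs : ∀ p' p, s p' p ≤ s0 := fun p' p =>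
    ((Finset.single_le_sum (f := fun p => s p' p) (fun _ _ => Nat.zero_le _) (Finset.mem_univ p)).trans
      (Finset.single_le_sum (f := fun p' => ∑ p, s p' p) (fun _ _ => Nat.zero_le _)
        (Finset.mem_univ p'))).trans (Nat.le_succ _)
  let P : Matrix (FusionPath N c N) (FusionPath N c N) ℤ[X] :=
    Matrix.of fun p' p => P0 p' p * (X ^ (a0 - a p' p) * Epoly N ^ (s0 - s p' p))
  refine ⟨{ P := P
            a := a0
            E := Epoly N ^ s0
            monic := (Epoly_monic N).pow s0
            roots := fun z hz => ?_ }, ?_, ?_⟩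
  · rw [map_pow] at hz
    apply Epoly_root N z
    by_contra h
    exact pow_ne_zero _ h hz
  · intro z hz
    simp only [map_pow]
    rw [admissible_iff]
    constructor
    · intro h
      refine ⟨hz, fun h0 => h ?_⟩
      rw [h0]
      exact zero_pow (by simp [s0])
    · rintro ⟨_, h⟩
      exact pow_ne_zero _ h
  · intro z h
    ext p' p
    have hz0 : z ≠ 0 := h.1
    have hE0 : aeval z (Epoly N) ≠ 0 := ((admissible_iff N z).1 h).2
    rw [← hf' p' p z h]
    rw [Family.M, Family.num, Family.den, Matrix.smul_apply, smul_eq_mul]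
    have h1 : ((aeval z : ℤ[X] →ₐ[ℤ] ℂ).toRingHom.mapMatrix P) p' p
        = aeval z (P0 p' p * (X ^ (a0 - a p' p) * Epoly N ^ (s0 - s p' p))) := rfl
    rw [h1]
    simp only [map_mul, map_pow, aeval_X]
    rw [← hN p' p z h]
    have h2 : z ^ a0 = z ^ (a p' p) * z ^ (a0 - a p' p) := by
      rw [← pow_add]; congr 1; have := ha p' p; omega
    have h3 : aeval z (Epoly N) ^ s0 = aeval z (Epoly N) ^ (s p' p) * aeval z (Epoly N) ^ (s0 - s p' p) := by
      rw [← pow_add]; congr 1; have := hs p' p; omega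
    rw [h2, h3]
    have e1 : z ^ (a p' p) ≠ 0 := pow_ne_zero _ hz0
    have e2 : z ^ (a0 - a p' p) ≠ 0 := pow_ne_zero _ hz0
    have e3 : aeval z (Epoly N) ^ (s p' p) ≠ 0 := pow_ne_zero _ hE0
    have e4 : aeval z (Epoly N) ^ (s0 - s p' p) ≠ 0 := pow_ne_zero _ hE0
    field_simp

/-! ### The value at `1` -/

lemma admissible_one : Admissible N N 1 := by
  refine ⟨one_ne_zero, ?_, Or.inr le_rfl⟩
  have h : ∀ j, unknot 1 j = (-1) ^ j * ((j : ℂ) + 1) := by
    intro j
    induction j using Nat.strong_induction_on with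
    | _ j ih =>
      rcases j with _ | _ | j
      · simp [unknot]
      · simp [unknot]
        norm_num
      · have h2 : unknot 1 (j + 2) = (-1 ^ 2 - (1 ^ 2)⁻¹) * unknot 1 (j + 1) - unknot 1 j := rfl
        rw [h2, ih j (by omega), ih (j + 1) (by omega)]
        push_cast
        ring
  intro j _
  rw [h]
  apply mul_ne_zero (pow_ne_zero _ (by norm_num))
  exact_mod_cast Nat.succ_ne_zero j

lemma braidRep_one_of_pure {L : ℕ} (hA : Admissible N L 1) (γ : BraidGroup N)
    (hγ : γ ∈ pureBraid N) : braidRep N c L 1 hA γ = 1 := by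
  have hle : pureBraid N ≤ (braidRep N c L 1 hA).ker := by
    rw [pureBraid_eq]
    apply Subgroup.normalClosure_le_normal
    rintro _ ⟨i, hi, rfl⟩
    show braidRep N c L 1 hA (gen N i * gen N i) = 1
    rw [map_mul]
    apply Units.ext
    rw [Units.val_mul, braidRep_gen hA hi, Units.val_one]
    simp only [one_smul, inv_one, add_mul, mul_add, one_mul, mul_one,
      cupcap_sq hA (by omega : i + 1 < N)]
    have h2 : unknot 1 1 = -2 := by
      show (-(1 : ℂ) ^ 2 - ((1 : ℂ) ^ 2)⁻¹) = -2
      norm_num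
    rw [h2]
    match_scalars <;> norm_num
  exact hle hγ

lemma colRep_one_of_pure {n k L : ℕ} (hk : 0 < k) (z : ℂ) (hz : z = 1)
    (hA : Admissible (n * k) L z) (hkL : k ≤ L + 1) (β : BraidGroup n) (hβ : β ∈ pureBraid n) :
    (colRep n k c L hk z hA hkL β).val = 1 := by
  subst hz
  rw [colRep_val, braidRep_one_of_pure hA _ (cable_pure n k hk hβ)]
  simp

end Pool.Agent.H69.AMU
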