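import Mathlib
import Pool.Agent.H69.AMU.ColFam

set_option autoImplicit false

namespace Pool.Agent.H69.AMU

open FusionPath Matrix Polynomial Filter Topology

section
variable {n k : ℕ} (c : ℕ) (hk : 0 < k) (hkN : k ≤ n * k + 1)

open Classical in
/-- The coloured representation along the unit circle. -/
noncomputable def Mt (β : BraidGroup n) (t : ℝ) :
    Matrix (FusionPath (n * k) c (n * k)) (FusionPath (n * k) c (n * k)) ℂ :=
  if h : Admissible (n * k) (n * k) (Complex.exp (t * Complex.I)) then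
    (colRep n k c (n * k) hk _ h hkN β).val else 1

lemma Mt_mul (β γ : BraidGroup n) (t : ℝ) :
    Mt c hk hkN (β * γ) t = Mt c hk hkN β t * Mt c hk hkN γ t := by
  unfold Mt
  by_cases h : Admissible (n * k) (n * k) (Complex.exp (t * Complex.I))
  · rw [dif_pos h, dif_pos h, dif_pos h, map_mul, Units.val_mul]
  · rw [dif_neg h, dif_neg h, dif_neg h, Matrix.one_mul]

lemma Mt_one (t : ℝ) : Mt c hk hkN (1 : BraidGroup n) t = 1 := by
  unfold Mt
  by_cases h : Admissible (n * k) (n * k) (Complex.exp (t * Complex.I))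
  · rw [dif_pos h, map_one, Units.val_one]
  · rw [dif_neg h]

lemma Mt_zero {β : BraidGroup n} (hβ : β ∈ pureBraid n) : Mt c hk hkN β 0 = 1 := by
  unfold Mt
  by_cases h : Admissible (n * k) (n * k) (Complex.exp ((0 : ℝ) * Complex.I))
  · rw [dif_pos h]
    exact colRep_one_of_pure hk _ (by simp) h hkN β hβ
  · rw [dif_neg h]

/-- The entries of the curve have derivative `D` at `0`. -/
def HasD (β : BraidGroup n)
    (D : Matrix (FusionPath (n * k) c (n * k)) (FusionPath (n * k) c (n * k)) ℂ) : Prop :=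
  ∀ p' p, HasDerivAt (fun t : ℝ => Mt c hk hkN β t p' p) (D p' p) 0

variable {c hk hkN}

lemma HasD.mul {β γ : BraidGroup n} (hβ : β ∈ pureBraid n) (hγ : γ ∈ pureBraid n)
    {D E : Matrix (FusionPath (n * k) c (n * k)) (FusionPath (n * k) c (n * k)) ℂ}
    (hD : HasD c hk hkN β D) (hE : HasD c hk hkN γ E) : HasD c hk hkN (β * γ) (D + E) := by
  intro p' p
  have h1 : ∀ q, HasDerivAt (fun t : ℝ => Mt c hk hkN β t p' q * Mt c hk hkN γ t q p)
      (D p' q * (1 : Matrix _ _ ℂ) q p + (1 : Matrix _ _ ℂ) p' q * E q p) 0 := by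
    intro q
    have := (hD p' q).mul (hE q p)
    rw [Mt_zero c hk hkN hβ, Mt_zero c hk hkN hγ] at this
    exact this
  have h2 := HasDerivAt.fun_sum (u := Finset.univ) (fun q _ => h1 q)
  have h3 : (∑ q, (D p' q * (1 : Matrix _ _ ℂ) q p + (1 : Matrix _ _ ℂ) p' q * E q p))
      = (D + E) p' p := by
    rw [Finset.sum_add_distrib]
    have e1 := (Matrix.mul_apply (M := D) (N := 1) (i := p') (k := p)).symm
    have e2 := (Matrix.mul_apply (M := 1) (N := E) (i := p') (k := p)).symm
    rw [e1, e2, Matrix.mul_one, Matrix.one_mul, Matrix.add_apply]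
  rw [h3] at h2
  refine h2.congr_of_eventuallyEq (Eventually.of_forall fun t => ?_)
  show Mt c hk hkN (β * γ) t p' p = ∑ q, Mt c hk hkN β t p' q * Mt c hk hkN γ t q p
  rw [Mt_mul, Matrix.mul_apply]

lemma HasD.one : HasD c hk hkN (1 : BraidGroup n) 0 := by
  intro p' p
  have : (fun t : ℝ => Mt c hk hkN (1 : BraidGroup n) t p' p) = fun _ => (1 : Matrix _ _ ℂ) p' p := by
    funext t
    rw [Mt_one]
  rw [this]
  exact hasDerivAt_const _ _

lemma HasD.unique {β : BraidGroup n}
    {D E : Matrix (FusionPath (n * k) c (n * k)) (FusionPath (n * k) c (n * k)) ℂ}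
    (hD : HasD c hk hkN β D) (hE : HasD c hk hkN β E) : D = E := by
  ext p' p
  exact (hD p' p).unique (hE p' p)

/-- The family curve agrees with `Mt` near `0`. -/
lemma curve_eventuallyEq (β : BraidGroup n) (F : Family (FusionPath (n * k) c (n * k)))
    (hF : ∀ z : ℂ, z ≠ 0 → (aeval z F.E ≠ 0 ↔ Admissible (n * k) (n * k) z))
    (hF' : ∀ z (h : Admissible (n * k) (n * k) z), F.M z = (colRep n k c (n * k) hk z h hkN β).val) :
    ∀ᶠ t : ℝ in 𝓝 0, F.curve t = Mt c hk hkN β t := by
  have h1 : aeval (1 : ℂ) F.E ≠ 0 := (hF 1 one_ne_zero).2 admissible_one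
  have hc : Continuous (fun t : ℝ => aeval (Complex.exp (t * Complex.I)) F.E) :=
    (Polynomial.continuous_aeval F.E).comp (by fun_prop)
  have h2 : aeval (Complex.exp (((0 : ℝ) : ℂ) * Complex.I)) F.E ≠ 0 := by simpa using h1
  filter_upwards [hc.continuousAt.eventually_ne h2] with t ht
  have h : Admissible (n * k) (n * k) (Complex.exp (t * Complex.I)) :=
    (hF _ (Complex.exp_ne_zero _)).1 ht
  rw [Family.curve, Mt, dif_pos h, hF' _ h]

lemma exists_hasD (β : BraidGroup n) : ∃ D, HasD c hk hkN β D := by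
  obtain ⟨F, hF, hF'⟩ := exists_family_of_regMat (regMat_colRep (c := c) hk hkN β)
  have h1 : aeval (1 : ℂ) F.E ≠ 0 := (hF 1 one_ne_zero).2 admissible_one
  obtain ⟨D, hD⟩ := F.hasDerivAt_curve_entry h1
  have h2 := curve_eventuallyEq β F hF hF'
  refine ⟨D, fun p' p => (hD p' p).congr_of_eventuallyEq ?_⟩
  filter_upwards [h2] with t ht
  rw [ht]

lemma HasD.inv {β : BraidGroup n} (hβ : β ∈ pureBraid n)
    {D : Matrix (FusionPath (n * k) c (n * k)) (FusionPath (n * k) c (n * k)) ℂ}
    (hD : HasD c hk hkN β D) : HasD c hk hkN β⁻¹ (-D) := by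
  obtain ⟨E, hE⟩ := exists_hasD (c := c) (hk := hk) (hkN := hkN) β⁻¹
  have h1 := hD.mul hβ (inv_mem hβ) hE
  rw [mul_inv_cancel] at h1
  have h2 := h1.unique HasD.one
  have h3 : E = -D := by
    rw [eq_neg_iff_add_eq_zero, add_comm]
    exact h2
  rw [← h3]
  exact hE

/-- The derivative at `1` vanishes on the derived subgroup of the pure braid group. -/
lemma hasD_zero_of_commutator {β : BraidGroup n} (hβ : β ∈ ⁅pureBraid n, pureBraid n⁆) :
    β ∈ pureBraid n ∧ HasD c hk hkN β 0 := by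
  let K : Subgroup (BraidGroup n) :=
    { carrier := {x | x ∈ pureBraid n ∧ HasD c hk hkN x 0}
      mul_mem' := by
        rintro x y ⟨hx, hx'⟩ ⟨hy, hy'⟩
        refine ⟨mul_mem hx hy, ?_⟩
        have := hx'.mul hx hy hy'
        rwa [add_zero] at this
      one_mem' := ⟨one_mem _, HasD.one⟩
      inv_mem' := by
        rintro x ⟨hx, hx'⟩
        refine ⟨inv_mem hx, ?_⟩
        have := hx'.inv hx
        rwa [neg_zero] at this }
  have hle : ⁅pureBraid n, pureBraid n⁆ ≤ K := by
    rw [Subgroup.commutator_le]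
    intro g hg h hh
    obtain ⟨D, hD⟩ := exists_hasD (c := c) (hk := hk) (hkN := hkN) g
    obtain ⟨E, hE⟩ := exists_hasD (c := c) (hk := hk) (hkN := hkN) h
    refine ⟨?_, ?_⟩
    · exact mul_mem (mul_mem (mul_mem hg hh) (inv_mem hg)) (inv_mem hh)
    · have h1 := ((hD.mul hg hh hE).mul (mul_mem hg hh) (inv_mem hg) (hD.inv hg)).mul
        (mul_mem (mul_mem hg hh) (inv_mem hg)) (inv_mem hh) (hE.inv hh)
      have h2 : D + E + -D + -E = 0 := by abel
      rw [h2] at h1
      exact h1
  exact hle hβ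

end

end Pool.Agent.H69.AMU
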