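import Mathlib
import Pool.Agent.H69.AMU.Deriv

set_option autoImplicit false

namespace Pool.Agent.H69.AMU

open FusionPath Matrix Polynomial Filter Topology

lemma pos_of_isPrimitiveRoot_of_pow {A : ℂ} {r : ℕ} (hr : 0 < r) (hA : IsPrimitiveRoot (A ^ 4) r) :
    0 < orderOf A ∧ r ∣ orderOf A := by
  have h1 : A ^ (4 * r) = 1 := by rw [pow_mul]; exact hA.pow_eq_one
  constructor
  · exact orderOf_pos_iff.2 (isOfFinOrder_iff_pow_eq_one.2 ⟨4 * r, by omega, h1⟩)
  · apply hA.dvd_of_pow_eq_one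
    rw [← pow_mul, mul_comm, pow_mul, pow_orderOf_eq_one, one_pow]

/-- Galois conjugating `A` so that `A ^ 4` becomes the root of unity closest to `1`. -/
lemma exists_conjugate {A : ℂ} {r : ℕ} (hr : 0 < r) (hA : IsPrimitiveRoot (A ^ 4) r) :
    ∃ z : ℂ, IsPrimitiveRoot z (orderOf A) ∧
      z ^ 4 = Complex.exp (2 * Real.pi * Complex.I / r) := by
  obtain ⟨hpos, hdvd⟩ := pos_of_isPrimitiveRoot_of_pow hr hA
  have hA' : IsPrimitiveRoot A (orderOf A) := IsPrimitiveRoot.orderOf A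
  have hexp : IsPrimitiveRoot (Complex.exp (2 * Real.pi * Complex.I / r)) r :=
    Complex.isPrimitiveRoot_exp r hr.ne'
  have hrne : NeZero r := ⟨hr.ne'⟩
  have hdne : NeZero (orderOf A) := ⟨hpos.ne'⟩
  obtain ⟨i, _, hi, hi'⟩ := hA.isPrimitiveRoot_iff.1 hexp
  obtain ⟨v, hv⟩ := ZMod.unitsMap_surjective hdvd (ZMod.unitOfCoprime i hi)
  set u := (v : ZMod (orderOf A)).val with hu
  have hcop : Nat.Coprime u (orderOf A) := ZMod.val_coe_unit_coprime v
  have hmod : u ≡ i [MOD r] := by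
    rw [← ZMod.natCast_eq_natCast_iff]
    have h1 := congrArg Units.val hv
    rw [ZMod.unitsMap_val, ZMod.coe_unitOfCoprime] at h1
    rw [← h1, hu]
    exact ZMod.natCast_val _
  refine ⟨A ^ u, hA'.pow_of_coprime u hcop, ?_⟩
  rw [← hi', ← pow_mul, mul_comm, pow_mul]
  rw [← pow_mod_orderOf (A ^ 4) u, ← pow_mod_orderOf (A ^ 4) i, ← hA.eq_orderOf]
  congr 1

section
variable {n k : ℕ} (c : ℕ) (hk : 0 < k) (hkN : k ≤ n * k + 1)

lemma admissible_of_primitive' {N r : ℕ} (hr : N + 2 ≤ r) {A : ℂ} (hA : IsPrimitiveRoot (A ^ 4) r) :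
    Admissible N N A :=
  (admissible_of_primitive N r (by omega) A hA).lower (by omega)

/-- Rigidity: a braid in the derived subgroup of the pure braid group whose image has finite order
at infinitely many levels acts trivially at all levels. -/
theorem rigidity (β : BraidGroup n) (hβ : β ∈ ⁅pureBraid n, pureBraid n⁆)
    (R : Set ℕ) (hR : R.Infinite)
    (hfin : ∀ r ∈ R, 0 < r ∧ ∃ A : ℂ, IsPrimitiveRoot (A ^ 4) r ∧
      ∃ h : Admissible (n * k) (n * k) A, ∃ m : ℕ, m ≠ 0 ∧
        (colRep n k c (n * k) hk A h hkN β).val ^ m = 1)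
    (r : ℕ) (hr : n * k + 2 ≤ r) (A : ℂ) (hA : IsPrimitiveRoot (A ^ 4) r)
    (h : Admissible (n * k) (n * k) A) : (colRep n k c (n * k) hk A h hkN β).val = 1 := by
  rcases isEmpty_or_nonempty (FusionPath (n * k) c (n * k)) with hempty | hne
  · exact Subsingleton.elim _ _
  obtain ⟨F, hF, hF'⟩ := exists_family_of_regMat (regMat_colRep (c := c) hk hkN β)
  obtain ⟨hpure, hD⟩ := hasD_zero_of_commutator (c := c) (hk := hk) (hkN := hkN) hβ
  have hE1 : aeval (1 : ℂ) F.E ≠ 0 := (hF 1 one_ne_zero).2 admissible_one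
  have hM1 : F.M 1 = 1 := by
    rw [hF' 1 admissible_one]
    exact colRep_one_of_pure hk 1 rfl _ hkN β hpure
  -- the infinite set of orders
  choose! hpos f hf1 hf2 mm hmm hmm' using hfin
  have hS : ((fun r => orderOf (f r)) '' R).Infinite := by
    intro hfinite
    apply hR
    obtain ⟨B, hB⟩ := hfinite.bddAbove
    apply (Set.finite_Iic B).subset
    intro r' hr'
    have h1 := pos_of_isPrimitiveRoot_of_pow (hpos r' hr') (hf1 r' hr')
    have h2 : r' ≤ orderOf (f r') := Nat.le_of_dvd h1.1 h1.2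
    exact h2.trans (hB ⟨r', hr', rfl⟩)
  have hdet : ∀ z : ℂ, ‖z‖ = 1 → aeval z F.E ≠ 0 → ‖(F.M z).det‖ = 1 := by
    intro z hz hE
    have hz0 : z ≠ 0 := by
      rintro rfl
      simp at hz
    have hadm := (hF z hz0).1 hE
    rw [hF' z hadm]
    exact norm_det_colRep hk hz hadm hkN β
  have hfinF : ∀ N ∈ ((fun r => orderOf (f r)) '' R), ∃ ζ : ℂ, IsPrimitiveRoot ζ N ∧
      aeval ζ F.E ≠ 0 ∧ F.FiniteAt ζ := by
    rintro _ ⟨r', hr', rfl⟩
    have hadm := hf2 r' hr'
    refine ⟨f r', IsPrimitiveRoot.orderOf _, (hF _ hadm.1).2 hadm, mm r', hmm r' hr', 1, ?_⟩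
    rw [hF' _ hadm, hmm' r' hr', one_smul]
  obtain ⟨Q, hQ, hQ2⟩ := F.exists_quotients _ hS hdet hfinF
  have hzero : ∀ i j, HasDerivAt (fun t : ℝ => F.curve t i j) 0 0 := by
    intro i j
    refine (hD i j).congr_of_eventuallyEq ?_
    filter_upwards [curve_eventuallyEq β F hF hF'] with t ht
    rw [ht]
  have htr : ∀ z : ℂ, ‖z‖ = 1 → ∀ hadm : Admissible (n * k) (n * k) z,
      ((colRep n k c (n * k) hk z hadm hkN β).val).trace
        = Fintype.card (FusionPath (n * k) c (n * k)) := by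
    intro z hz hadm
    have h1 := Family.q_one_eq_card (F := F) hE1 hM1 hQ hQ2 hzero (Complex.arg z)
    have h2 : Complex.exp (Complex.arg z * Complex.I) = z := by
      have := Complex.norm_mul_exp_arg_mul_I z
      rwa [hz, Complex.ofReal_one, one_mul] at this
    rw [h2] at h1
    rw [← h1, ← Family.trace_eq_q hQ hadm.1 ((hF z hadm.1).2 hadm) 1, pow_one, hF' z hadm]
  -- the conjugate point
  have hr0 : 0 < r := by omega
  obtain ⟨z, hz, hz4⟩ := exists_conjugate hr0 hA
  have hz4' : IsPrimitiveRoot (z ^ 4) r := by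
    rw [hz4]
    exact Complex.isPrimitiveRoot_exp r hr0.ne'
  have hadm := admissible_of_primitive' hr hz4'
  have hordpos := (pos_of_isPrimitiveRoot_of_pow hr0 hA).1
  have hznorm : ‖z‖ = 1 := hz.norm'_eq_one hordpos.ne'
  have hone := colRep_eq_one_of_trace (c := c) hk r hr z hz4 hadm hkN β (htr z hznorm hadm)
  -- transport back to A
  have hnumz : F.num z = F.den z • (1 : Matrix _ _ ℂ) := by
    rw [F.num_eq hadm.1 ((hF z hadm.1).2 hadm), hF' z hadm, hone]
  have hnumA : F.num A = F.den A • (1 : Matrix _ _ ℂ) := by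
    ext i j
    have h1 := congrFun (congrFun hnumz i) j
    have e1 : ∀ w : ℂ, F.num w i j = aeval w (F.P i j) := fun w => rfl
    rw [e1, Matrix.smul_apply, smul_eq_mul]
    rw [e1, Matrix.smul_apply, smul_eq_mul] at h1
    by_cases hij : i = j
    · subst hij
      rw [Matrix.one_apply_eq, mul_one] at h1 ⊢
      have h2 : aeval z (F.P i i - X ^ F.a * F.E) = 0 := by
        rw [map_sub, h1, Family.den]
        simp
      have h3 := aeval_eq_zero_of_primitive (orderOf A) hordpos z A hz (IsPrimitiveRoot.orderOf A) _ h2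
      rw [map_sub, sub_eq_zero] at h3
      rw [h3, Family.den]
      simp
    · rw [Matrix.one_apply_ne hij, mul_zero] at h1 ⊢
      exact aeval_eq_zero_of_primitive (orderOf A) hordpos z A hz (IsPrimitiveRoot.orderOf A) _ h1
  rw [← hF' A h, Family.M, hnumA, smul_smul, inv_mul_cancel₀ (F.den_ne_zero h.1 ((hF A h.1).2 h)),
    one_smul]

end

end Pool.Agent.H69.AMU
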