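import Mathlib
import Pool.Agent.H69.AMU.Rigid

set_option autoImplicit false

namespace Pool.Agent.H69.AMU

open FusionPath Matrix Polynomial

/-- The space `V_r(S^2; k, ..., k, c)` of the sphere with `n` points coloured `k` and one point
coloured `c` at level `r`: the image of the Jones-Wenzl idempotents in the space with `n * k`
points coloured `1`. -/
noncomputable def quantumSpace (n k c r : ℕ) (A : ℂ) :
    Submodule ℂ (FusionPath (n * k) c (r - 2) → ℂ) :=
  LinearMap.range (Matrix.mulVecLin (colourIdem n k c (r - 2) A))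

/-- The quantum representation at level `r`, for the Kauffman variable `A` with `A ^ 4` a primitive
`r`-th root of unity: a braid on `n` strands acts on `V_r(S^2; k, ..., k, c)` by its `k`-cabling. -/
noncomputable def quantumRep (n k c r : ℕ) (hk : 0 < k) (hr : 2 ≤ r) (A : ℂ)
    (hA : IsPrimitiveRoot (A ^ 4) r) : BraidGroup n →* GL (FusionPath (n * k) c (r - 2)) ℂ :=
  (levelRep (n * k) c r hr A hA).comp (cable n k hk)

/-- The coloured space is invariant. -/
lemma quantumRep_mem {n k c r : ℕ} (hk : 0 < k) (hr : 2 ≤ r) {A : ℂ}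
    (hA : IsPrimitiveRoot (A ^ 4) r) (β : BraidGroup n) (v : FusionPath (n * k) c (r - 2) → ℂ)
    (hv : v ∈ quantumSpace n k c r A) :
    (quantumRep n k c r hk hr A hA β).val *ᵥ v ∈ quantumSpace n k c r A := by
  obtain ⟨w, rfl⟩ := hv
  refine ⟨(quantumRep n k c r hk hr A hA β).val *ᵥ w, ?_⟩
  have h : (quantumRep n k c r hk hr A hA β).val * colourIdem n k c (r - 2) A
      = colourIdem n k c (r - 2) A * (quantumRep n k c r hk hr A hA β).val :=
    braidRep_cable_comm (c := c) hk (admissible_of_primitive (n * k) r hr A hA) β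
  simp only [Matrix.mulVecLin_apply, Matrix.mulVec_mulVec]
  rw [← h]

/-- Scalar action on the coloured space in terms of matrices. -/
lemma acts_as_scalar_iff {n k c r : ℕ} {A : ℂ}
    (M : Matrix (FusionPath (n * k) c (r - 2)) (FusionPath (n * k) c (r - 2)) ℂ) (a : ℂ) :
    (∀ v ∈ quantumSpace n k c r A, M *ᵥ v = a • v) ↔
      M * colourIdem n k c (r - 2) A = a • colourIdem n k c (r - 2) A := by
  constructor
  · intro h
    apply Matrix.ext_of_mulVec_single
    intro i
    have h1 := h ((colourIdem n k c (r - 2) A) *ᵥ Pi.single i 1) ⟨Pi.single i 1, rfl⟩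
    rw [← Matrix.mulVec_mulVec, h1, Matrix.smul_mulVec]
  · rintro h _ ⟨w, rfl⟩
    simp only [Matrix.mulVecLin_apply]
    rw [Matrix.mulVec_mulVec, h, Matrix.smul_mulVec]

/-- An idempotent-type lemma: if `a p + (1 - p)` has determinant one, it has finite order. -/
lemma finite_order_of_det {ι : Type*} [Fintype ι] [DecidableEq ι] (P : Matrix ι ι ℂ)
    (hP : P * P = P) (a : ℂ) (hdet : (a • P + (1 - P)).det = 1) :
    ∃ t : ℕ, t ≠ 0 ∧ (a • P + (1 - P)) ^ t = 1 := by
  have hmul : ∀ x y : ℂ, (x • P + (1 - P)) * (y • P + (1 - P)) = (x * y) • P + (1 - P) := by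
    intro x y
    have h1 : (1 - P) * P = 0 := by rw [sub_mul, one_mul, hP, sub_self]
    have h2 : P * (1 - P) = 0 := by rw [mul_sub, mul_one, hP, sub_self]
    have h3 : (1 - P) * (1 - P) = 1 - P := by rw [mul_sub, mul_one, h1, sub_zero]
    rw [add_mul, mul_add, mul_add, smul_mul_assoc, smul_mul_assoc, mul_smul_comm, mul_smul_comm,
      hP, h1, h2, h3, smul_smul]
    simp
  have hpow : ∀ j : ℕ, (a • P + (1 - P)) ^ j = (a ^ j) • P + (1 - P) := by
    intro j
    induction j with
    | zero => simp
    | succ j ih => rw [pow_succ, ih, hmul, pow_succ]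
  by_cases hfin : ∃ t : ℕ, t ≠ 0 ∧ a ^ t = 1
  · obtain ⟨t, ht, hat⟩ := hfin
    refine ⟨t, ht, ?_⟩
    rw [hpow, hat]
    simp
  · push Not at hfin
    -- the determinant polynomial
    let f : ℂ[X] := ((X : ℂ[X]) • P.map C + (1 - P).map C).det
    have hf : ∀ x : ℂ, f.eval x = (x • P + (1 - P)).det := by
      intro x
      have h1 : f.eval x = (Polynomial.evalRingHom x) f := rfl
      rw [h1]
      show (Polynomial.evalRingHom x) ((X : ℂ[X]) • P.map C + (1 - P).map C).det = _
      rw [RingHom.map_det]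
      congr 1
      ext i j
      simp
      ring
    have hP0 : P = 0 := by
      have h0 : (0 • P + (1 - P) : Matrix ι ι ℂ).det = 1 := by
        by_cases ha : a = 0
        · rw [ha] at hdet
          simpa using hdet
        · have hinj : Function.Injective (fun j : ℕ => a ^ j) := by
            intro i j hij
            by_contra hne
            rcases Nat.lt_or_gt_of_ne hne with h | h
            · apply hfin (j - i) (by omega)
              have h2 : a ^ j = a ^ i * a ^ (j - i) := by rw [← pow_add]; congr 1; omega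
              have h3 : a ^ i * a ^ (j - i) = a ^ i * 1 := by
                rw [mul_one, ← h2]; exact hij.symm
              exact mul_left_cancel₀ (pow_ne_zero _ ha) h3
            · apply hfin (i - j) (by omega)
              have h2 : a ^ i = a ^ j * a ^ (i - j) := by rw [← pow_add]; congr 1; omega
              have h3 : a ^ j * a ^ (i - j) = a ^ j * 1 := by
                rw [mul_one, ← h2]; exact hij
              exact mul_left_cancel₀ (pow_ne_zero _ ha) h3
          have hroots : Set.Infinite {x : ℂ | f.eval x = (1 : ℂ[X]).eval x} := by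
            apply (Set.infinite_range_of_injective hinj).mono
            rintro _ ⟨j, rfl⟩
            show f.eval (a ^ j) = (1 : ℂ[X]).eval (a ^ j)
            rw [hf, ← hpow, det_pow, hdet, one_pow, Polynomial.eval_one]
          have hf1 : f = 1 := Polynomial.eq_of_infinite_eval_eq f 1 hroots
          have h2 := hf 0
          rw [hf1, Polynomial.eval_one] at h2
          simpa using h2.symm
      have hunit : IsUnit (1 - P) := by
        rw [Matrix.isUnit_iff_isUnit_det]
        have : (1 - P).det = 1 := by simpa using h0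
        rw [this]
        exact isUnit_one
      have h1 : (1 - P) * P = 0 := by rw [sub_mul, one_mul, hP, sub_self]
      exact (hunit.mul_right_eq_zero).1 h1
    refine ⟨1, one_ne_zero, ?_⟩
    rw [hP0]
    simp

lemma det_colRep_of_commutator {n k c L : ℕ} (hk : 0 < k) {A : ℂ} (hA : Admissible (n * k) L A)
    (hkL : k ≤ L + 1) {β : BraidGroup n} (hβ : β ∈ ⁅pureBraid n, pureBraid n⁆) :
    ((colRep n k c L hk A hA hkL β).val).det = 1 := by
  let f : BraidGroup n →* ℂˣ := (Matrix.GeneralLinearGroup.det).comp (colRep n k c L hk A hA hkL)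
  have h1 : ⁅pureBraid n, pureBraid n⁆ ≤ f.ker :=
    (Subgroup.commutator_mono le_top le_top).trans (Abelianization.commutator_subset_ker f)
  have h2 : f β = 1 := h1 hβ
  have h3 := congrArg Units.val h2
  exact h3

/-- The dichotomy for the derived subgroup. -/
theorem derived_dichotomy (n k c : ℕ) (hk : 0 < k) (β : BraidGroup n)
    (hβ : β ∈ ⁅pureBraid n, pureBraid n⁆) (r₁ : ℕ) (hr₁ : n * k + 2 ≤ r₁) (hr₁' : 2 ≤ r₁) (A₁ : ℂ)
    (hA₁ : IsPrimitiveRoot (A₁ ^ 4) r₁)
    (hne : ∃ v ∈ quantumSpace n k c r₁ A₁, (quantumRep n k c r₁ hk hr₁' A₁ hA₁ β).val *ᵥ v ≠ v) :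
    ∃ r₀ : ℕ, ∀ (r : ℕ) (hr : 2 ≤ r) (A : ℂ) (hA : IsPrimitiveRoot (A ^ 4) r), r₀ ≤ r →
      ∀ m : ℕ, 0 < m → ∀ a : ℂ, ∃ v ∈ quantumSpace n k c r A,
        (quantumRep n k c r hk hr A hA β).val ^ m *ᵥ v ≠ a • v := by
  -- trivial case of no strands
  rcases Nat.eq_zero_or_pos n with hn | hn
  · exfalso
    subst hn
    obtain ⟨v, hv, hv'⟩ := hne
    apply hv'
    have h1 : β ∈ (⊥ : Subgroup (BraidGroup 0)) := by
      have h2 : Subgroup.closure (gen 0 '' Set.Iio (0 - 1)) = (⊥ : Subgroup (BraidGroup 0)) := by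
        simp
      rw [← h2, closure_gen]
      exact Subgroup.mem_top β
    rw [Subgroup.mem_bot.1 h1, map_one, Units.val_one, Matrix.one_mulVec]
  have hkN : k ≤ n * k + 1 := by nlinarith
  have hkN' : k ≤ n * k := by nlinarith
  by_contra hcon
  push Not at hcon
  -- the infinite set of levels
  let R : Set ℕ := {r | n * k + 2 ≤ r ∧ ∃ A : ℂ, IsPrimitiveRoot (A ^ 4) r ∧
      ∃ h : Admissible (n * k) (n * k) A, ∃ m : ℕ, m ≠ 0 ∧
        (colRep n k c (n * k) hk A h hkN β).val ^ m = 1}
  have hR : R.Infinite := by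
    apply Set.infinite_of_not_bddAbove
    rintro ⟨B, hB⟩
    obtain ⟨r, hr, A, hA, hrB, m, hm, a, ha⟩ := hcon (B + n * k + 3)
    have hrR : r ∈ R := by
      refine ⟨by omega, A, hA, admissible_of_primitive' (by omega) hA, ?_⟩
      have hL : n * k ≤ r - 2 := by omega
      have hadm := admissible_of_primitive (n * k) r hr A hA
      have hkL : k ≤ r - 2 + 1 := by omega
      have h1 := (acts_as_scalar_iff _ a).1 ha
      rw [← Units.val_pow_eq_pow_val, ← map_pow] at h1
      have h2 : (colRep n k c (r - 2) hk A hadm hkL β).val ^ m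
          = a • colourIdem n k c (r - 2) A + (1 - colourIdem n k c (r - 2) A) := by
        rw [← Units.val_pow_eq_pow_val, ← map_pow, colRep_val]
        rw [← h1]
        rfl
      have hdet : (a • colourIdem n k c (r - 2) A + (1 - colourIdem n k c (r - 2) A)).det = 1 := by
        rw [← h2, det_pow, det_colRep_of_commutator hk hadm hkL hβ, one_pow]
      obtain ⟨t, ht, ht'⟩ := finite_order_of_det _ (colourIdem_idem hadm hkL) a hdet
      rw [← h2, ← pow_mul] at ht'
      refine ⟨m * t, Nat.mul_ne_zero (by omega) ht, ?_⟩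
      have h3 := congrArg (liftAlg (n * k) c (r - 2) hL) ht'
      rw [map_pow, map_one, liftAlg_colRep hk hL hadm hkL hkN β] at h3
      exact h3
    have := hB hrR
    omega
  have hrig := rigidity c hk hkN β hβ R hR
    (fun r hr => ⟨by have := hr.1; omega, hr.2⟩) r₁ hr₁ A₁ hA₁ (admissible_of_primitive' hr₁ hA₁)
  obtain ⟨v, hv, hv'⟩ := hne
  apply hv'
  have hL : n * k ≤ r₁ - 2 := by omega
  have hadm := admissible_of_primitive (n * k) r₁ hr₁' A₁ hA₁
  have hkL : k ≤ r₁ - 2 + 1 := by omega
  have h3 := liftAlg_colRep (c := c) hk hL hadm hkL hkN β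
  rw [hrig] at h3
  have h4 : (colRep n k c (r₁ - 2) hk A₁ hadm hkL β).val = 1 := by
    apply (liftAlg (n * k) c (r₁ - 2) hL).injective
    rw [h3, map_one]
  rw [colRep_val] at h4
  have h5 : (quantumRep n k c r₁ hk hr₁' A₁ hA₁ β).val * colourIdem n k c (r₁ - 2) A₁
      = (1 : ℂ) • colourIdem n k c (r₁ - 2) A₁ := by
    rw [one_smul]
    have h6 : (quantumRep n k c r₁ hk hr₁' A₁ hA₁ β).val * colourIdem n k c (r₁ - 2) A₁
        + (1 - colourIdem n k c (r₁ - 2) A₁) = 1 := h4
    have h7 := eq_sub_of_add_eq h6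
    rw [h7]
    abel
  have h6 := (acts_as_scalar_iff (quantumRep n k c r₁ hk hr₁' A₁ hA₁ β).val 1).2 h5 v hv
  rw [one_smul] at h6
  exact h6

end Pool.Agent.H69.AMU
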