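import Mathlib
import Pool.Agent.H69.AMU.Quantum

set_option autoImplicit false

namespace Pool.Agent.H69.AMU

open FusionPath Matrix Polynomial Filter Topology

/-- An integer polynomial of modulus at most one on the circle, and of modulus one somewhere on
the circle, is a monomial up to sign, provided its modulus is one at all but finitely many points. -/
lemma eq_monomial_of_circle (Q : ℤ[X]) (hb : ∀ z : ℂ, ‖z‖ = 1 → ‖aeval z Q‖ ≤ 1) (h0 : Q ≠ 0) :
    ∃ (e : ℕ) (ε : ℤ), (ε = 1 ∨ ε = -1) ∧ Q = C ε * X ^ e := by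
  set q : ℂ[X] := Q.map (algebraMap ℤ ℂ) with hq
  have hev : ∀ z : ℂ, q.eval z = aeval z Q := fun z => by rw [hq, eval_map_algebraMap]
  have hinj : Function.Injective (algebraMap ℤ ℂ) := (algebraMap ℤ ℂ).injective_int
  have h1 := sum_sq_norm_coeff_eq_circleAverage q
  have h2 : Real.circleAverage (fun θ => ‖q.eval θ‖ ^ 2) 0 1 ≤ 1 := by
    apply Real.circleAverage_mono_on_of_le_circle
    · apply ContinuousOn.circleIntegrable (by norm_num)
      exact ((q.continuous.norm).pow 2).continuousOn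
    · intro z hz
      have hz' : ‖z‖ = 1 := by simpa using hz
      have h3 := hb z hz'
      rw [← hev] at h3
      have h4 := norm_nonneg (q.eval z)
      nlinarith
  rw [← h1] at h2
  have hsupp : q.support = Q.support := by
    rw [hq]
    exact Polynomial.support_map_of_injective Q hinj
  have h3 : ∀ i ∈ Q.support, (1 : ℝ) ≤ ‖q.coeff i‖ ^ 2 := by
    intro i hi
    have h4 : Q.coeff i ≠ 0 := mem_support_iff.1 hi
    have h5 : 1 ≤ |Q.coeff i| := Int.one_le_abs h4
    have h6 : ‖q.coeff i‖ = |(Q.coeff i : ℝ)| := by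
      rw [hq, coeff_map]
      simp
    have h7 : (1 : ℝ) ≤ |(Q.coeff i : ℝ)| := by exact_mod_cast h5
    rw [h6]
    nlinarith
  have h4 : (Q.support.card : ℝ) ≤ 1 := by
    calc (Q.support.card : ℝ) = ∑ i ∈ Q.support, (1 : ℝ) := by simp
      _ ≤ ∑ i ∈ Q.support, ‖q.coeff i‖ ^ 2 := Finset.sum_le_sum h3
      _ = ∑ i ∈ q.support, ‖q.coeff i‖ ^ 2 := by rw [hsupp]
      _ ≤ 1 := h2
  have h5 : Q.support.card = 1 := by
    have h6 : Q.support.card ≤ 1 := by exact_mod_cast h4
    have h7 : 0 < Q.support.card := Finset.card_pos.2 (Polynomial.support_nonempty.2 h0)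
    omega
  obtain ⟨e, a, ha, hQ⟩ := Polynomial.card_support_eq_one.1 h5
  refine ⟨e, a, ?_, hQ⟩
  have h6 := hb 1 (by simp)
  rw [hQ] at h6
  simp only [map_mul, map_pow, aeval_X, one_pow, mul_one,
    eq_intCast, map_intCast, Complex.norm_intCast] at h6
  have h7 : |a| ≤ 1 := by exact_mod_cast h6
  have h8 := abs_le.1 h7
  omega

namespace Family

variable {ι : Type} [Fintype ι] [DecidableEq ι] (F : Family ι)

lemma det_num (z : ℂ) : (F.num z).det = aeval z F.P.det := by
  rw [num]
  exact (RingHom.map_det (aeval z : ℤ[X] →ₐ[ℤ] ℂ).toRingHom F.P).symm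

lemma det_num_eq {z : ℂ} (hz : z ≠ 0) (hE : aeval z F.E ≠ 0) :
    aeval z F.P.det = (F.den z) ^ Fintype.card ι * (F.M z).det := by
  rw [← det_num, F.num_eq hz hE, det_smul]

/-- The determinant of a family of norm one determinants is a monomial. -/
lemma det_monomial (hdet : ∀ z : ℂ, ‖z‖ = 1 → aeval z F.E ≠ 0 → ‖(F.M z).det‖ = 1) :
    ∃ (e : ℕ) (ε : ℤ), (ε = 1 ∨ ε = -1) ∧ F.P.det = F.E ^ Fintype.card ι * (C ε * X ^ e) := by
  set d := Fintype.card ι with hd
  -- the bound on the circle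
  have hgood : ∀ z : ℂ, ‖z‖ = 1 → aeval z F.E ≠ 0 → ‖aeval z F.P.det‖ = ‖aeval z (F.E ^ d)‖ := by
    intro z hz hE
    have hz0 : z ≠ 0 := by
      rintro rfl
      simp at hz
    rw [F.det_num_eq hz0 hE, norm_mul, hdet z hz hE, mul_one, den, norm_pow, norm_mul, norm_pow, hz,
      one_pow, one_mul, map_pow, norm_pow]
  have hbound : ∀ z : ℂ, ‖z‖ = 1 → ‖aeval z F.P.det‖ ≤ 1 * ‖aeval z (F.E ^ d)‖ := by
    intro z hz
    rw [one_mul]
    by_contra hcon
    push Not at hcon
    have hopen : IsOpen {w : ℂ | ‖aeval w (F.E ^ d)‖ < ‖aeval w F.P.det‖} :=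
      isOpen_lt (Polynomial.continuous_aeval _).norm (Polynomial.continuous_aeval _).norm
    obtain ⟨ε, hε, hball⟩ := Metric.isOpen_iff.1 hopen z hcon
    -- infinitely many points of the circle nearby, finitely many zeros
    have hS : (Set.univ : Set ℕ).Infinite := Set.infinite_univ
    have hfin : Set.Finite {w : ℂ | aeval w F.E = 0} := by
      have h1 : {w : ℂ | aeval w F.E = 0} ⊆ ((F.E.map (algebraMap ℤ ℂ)).roots.toFinset : Set ℂ) := by
        intro w hw
        have hne : F.E.map (algebraMap ℤ ℂ) ≠ 0 := (F.monic.map _).ne_zero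
        simp only [Finset.mem_coe, Multiset.mem_toFinset]
        rw [mem_roots hne, IsRoot.def, eval_map_algebraMap]
        exact hw
      exact (Finset.finite_toSet _).subset h1
    -- orders of the zeros are bounded
    let S : Set ℕ := {N | 0 < N ∧ ∀ w : ℂ, aeval w F.E = 0 → ¬ IsPrimitiveRoot w N}
    have hSinf : S.Infinite := by
      have h2 : (Sᶜ).Finite := by
        have h3 : Sᶜ ⊆ {0} ∪ orderOf '' {w : ℂ | aeval w F.E = 0} := by
          intro N hN
          by_cases hN0 : N = 0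
          · left; exact hN0
          · right
            have h4 : ¬ (0 < N ∧ ∀ w : ℂ, aeval w F.E = 0 → ¬ IsPrimitiveRoot w N) := hN
            push Not at h4
            obtain ⟨w, hw, hw'⟩ := h4 (Nat.pos_of_ne_zero hN0)
            exact ⟨w, hw, hw'.eq_orderOf.symm⟩
        exact ((Set.finite_singleton 0).union (hfin.image _)).subset h3
      have h5 := h2.infinite_compl
      rwa [compl_compl] at h5
    obtain ⟨N, hN, ζ, hζ, hnear⟩ := exists_primitive_near S hSinf z hz ε hε
    have hζ1 : ‖ζ‖ = 1 := hζ.norm'_eq_one hN.1.ne'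
    have hζE : aeval ζ F.E ≠ 0 := fun h => hN.2 ζ h hζ
    have h6 := hball (Metric.mem_ball.2 (by rw [dist_eq_norm]; exact hnear))
    have h7 : ‖aeval ζ (F.E ^ d)‖ < ‖aeval ζ F.P.det‖ := h6
    rw [hgood ζ hζ1 hζE] at h7
    exact lt_irrefl _ h7
  obtain ⟨Q, hQ, hQb, _⟩ := exists_int_quotient 1 (F.E ^ d) F.P.det (F.monic.pow d) (by
    intro z hz
    rw [map_pow] at hz
    apply F.roots z
    by_contra h
    exact pow_ne_zero d h hz) hbound
  have hQ0 : Q ≠ 0 := by
    rintro rfl
    rw [mul_zero] at hQ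
    -- then the determinant would vanish at a good point
    have hfin : Set.Finite {w : ℂ | aeval w F.E = 0} := by
      have h1 : {w : ℂ | aeval w F.E = 0} ⊆ ((F.E.map (algebraMap ℤ ℂ)).roots.toFinset : Set ℂ) := by
        intro w hw
        have hne : F.E.map (algebraMap ℤ ℂ) ≠ 0 := (F.monic.map _).ne_zero
        simp only [Finset.mem_coe, Multiset.mem_toFinset]
        rw [mem_roots hne, IsRoot.def, eval_map_algebraMap]
        exact hw
      exact (Finset.finite_toSet _).subset h1
    have hcirc : Set.Infinite {w : ℂ | ‖w‖ = 1} := by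
      intro hf
      have h1 : Set.Infinite (Set.range fun n : ℕ => Complex.exp (((1 : ℝ) / (n + 1) : ℝ) * Complex.I)) := by
        apply Set.infinite_range_of_injective
        intro a b hab
        have ha : (0 : ℝ) < 1 / ((a : ℝ) + 1) := by positivity
        have hb : (0 : ℝ) < 1 / ((b : ℝ) + 1) := by positivity
        have ha' : (1 : ℝ) / ((a : ℝ) + 1) ≤ 1 := by
          rw [div_le_one (by positivity)]; linarith [Nat.cast_nonneg (α := ℝ) a]
        have hb' : (1 : ℝ) / ((b : ℝ) + 1) ≤ 1 := by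
          rw [div_le_one (by positivity)]; linarith [Nat.cast_nonneg (α := ℝ) b]
        have hpi := Real.pi_gt_three
        have h2 := congrArg Complex.arg hab
        simp only [] at h2
        rw [Complex.arg_exp_mul_I, Complex.arg_exp_mul_I] at h2
        rw [(toIocMod_eq_self _).2, (toIocMod_eq_self _).2] at h2
        · have h3 : (a : ℝ) + 1 = b + 1 := by
            have := congrArg (fun x : ℝ => x⁻¹) h2
            simpa using this
          have h4 : (a : ℝ) = b := by linarith
          exact_mod_cast h4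
        · constructor <;> linarith
        · constructor <;> linarith
      apply h1
      apply hf.subset
      rintro _ ⟨n, rfl⟩
      exact Complex.norm_exp_ofReal_mul_I _
    obtain ⟨z, hz1, hz2⟩ := (hcirc.sdiff hfin).nonempty
    have h3 := hgood z hz1 hz2
    rw [hQ, map_zero, norm_zero, map_pow, norm_pow] at h3
    exact pow_ne_zero _ (norm_ne_zero_iff.2 hz2) h3.symm
  obtain ⟨e, ε, hε, hQe⟩ := eq_monomial_of_circle Q hQb hQ0
  exact ⟨e, ε, hε, by rw [hQ, hQe]⟩

/-- The determinant at a root of unity is a root of unity. -/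
lemma det_root_of_unity (hdet : ∀ z : ℂ, ‖z‖ = 1 → aeval z F.E ≠ 0 → ‖(F.M z).det‖ = 1)
    (z : ℂ) (N : ℕ) (hN : N ≠ 0) (hz : z ^ N = 1) (hE : aeval z F.E ≠ 0) :
    ((F.M z).det) ^ (2 * N) = 1 := by
  obtain ⟨e, ε, hε, hP⟩ := F.det_monomial hdet
  have hz0 : z ≠ 0 := by
    rintro rfl
    rw [zero_pow hN] at hz
    exact zero_ne_one hz
  have h1 := F.det_num_eq hz0 hE
  rw [hP] at h1
  simp only [map_mul, map_pow, aeval_X, eq_intCast, map_intCast] at h1
  rw [den, mul_pow] at h1
  have hEd : (aeval z F.E) ^ Fintype.card ι ≠ 0 := pow_ne_zero _ hE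
  have h2 : ((z ^ F.a) ^ Fintype.card ι) * (F.M z).det = (ε : ℂ) * z ^ e := by
    apply mul_left_cancel₀ hEd
    rw [h1]
    ring
  have hzp : ∀ j : ℕ, (z ^ j) ^ (2 * N) = 1 := by
    intro j
    rw [← pow_mul, show j * (2 * N) = N * (2 * j) by ring, pow_mul, hz, one_pow]
  have hε2 : ((ε : ℂ)) ^ (2 * N) = 1 := by
    rw [pow_mul]
    rcases hε with h | h <;> simp [h]
  have h3 := congrArg (fun x : ℂ => x ^ (2 * N)) h2
  simp only [mul_pow] at h3
  have h4 : ((z ^ F.a) ^ Fintype.card ι) ^ (2 * N) = 1 := by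
    have h5 : (z ^ F.a) ^ Fintype.card ι = z ^ (F.a * Fintype.card ι) := (pow_mul _ _ _).symm
    rw [h5]; exact hzp _
  rw [hzp e, hε2, h4, one_mul, one_mul] at h3
  exact h3

end Family

section
variable {n k : ℕ} (c : ℕ) (hk : 0 < k) (hkN : k ≤ n * k + 1)

lemma family_det {F : Family (FusionPath (n * k) c (n * k))} {β : BraidGroup n}
    (hF : ∀ z : ℂ, z ≠ 0 → (aeval z F.E ≠ 0 ↔ Admissible (n * k) (n * k) z))
    (hF' : ∀ z (h : Admissible (n * k) (n * k) z), F.M z = (colRep n k c (n * k) hk z h hkN β).val) :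
    ∀ z : ℂ, ‖z‖ = 1 → aeval z F.E ≠ 0 → ‖(F.M z).det‖ = 1 := by
  intro z hz hE
  have hz0 : z ≠ 0 := by
    rintro rfl
    simp at hz
  have hadm := (hF z hz0).1 hE
  rw [hF' z hadm]
  exact norm_det_colRep hk hz hadm hkN β

/-- Transport of relations between primitive roots of unity of the same order. -/
lemma colRep_one_transport (β : BraidGroup n) (N : ℕ) (hN : 0 < N) (z A : ℂ)
    (hz : IsPrimitiveRoot z N) (hA : IsPrimitiveRoot A N) (hadm : Admissible (n * k) (n * k) z)
    (h : Admissible (n * k) (n * k) A) (hone : (colRep n k c (n * k) hk z hadm hkN β).val = 1) :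
    (colRep n k c (n * k) hk A h hkN β).val = 1 := by
  obtain ⟨F, hF, hF'⟩ := exists_family_of_regMat (regMat_colRep (c := c) hk hkN β)
  have hnumz : F.num z = F.den z • (1 : Matrix _ _ ℂ) := by
    rw [F.num_eq hadm.1 ((hF z hadm.1).2 hadm), hF' z hadm, hone]
  have hnumA : F.num A = F.den A • (1 : Matrix _ _ ℂ) := by
    ext i j
    have h1 := congrFun (congrFun hnumz i) j
    have e1 : ∀ w : ℂ, F.num w i j = aeval w (F.P i j) := fun w => rfl
    rw [e1, Matrix.smul_apply, smul_eq_mul]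
    rw [e1, Matrix.smul_apply, smul_eq_mul] at h1
    by_cases hij : i = j
    · subst hij
      rw [Matrix.one_apply_eq, mul_one] at h1 ⊢
      have h2 : aeval z (F.P i i - X ^ F.a * F.E) = 0 := by
        rw [map_sub, h1, Family.den]
        simp
      have h3 := aeval_eq_zero_of_primitive N hN z A hz hA _ h2
      rw [map_sub, sub_eq_zero] at h3
      rw [h3, Family.den]
      simp
    · rw [Matrix.one_apply_ne hij, mul_zero] at h1 ⊢
      exact aeval_eq_zero_of_primitive N hN z A hz hA _ h1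
  rw [← hF' A h, Family.M, hnumA, smul_smul, inv_mul_cancel₀ (F.den_ne_zero h.1 ((hF A h.1).2 h)),
    one_smul]

/-- If a pure braid has finite order at infinitely many levels, then at every level its order
divides the order of `A`. -/
theorem rigidity_pure (β : BraidGroup n) (hβ : β ∈ pureBraid n) (R : Set ℕ) (hR : R.Infinite)
    (hfin : ∀ r ∈ R, 0 < r ∧ ∃ A : ℂ, IsPrimitiveRoot (A ^ 4) r ∧
      ∃ h : Admissible (n * k) (n * k) A, ∃ m : ℕ, m ≠ 0 ∧
        (colRep n k c (n * k) hk A h hkN β).val ^ m = 1)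
    (r : ℕ) (hr : n * k + 2 ≤ r) (A : ℂ) (hA : IsPrimitiveRoot (A ^ 4) r)
    (h : Admissible (n * k) (n * k) A) :
    (colRep n k c (n * k) hk A h hkN (β ^ orderOf A)).val = 1 := by
  rcases isEmpty_or_nonempty (FusionPath (n * k) c (n * k)) with hempty | hne
  · exact Subsingleton.elim _ _
  obtain ⟨F, hF, hF'⟩ := exists_family_of_regMat (regMat_colRep (c := c) hk hkN β)
  have hE1 : aeval (1 : ℂ) F.E ≠ 0 := (hF 1 one_ne_zero).2 admissible_one
  have hM1 : F.M 1 = 1 := by
    rw [hF' 1 admissible_one]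
    exact colRep_one_of_pure hk 1 rfl _ hkN β hβ
  choose! hpos f hf1 hf2 mm hmm hmm' using hfin
  have hS : ((fun r => orderOf (f r)) '' R).Infinite := by
    intro hfinite
    apply hR
    obtain ⟨B, hB⟩ := hfinite.bddAbove
    apply (Set.finite_Iic B).subset
    intro r' hr'
    have h1 := pos_of_isPrimitiveRoot_of_pow (hpos r' hr') (hf1 r' hr')
    have h2 : r' ≤ orderOf (f r') := Nat.le_of_dvd h1.1 h1.2
    exact h2.trans (hB ⟨r', hr', rfl⟩)
  have hdet := family_det c hk hkN hF hF'
  have hfinF : ∀ N ∈ ((fun r => orderOf (f r)) '' R), ∃ ζ : ℂ, IsPrimitiveRoot ζ N ∧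
      aeval ζ F.E ≠ 0 ∧ F.FiniteAt ζ := by
    rintro _ ⟨r', hr', rfl⟩
    have hadm := hf2 r' hr'
    refine ⟨f r', IsPrimitiveRoot.orderOf _, (hF _ hadm.1).2 hadm, mm r', hmm r' hr', 1, ?_⟩
    rw [hF' _ hadm, hmm' r' hr', one_smul]
  obtain ⟨Q, hQ, hQ2⟩ := F.exists_quotients _ hS hdet hfinF
  -- the conjugate point
  have hr0 : 0 < r := by omega
  obtain ⟨z, hz, hz4⟩ := exists_conjugate hr0 hA
  have hz4' : IsPrimitiveRoot (z ^ 4) r := by
    rw [hz4]
    exact Complex.isPrimitiveRoot_exp r hr0.ne'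
  have hadm := admissible_of_primitive' hr hz4'
  have hordpos := (pos_of_isPrimitiveRoot_of_pow hr0 hA).1
  have hznorm : ‖z‖ = 1 := hz.norm'_eq_one hordpos.ne'
  have hzE : aeval z F.E ≠ 0 := (hF z hadm.1).2 hadm
  have htr : ((colRep n k c (n * k) hk z hadm hkN (β ^ orderOf A)).val).trace
      = Fintype.card (FusionPath (n * k) c (n * k)) := by
    have h1 := Family.q_eq_q_one (F := F) hE1 hM1 hQ hQ2 (Complex.arg z) (orderOf A)
    have h2 : Complex.exp (Complex.arg z * Complex.I) = z := by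
      have := Complex.norm_mul_exp_arg_mul_I z
      rwa [hznorm, Complex.ofReal_one, one_mul] at this
    rw [h2, hz.pow_eq_one] at h1
    rw [map_pow, Units.val_pow_eq_pow_val, ← hF' z hadm, Family.trace_eq_q hQ hadm.1 hzE, h1,
      ← Family.trace_eq_q hQ one_ne_zero hE1, hM1, pow_one, Matrix.trace_one]
  have hone := colRep_eq_one_of_trace (c := c) hk r hr z hz4 hadm hkN (β ^ orderOf A) htr
  exact colRep_one_transport c hk hkN _ _ hordpos z A hz (IsPrimitiveRoot.orderOf A) hadm h hone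

/-- Projectively finite order on the coloured space implies finite order. -/
lemma finite_of_scalar (β : BraidGroup n) (hkN' : k ≤ n * k) (r : ℕ) (hr : 2 ≤ r)
    (hr' : n * k + 2 ≤ r) (A : ℂ)
    (hA : IsPrimitiveRoot (A ^ 4) r) (m : ℕ) (hm : 0 < m) (a : ℂ)
    (ha : ∀ v ∈ quantumSpace n k c r A, (quantumRep n k c r hk hr A hA β).val ^ m *ᵥ v = a • v)
    (h : Admissible (n * k) (n * k) A) :
    ∃ t : ℕ, t ≠ 0 ∧ (colRep n k c (n * k) hk A h hkN β).val ^ t = 1 := by
  have hL : n * k ≤ r - 2 := by omega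
  have hadm := admissible_of_primitive (n * k) r hr A hA
  have hkL : k ≤ r - 2 + 1 := by omega
  have h1 := (acts_as_scalar_iff _ a).1 ha
  rw [← Units.val_pow_eq_pow_val, ← map_pow] at h1
  have h2 : (colRep n k c (r - 2) hk A hadm hkL β).val ^ m
      = a • colourIdem n k c (r - 2) A + (1 - colourIdem n k c (r - 2) A) := by
    rw [← Units.val_pow_eq_pow_val, ← map_pow, colRep_val]
    rw [← h1]
    rfl
  have h3 := congrArg (liftAlg (n * k) c (r - 2) hL) h2
  rw [map_pow, liftAlg_colRep hk hL hadm hkL hkN β, map_add, map_sub, map_smul, map_one,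
    liftAlg_colourIdem] at h3
  -- the determinant
  obtain ⟨F, hF, hF'⟩ := exists_family_of_regMat (regMat_colRep (c := c) hk hkN β)
  have hdet := family_det c hk hkN hF hF'
  obtain ⟨hordpos, _⟩ := pos_of_isPrimitiveRoot_of_pow (by omega : 0 < r) hA
  have h4 := F.det_root_of_unity hdet A (orderOf A) hordpos.ne' (pow_orderOf_eq_one A)
    ((hF A h.1).2 h)
  rw [hF' A h] at h4
  set u := 2 * orderOf A with hu
  have hPP : colourIdem n k c (n * k) A * colourIdem n k c (n * k) A = colourIdem n k c (n * k) A :=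
    colourIdem_idem h hkN
  have h5 : (colRep n k c (n * k) hk A h hkN β).val ^ (m * u)
      = (a ^ u) • colourIdem n k c (n * k) A + (1 - colourIdem n k c (n * k) A) := by
    rw [pow_mul, h3]
    have hP1 : (1 - colourIdem n k c (n * k) A) * colourIdem n k c (n * k) A = 0 := by
      rw [sub_mul, one_mul, hPP, sub_self]
    have hP2 : colourIdem n k c (n * k) A * (1 - colourIdem n k c (n * k) A) = 0 := by
      rw [mul_sub, mul_one, hPP, sub_self]
    have hP3 : (1 - colourIdem n k c (n * k) A) * (1 - colourIdem n k c (n * k) A)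
        = 1 - colourIdem n k c (n * k) A := by
      rw [mul_sub, mul_one, hP1, sub_zero]
    have hpow : ∀ j : ℕ, (a • colourIdem n k c (n * k) A + (1 - colourIdem n k c (n * k) A)) ^ j
        = (a ^ j) • colourIdem n k c (n * k) A + (1 - colourIdem n k c (n * k) A) := by
      intro j
      induction j with
      | zero => simp
      | succ j ih =>
        rw [pow_succ, ih, add_mul, mul_add, mul_add, smul_mul_assoc, smul_mul_assoc, mul_smul_comm,
          mul_smul_comm, hPP, hP1, hP2, hP3, smul_smul, pow_succ]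
        simp
    exact hpow u
  have h6 : ((a ^ u) • colourIdem n k c (n * k) A + (1 - colourIdem n k c (n * k) A)).det = 1 := by
    rw [← h5, det_pow, mul_comm m u, pow_mul, h4, one_pow]
  obtain ⟨t, ht, ht'⟩ := finite_order_of_det _ hPP (a ^ u) h6
  refine ⟨m * u * t, ?_, ?_⟩
  · have : u ≠ 0 := by omega
    exact Nat.mul_ne_zero (Nat.mul_ne_zero (by omega) this) ht
  · rw [pow_mul, h5, ht']

end

/-- The dichotomy: either a braid has infinite projective order at all large levels, or it has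
finite order at all levels, with an explicit exponent. -/
theorem dichotomy (n k c : ℕ) (hk : 0 < k) (β : BraidGroup n) :
    (∃ r₀ : ℕ, ∀ (r : ℕ) (hr : 2 ≤ r) (A : ℂ) (hA : IsPrimitiveRoot (A ^ 4) r), r₀ ≤ r →
      ∀ m : ℕ, 0 < m → ∀ a : ℂ, ∃ v ∈ quantumSpace n k c r A,
        (quantumRep n k c r hk hr A hA β).val ^ m *ᵥ v ≠ a • v) ∨
    (∀ (r : ℕ) (hr : 2 ≤ r) (A : ℂ) (hA : IsPrimitiveRoot (A ^ 4) r), n * k + 2 ≤ r →
      ∀ v ∈ quantumSpace n k c r A,
        (quantumRep n k c r hk hr A hA β).val ^ (4 * r * orderOf (permHom n β)) *ᵥ v = v) := by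
  rcases Nat.eq_zero_or_pos n with hn | hn
  · right
    subst hn
    intro r hr A hA _ v _
    have h1 : β ∈ (⊥ : Subgroup (BraidGroup 0)) := by
      have h2 : Subgroup.closure (gen 0 '' Set.Iio (0 - 1)) = (⊥ : Subgroup (BraidGroup 0)) := by
        simp
      rw [← h2, closure_gen]
      exact Subgroup.mem_top β
    rw [Subgroup.mem_bot.1 h1, map_one, Units.val_one, one_pow, Matrix.one_mulVec]
  have hkN : k ≤ n * k + 1 := by nlinarith
  have hkN' : k ≤ n * k := by nlinarith
  by_cases hcase : ∃ r₀ : ℕ, ∀ (r : ℕ) (hr : 2 ≤ r) (A : ℂ) (hA : IsPrimitiveRoot (A ^ 4) r), r₀ ≤ r →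
      ∀ m : ℕ, 0 < m → ∀ a : ℂ, ∃ v ∈ quantumSpace n k c r A,
        (quantumRep n k c r hk hr A hA β).val ^ m *ᵥ v ≠ a • v
  · exact Or.inl hcase
  right
  push Not at hcase
  set s := orderOf (permHom n β) with hs
  have hspos : 0 < s := orderOf_pos _
  have hpure : β ^ s ∈ pureBraid n := by
    show permHom n (β ^ s) = 1
    rw [map_pow, hs, pow_orderOf_eq_one]
  let R : Set ℕ := {r | n * k + 2 ≤ r ∧ ∃ A : ℂ, IsPrimitiveRoot (A ^ 4) r ∧
      ∃ h : Admissible (n * k) (n * k) A, ∃ m : ℕ, m ≠ 0 ∧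
        (colRep n k c (n * k) hk A h hkN (β ^ s)).val ^ m = 1}
  have hR : R.Infinite := by
    apply Set.infinite_of_not_bddAbove
    rintro ⟨B, hB⟩
    obtain ⟨r, hr, A, hA, hrB, m, hm, a, ha⟩ := hcase (B + n * k + 3)
    have hadm := admissible_of_primitive' (by omega : n * k + 2 ≤ r) hA
    obtain ⟨t, ht, ht'⟩ := finite_of_scalar c hk hkN β hkN' r hr (by omega) A hA m hm a ha hadm
    have hrR : r ∈ R := by
      refine ⟨by omega, A, hA, hadm, t, ht, ?_⟩
      rw [map_pow, Units.val_pow_eq_pow_val, ← pow_mul, mul_comm s t, pow_mul, ht', one_pow]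
    have := hB hrR
    omega
  intro r hr A hA hr' v hv
  have hadm := admissible_of_primitive' hr' hA
  have h1 := rigidity_pure c hk hkN (β ^ s) hpure R hR
    (fun r hr => ⟨by have := hr.1; omega, hr.2⟩) r hr' A hA hadm
  have hdvd : orderOf A ∣ 4 * r := by
    apply orderOf_dvd_of_pow_eq_one
    rw [pow_mul]
    exact hA.pow_eq_one
  obtain ⟨w, hw⟩ := hdvd
  have h2 : (colRep n k c (n * k) hk A hadm hkN (β ^ (4 * r * s))).val = 1 := by
    have e : β ^ (4 * r * s) = ((β ^ s) ^ orderOf A) ^ w := by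
      rw [← pow_mul, ← pow_mul]
      congr 1
      rw [hw]
      ring
    rw [e, map_pow, Units.val_pow_eq_pow_val, h1, one_pow]
  have hL : n * k ≤ r - 2 := by omega
  have hadm' := admissible_of_primitive (n * k) r hr A hA
  have hkL : k ≤ r - 2 + 1 := by omega
  have h3 := liftAlg_colRep (c := c) hk hL hadm' hkL hkN (β ^ (4 * r * s))
  rw [h2] at h3
  have h4 : (colRep n k c (r - 2) hk A hadm' hkL (β ^ (4 * r * s))).val = 1 := by
    apply (liftAlg (n * k) c (r - 2) hL).injective
    rw [h3, map_one]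
  rw [colRep_val] at h4
  have h5 : (quantumRep n k c r hk hr A hA (β ^ (4 * r * s))).val * colourIdem n k c (r - 2) A
      = (1 : ℂ) • colourIdem n k c (r - 2) A := by
    rw [one_smul]
    have h6 : (quantumRep n k c r hk hr A hA (β ^ (4 * r * s))).val * colourIdem n k c (r - 2) A
        + (1 - colourIdem n k c (r - 2) A) = 1 := h4
    have h7 := eq_sub_of_add_eq h6
    rw [h7]
    abel
  have h6 := (acts_as_scalar_iff (quantumRep n k c r hk hr A hA (β ^ (4 * r * s))).val 1).2 h5 v hv
  rw [one_smul, map_pow, Units.val_pow_eq_pow_val] at h6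
  exact h6

end Pool.Agent.H69.AMU
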